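import Mathlib
import Pool.Agent.Lib.MP_2ce84e_co.Proof

/-!
# Certificates for the domatic number game with two colours

* `win_map`: the colours can be permuted; `win_super`: more edges do not hurt Alice.
* `Rel e p a b`: the position `p` has the set `a` of vertices of colour `0` and the set `b` of
  vertices of colour `1` (bit masks).
* `alice_cert`, `bob_cert`: a table of positions with one move in each of them proves that the
  owner of the table wins.
-/

set_option autoImplicit false

namespace Pool.Agent.Lib.MP_2ce84e_co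

/-! ### Symmetry and monotonicity -/

theorem win_map {V : Type} {k : ℕ} (G : SimpleGraph V) (s : Equiv.Perm (Fin k)) :
    ∀ (m : ℕ) (t : Bool) (p : V → Option (Fin k)), Win G k m t p →
      Win G k m t fun v => (p v).map s := by
  have hmove : ∀ (r : Equiv.Perm (Fin k)) (p p' : V → Option (Fin k)), Move p p' →
      Move (fun v => (p v).map r) (fun v => (p' v).map r) := by
    rintro r p p' ⟨v, h1, h2, h3⟩
    refine ⟨v, by simp [h1], by simpa using h2, fun w hw => ?_⟩
    show (p' w).map r = (p w).map r
    rw [h3 w hw]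
  intro m
  induction m with
  | zero =>
    intro t p hw
    have h : ∀ (x : V) (c : Fin k), ∃ y, (y = x ∨ G.Adj x y) ∧ (p y).map s = some c := by
      intro x c
      have h1 : ∀ (x : V) (c : Fin k), ∃ y, (y = x ∨ G.Adj x y) ∧ p y = some c := by
        cases t <;> exact hw
      obtain ⟨y, hy, hc⟩ := h1 x (s.symm c)
      exact ⟨y, hy, by rw [hc]; simp⟩
    cases t <;> exact h
  | succ m ih =>
    intro t p hw
    cases t
    · intro p' hp'
      have h1 := hmove s.symm _ _ hp'
      have h2 : (fun v => ((p v).map s).map s.symm) = p := by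
        funext v
        rcases p v with _ | c <;> simp
      rw [h2] at h1
      have h3 := ih true _ (hw _ h1)
      have h4 : (fun v => ((p' v).map s.symm).map s) = p' := by
        funext v
        rcases p' v with _ | c <;> simp
      rw [h4] at h3
      exact h3
    · obtain ⟨p', hp', hw'⟩ := hw
      exact ⟨_, hmove s _ _ hp', ih false _ hw'⟩

theorem win_super {V : Type} {k : ℕ} (G G' : SimpleGraph V) (h : ∀ x y, G.Adj x y → G'.Adj x y) :
    ∀ (m : ℕ) (t : Bool) (p : V → Option (Fin k)), Win G k m t p → Win G' k m t p := by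
  intro m
  induction m with
  | zero =>
    intro t p hw
    have h1 : ∀ (x : V) (c : Fin k), ∃ y, (y = x ∨ G.Adj x y) ∧ p y = some c := by
      cases t <;> exact hw
    have h2 : ∀ (x : V) (c : Fin k), ∃ y, (y = x ∨ G'.Adj x y) ∧ p y = some c := by
      intro x c
      obtain ⟨y, hy, hc⟩ := h1 x c
      exact ⟨y, hy.imp id (h x y), hc⟩
    cases t <;> exact h2
  | succ m ih =>
    intro t p hw
    cases t
    · exact fun p' hp' => ih true p' (hw p' hp')
    · obtain ⟨p', hp', hw'⟩ := hw
      exact ⟨p', hp', ih false p' hw'⟩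

/-- If all closed neighbourhoods have all colours already, Alice has won. -/
theorem win_of_good {V : Type} [Finite V] {k : ℕ} (hk : 0 < k) (G : SimpleGraph V) :
    ∀ (m : ℕ) (t : Bool) (p : V → Option (Fin k)), unc p = m →
      (∀ (x : V) (c : Fin k), ∃ y, (y = x ∨ G.Adj x y) ∧ p y = some c) → Win G k m t p := by
  classical
  intro m
  induction m with
  | zero =>
    intro t p _ hw
    cases t <;> exact hw
  | succ m ih =>
    intro t p hu hw
    have h1 : ∀ p', Move p p' → ∀ t', Win G k m t' p' := by
      intro p' hp' t'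
      refine ih t' p' (by have := unc_move hp'; omega) fun x c => ?_
      obtain ⟨y, hy, hc⟩ := hw x c
      obtain ⟨v, hv, _, hvw⟩ := hp'
      refine ⟨y, hy, ?_⟩
      rw [hvw y]
      · exact hc
      · rintro rfl
        rw [hv] at hc
        simp at hc
    cases t
    · exact fun p' hp' => h1 p' hp' true
    · obtain ⟨v, hv⟩ := exists_unc hu
      have hm := move_update p v hv ⟨0, hk⟩
      exact ⟨_, hm, h1 _ hm false⟩

/-! ### Positions as pairs of bit masks -/

/-- Bit `i` of `a`. -/
def bt (a i : ℕ) : Bool := Nat.beq (Nat.land (Nat.shiftRight a i) 1) 1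

theorem bt_eq (a i : ℕ) : bt a i = a.testBit i := by
  have h1 : Nat.land (Nat.shiftRight a i) 1 = (a >>> i) % 2 := by
    show (a >>> i) &&& 1 = _
    rw [Nat.and_one_is_mod]
  rw [bt, h1, Nat.testBit_eq_decide_div_mod_eq, Nat.shiftRight_eq_div_pow]
  rcases Nat.mod_two_eq_zero_or_one (a / 2 ^ i) with h | h <;> rw [h] <;> rfl

/-- `p` has the colour `0` on the vertices of the mask `a`, the colour `1` on those of `b`. -/
def Rel {V : Type} {n : ℕ} (e : V ≃ Fin n) (p : V → Option (Fin 2)) (a b : ℕ) : Prop :=
  ∀ v, (p v = some 0 ↔ a.testBit (e v) = true) ∧ (p v = some 1 ↔ b.testBit (e v) = true)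

section masks

variable {V : Type} {n : ℕ} (e : V ≃ Fin n)

theorem rel_none : Rel e (fun _ => none) 0 0 := by
  intro v
  simp

theorem rel_swap {p : V → Option (Fin 2)} {a b : ℕ} (h : Rel e p a b) :
    Rel e (fun v => (p v).map (Equiv.swap 0 1)) b a := by
  intro v
  obtain ⟨h1, h2⟩ := h v
  rw [← h1, ← h2]
  rcases hp : p v with _ | c
  · simp [hp]
  · obtain rfl | rfl : c = 0 ∨ c = 1 := by omega
    · simp [hp]
    · simp [hp]

theorem rel_free {p : V → Option (Fin 2)} {a b : ℕ} (h : Rel e p a b) (v : V) :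
    p v = none ↔ bt (a ||| b) (e v) = false := by
  obtain ⟨h1, h2⟩ := h v
  rw [bt_eq, Nat.testBit_or, Bool.or_eq_false_iff, ← Bool.not_eq_true, ← Bool.not_eq_true, ← h1,
    ← h2]
  rcases hp : p v with _ | c
  · simp
  · fin_cases c <;> simp

variable [DecidableEq V]

theorem tb_or (a i j : ℕ) : (a ||| Nat.shiftLeft 1 i).testBit j = true ↔
    (a.testBit j = true ∨ i = j) := by
  have h1 : Nat.shiftLeft 1 i = 2 ^ i := by
    show 1 <<< i = _
    rw [Nat.shiftLeft_eq, one_mul]
  rw [h1, Nat.testBit_or, Nat.testBit_two_pow, Bool.or_eq_true, decide_eq_true_eq]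

theorem rel_move0 {p : V → Option (Fin 2)} {a b : ℕ} (h : Rel e p a b) (v : V)
    (hv : p v = none) :
    Rel e (Function.update p v (some 0)) (a ||| Nat.shiftLeft 1 (e v)) b := by
  intro w
  obtain ⟨h1, h2⟩ := h w
  by_cases hw : w = v
  · subst hw
    rw [tb_or, ← h2, Function.update_self, hv]
    simp
  · have h3 : ¬ ((e v : Fin n) : ℕ) = e w := fun h => hw (e.injective (Fin.ext h)).symm
    rw [tb_or, Function.update_of_ne hw, h1, h2]
    simp [h3]

theorem rel_move1 {p : V → Option (Fin 2)} {a b : ℕ} (h : Rel e p a b) (v : V)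
    (hv : p v = none) :
    Rel e (Function.update p v (some 1)) a (b ||| Nat.shiftLeft 1 (e v)) := by
  intro w
  obtain ⟨h1, h2⟩ := h w
  by_cases hw : w = v
  · subst hw
    rw [tb_or, ← h1, Function.update_self, hv]
    simp
  · have h3 : ¬ ((e v : Fin n) : ℕ) = e w := fun h => hw (e.injective (Fin.ext h)).symm
    rw [tb_or, Function.update_of_ne hw, h1, h2]
    simp [h3]

end masks

/-! ### Tables -/

/-- Search trees: a node has a position `(a, b)` and a move `(i, c)`. -/
inductive Tr : Type
  | leaf : Tr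
  | node : Tr → ℕ → ℕ → ℕ → ℕ → Tr → Tr

/-- The position `(x, y)` is in the table. -/
def Tr.mem (x y : ℕ) : Tr → Bool
  | .leaf => false
  | .node l a b _ _ r =>
    bif Nat.beq x a && Nat.beq y b then true
    else bif (Nat.blt x a || (Nat.beq x a && Nat.blt y b)) then l.mem x y else r.mem x y

/-- All nodes satisfy `f`. -/
def Tr.all (f : ℕ → ℕ → ℕ → ℕ → Bool) : Tr → Bool
  | .leaf => true
  | .node l a b i c r => f a b i c && (l.all f && r.all f)

theorem Tr.mem_all (f : ℕ → ℕ → ℕ → ℕ → Bool) (x y : ℕ) : ∀ T : Tr, T.all f = true →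
    T.mem x y = true → ∃ i c, f x y i c = true
  | .leaf, _, h => by simp [Tr.mem] at h
  | .node l a b i c r, hall, h => by
    simp only [Tr.all, Bool.and_eq_true] at hall
    obtain ⟨h1, h2, h3⟩ := hall
    rw [Tr.mem] at h
    rcases hxy : (Nat.beq x a && Nat.beq y b) with _ | _
    · rw [hxy, cond_false] at h
      rcases hlt : (Nat.blt x a || (Nat.beq x a && Nat.blt y b)) with _ | _
      · rw [hlt, cond_false] at h
        exact Tr.mem_all f x y r h3 h
      · rw [hlt, cond_true] at h
        exact Tr.mem_all f x y l h2 h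
    · rw [Bool.and_eq_true] at hxy
      have h4 : x = a := Nat.eq_of_beq_eq_true hxy.1
      have h5 : y = b := Nat.eq_of_beq_eq_true hxy.2
      subst h4
      subst h5
      exact ⟨i, c, h1⟩

/-- `(x, y)` or `(y, x)` is in the table (only one of them is looked up). -/
def memc (T : Tr) (x y : ℕ) : Bool := bif Nat.ble x y then T.mem x y else T.mem y x

/-- All sets of the list `L` have both colours. -/
def safe (a b : ℕ) : List ℕ → Bool
  | [] => true
  | w :: L => bif Nat.beq (Nat.land w a) 0 || Nat.beq (Nat.land w b) 0 then false else safe a b L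

/-- Some set of the list `L` has only one colour. -/
def dead (a b : ℕ) : List ℕ → Bool
  | [] => false
  | w :: L => bif Nat.beq (Nat.land w a) w || Nat.beq (Nat.land w b) w then true else dead a b L

/-- `f j` holds for all bits `j < n` which are not in `u`. -/
def allFree (u : ℕ) (f : ℕ → Bool) : ℕ → Bool
  | 0 => true
  | j + 1 => (bt u j || f j) && allFree u f j

/-- `f j` holds for some bit `j < n` which is not in `u`. -/
def anyFree (u : ℕ) (f : ℕ → Bool) : ℕ → Bool
  | 0 => false
  | j + 1 => (!(bt u j) && f j) || anyFree u f j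

theorem allFree_iff (u : ℕ) (f : ℕ → Bool) : ∀ n : ℕ, allFree u f n = true ↔
    ∀ j < n, bt u j = false → f j = true
  | 0 => by simp [allFree]
  | n + 1 => by
    rw [allFree, Bool.and_eq_true, allFree_iff u f n, Bool.or_eq_true]
    constructor
    · rintro ⟨h1, h2⟩ j hj hu
      rcases Nat.lt_succ_iff_lt_or_eq.1 hj with h | h
      · exact h2 j h hu
      · subst h
        rcases h1 with h1 | h1
        · rw [hu] at h1
          exact absurd h1 (by simp)
        · exact h1
    · intro h
      refine ⟨?_, fun j hj => h j (by omega)⟩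
      rcases hu : bt u n with _ | _
      · exact Or.inr (h n (by omega) hu)
      · exact Or.inl rfl

theorem anyFree_iff (u : ℕ) (f : ℕ → Bool) : ∀ n : ℕ, anyFree u f n = true ↔
    ∃ j < n, bt u j = false ∧ f j = true
  | 0 => by simp [anyFree]
  | n + 1 => by
    rw [anyFree, Bool.or_eq_true, anyFree_iff u f n, Bool.and_eq_true, Bool.not_eq_true']
    constructor
    · rintro (h | ⟨j, hj, h⟩)
      · exact ⟨n, by omega, h⟩
      · exact ⟨j, by omega, h⟩
    · rintro ⟨j, hj, h⟩
      rcases Nat.lt_succ_iff_lt_or_eq.1 hj with h' | h'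
      · exact Or.inr ⟨j, h', h⟩
      · subst h'
        exact Or.inl h

theorem safe_iff (a b : ℕ) : ∀ L : List ℕ, safe a b L = true ↔
    ∀ w ∈ L, w &&& a ≠ 0 ∧ w &&& b ≠ 0
  | [] => by simp [safe]
  | w :: L => by
    rw [safe]
    rcases h : (Nat.beq (Nat.land w a) 0 || Nat.beq (Nat.land w b) 0) with _ | _
    · rw [cond_false, safe_iff a b L, List.forall_mem_cons]
      rw [Bool.or_eq_false_iff] at h
      have h1 : w &&& a ≠ 0 := Nat.ne_of_beq_eq_false h.1
      have h2 : w &&& b ≠ 0 := Nat.ne_of_beq_eq_false h.2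
      exact ⟨fun h3 => ⟨⟨h1, h2⟩, h3⟩, fun h3 => h3.2⟩
    · rw [cond_true]
      refine ⟨fun h1 => absurd h1 (by simp), fun h1 => ?_⟩
      have h2 := h1 w (by simp)
      rw [Bool.or_eq_true] at h
      rcases h with h | h
      · exact absurd (Nat.eq_of_beq_eq_true h) h2.1
      · exact absurd (Nat.eq_of_beq_eq_true h) h2.2

theorem dead_iff (a b : ℕ) : ∀ L : List ℕ, dead a b L = true ↔
    ∃ w ∈ L, w &&& a = w ∨ w &&& b = w
  | [] => by simp [dead]
  | w :: L => by
    rw [dead]
    rcases h : (Nat.beq (Nat.land w a) w || Nat.beq (Nat.land w b) w) with _ | _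
    · rw [cond_false, dead_iff a b L]
      simp only [List.mem_cons, exists_eq_or_imp]
      rw [Bool.or_eq_false_iff] at h
      have h1 : w &&& a ≠ w := Nat.ne_of_beq_eq_false h.1
      have h2 : w &&& b ≠ w := Nat.ne_of_beq_eq_false h.2
      exact ⟨fun h3 => Or.inr h3, fun h3 => h3.resolve_left (by tauto)⟩
    · rw [cond_true]
      refine ⟨fun _ => ⟨w, by simp, ?_⟩, fun _ => rfl⟩
      rw [Bool.or_eq_true] at h
      rcases h with h | h
      · exact Or.inl (Nat.eq_of_beq_eq_true h)
      · exact Or.inr (Nat.eq_of_beq_eq_true h)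

end Pool.Agent.Lib.MP_2ce84e_co
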