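import Pool.Agent.Lib.MP_2ce84e_co.Deg.Basic

/-!
# Soundness of the certificates
-/

set_option autoImplicit false

namespace Pool.Agent.Lib.MP_2ce84e_co

/-! ### The checkers -/

/-- Alice has won or the position (Alice to move) is in her table. -/
def okA (L : List ℕ) (T : Tr) (x y : ℕ) : Bool := safe x y L || memc T x y

/-- Bob to move; Alice has an answer in her table to all his moves. -/
def respA (n : ℕ) (L : List ℕ) (T : Tr) (a b : ℕ) : Bool :=
  safe a b L || (anyFree (a ||| b) (fun _ => true) n && allFree (a ||| b) (fun j =>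
    okA L T (a ||| Nat.shiftLeft 1 j) b && okA L T a (b ||| Nat.shiftLeft 1 j)) n)

/-- The check of one node of the table of Alice. -/
def stepA (n : ℕ) (L : List ℕ) (T : Tr) (a b i c : ℕ) : Bool :=
  Nat.blt i n && (!(bt (a ||| b) i) &&
    (bif Nat.beq c 0 then respA n L T (a ||| Nat.shiftLeft 1 i) b
      else respA n L T a (b ||| Nat.shiftLeft 1 i)))

/-- Bob (to move) has won, or wins with one move, or the position is in his table. -/
def okB (n : ℕ) (L : List ℕ) (T : Tr) (x y : ℕ) : Bool :=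
  memc T x y || (dead x y L || anyFree (x ||| y) (fun j =>
    dead (x ||| Nat.shiftLeft 1 j) y L || dead x (y ||| Nat.shiftLeft 1 j) L) n)

/-- Alice to move; Bob has an answer to all her moves. -/
def respB (n : ℕ) (L : List ℕ) (T : Tr) (a b : ℕ) : Bool :=
  dead a b L || (anyFree (a ||| b) (fun _ => true) n && allFree (a ||| b) (fun j =>
    okB n L T (a ||| Nat.shiftLeft 1 j) b && okB n L T a (b ||| Nat.shiftLeft 1 j)) n)

/-- The check of one node of the table of Bob. -/
def stepB (n : ℕ) (L : List ℕ) (T : Tr) (a b i c : ℕ) : Bool :=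
  Nat.blt i n && (!(bt (a ||| b) i) &&
    (bif Nat.beq c 0 then respB n L T (a ||| Nat.shiftLeft 1 i) b
      else respB n L T a (b ||| Nat.shiftLeft 1 i)))

section sound

variable {V : Type} [Finite V] {n : ℕ} (e : V ≃ Fin n) (G : SimpleGraph V) (nbm : V → ℕ)
  (hnb : ∀ x y, (y = x ∨ G.Adj x y) ↔ (nbm x).testBit (e y) = true) (L : List ℕ)

include hnb

omit [Finite V] in
theorem good_of_safe (hlt : ∀ x, nbm x < 2 ^ n) (hL : ∀ x, ∃ w ∈ L, w &&& nbm x = w)
    {p : V → Option (Fin 2)} {a b : ℕ} (h : Rel e p a b) (hs : safe a b L = true) (x : V)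
    (c : Fin 2) : ∃ y, (y = x ∨ G.Adj x y) ∧ p y = some c := by
  obtain ⟨w, hw, hwx⟩ := hL x
  obtain ⟨h1, h2⟩ := (safe_iff a b L).1 hs w hw
  have key : ∀ d : ℕ, w &&& d ≠ 0 → ∃ y, (y = x ∨ G.Adj x y) ∧ d.testBit (e y) = true := by
    intro d hd
    obtain ⟨i, hi⟩ := Nat.exists_testBit_of_ne_zero hd
    rw [Nat.testBit_and, Bool.and_eq_true] at hi
    have h3 : (nbm x).testBit i = true := by
      have h4 := hi.1
      rw [← hwx, Nat.testBit_and, Bool.and_eq_true] at h4
      exact h4.2
    have hin : i < n := by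
      by_contra hcon
      rw [Nat.testBit_lt_two_pow (lt_of_lt_of_le (hlt x)
        (Nat.pow_le_pow_right (by norm_num) (not_lt.1 hcon)))] at h3
      simp at h3
    refine ⟨e.symm ⟨i, hin⟩, ?_, ?_⟩
    · rw [hnb, Equiv.apply_symm_apply]
      exact h3
    · rw [Equiv.apply_symm_apply]
      exact hi.2
  obtain rfl | rfl : c = 0 ∨ c = 1 := by omega
  · obtain ⟨y, hy, hy'⟩ := key a h1
    exact ⟨y, hy, (h y).1.2 hy'⟩
  · obtain ⟨y, hy, hy'⟩ := key b h2
    exact ⟨y, hy, (h y).2.2 hy'⟩

theorem not_win_of_dead (hL : ∀ w ∈ L, ∃ x, nbm x &&& w = nbm x)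
    {p : V → Option (Fin 2)} {a b : ℕ} (h : Rel e p a b) (hs : dead a b L = true) (m : ℕ)
    (t : Bool) (hu : unc p = m) : ¬ Win G 2 m t p := by
  intro hwin
  obtain ⟨w, hw, hab⟩ := (dead_iff a b L).1 hs
  obtain ⟨x, hx⟩ := hL w hw
  have key : ∀ d : ℕ, w &&& d = w → ∀ y, (y = x ∨ G.Adj x y) → d.testBit (e y) = true := by
    intro d hd y hy
    have h3 := (hnb x y).1 hy
    rw [← hx, Nat.testBit_and, Bool.and_eq_true] at h3
    have h4 := h3.2
    rw [← hd, Nat.testBit_and, Bool.and_eq_true] at h4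
    exact h4.2
  rcases hab with hab | hab
  · have h5 : ∀ y, (y = x ∨ G.Adj x y) → p y = some 0 := fun y hy => (h y).1.2 (key a hab y hy)
    obtain ⟨y, hy, hy'⟩ := win_full G m t p hu hwin x (fun y hy => by rw [h5 y hy]; simp) 1
    rw [h5 y hy] at hy'
    simp at hy'
  · have h5 : ∀ y, (y = x ∨ G.Adj x y) → p y = some 1 := fun y hy => (h y).2.2 (key b hab y hy)
    obtain ⟨y, hy, hy'⟩ := win_full G m t p hu hwin x (fun y hy => by rw [h5 y hy]; simp) 0
    rw [h5 y hy] at hy'
    simp at hy'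

omit [Finite V] hnb in
/-- The colours can be exchanged. -/
theorem win_swap_iff (m : ℕ) (t : Bool) (p : V → Option (Fin 2)) :
    Win G 2 m t (fun v => (p v).map (Equiv.swap 0 1)) ↔ Win G 2 m t p := by
  constructor
  · intro h
    have h1 := win_map G (Equiv.swap 0 1) m t _ h
    have h2 : (fun v => ((p v).map (Equiv.swap (0 : Fin 2) 1)).map (Equiv.swap (0 : Fin 2) 1)) =
        p := by
      funext v
      rcases p v with _ | c <;> simp
    rw [h2] at h1
    exact h1
  · exact win_map G (Equiv.swap 0 1) m t p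

omit [Finite V] hnb in
theorem unc_swap (p : V → Option (Fin 2)) :
    unc (fun v => (p v).map (Equiv.swap (0 : Fin 2) 1)) = unc p := by
  unfold unc
  congr 1
  ext v
  rcases hp : p v with _ | c <;> simp [hp]

omit hnb in
theorem unc_pos {p : V → Option (Fin 2)} {v : V} (hv : p v = none) : 0 < unc p := by
  rw [unc, Set.ncard_pos (Set.toFinite _)]
  exact ⟨v, hv⟩

omit [Finite V] hnb in
open Classical in
/-- The position after the colouring of a free vertex. -/
theorem after {p : V → Option (Fin 2)} {a b : ℕ} (h : Rel e p a b) (v : V) (hv : p v = none)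
    (c : Fin 2) (f : ℕ → ℕ → Bool)
    (hf : f (a ||| Nat.shiftLeft 1 (e v)) b = true ∧ f a (b ||| Nat.shiftLeft 1 (e v)) = true) :
    ∃ x y, Rel e (Function.update p v (some c)) x y ∧ f x y = true := by
  obtain rfl | rfl : c = 0 ∨ c = 1 := by omega
  · exact ⟨_, _, rel_move0 e h v hv, hf.1⟩
  · exact ⟨_, _, rel_move1 e h v hv, hf.2⟩

/-! ### Alice -/

theorem alice_ok (hlt : ∀ x, nbm x < 2 ^ n) (hL : ∀ x, ∃ w ∈ L, w &&& nbm x = w) (T : Tr) (m : ℕ)
    (ih : ∀ (p : V → Option (Fin 2)) (a b : ℕ), Rel e p a b → unc p = m → T.mem a b = true →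
      Win G 2 m true p) (p : V → Option (Fin 2)) (a b : ℕ) (h : Rel e p a b) (hu : unc p = m)
    (hok : okA L T a b = true) : Win G 2 m true p := by
  rw [okA, Bool.or_eq_true] at hok
  rcases hok with hok | hok
  · exact win_of_good (by norm_num) G m true p hu (good_of_safe e G nbm hnb L hlt hL h hok)
  · rw [memc] at hok
    rcases hab : Nat.ble a b with _ | _
    · rw [hab, cond_false] at hok
      rw [← win_swap_iff]
      exact ih _ b a (rel_swap e h) (by rw [unc_swap]; exact hu) hok
    · rw [hab, cond_true] at hok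
      exact ih p a b h hu hok

theorem alice_resp (hlt : ∀ x, nbm x < 2 ^ n) (hL : ∀ x, ∃ w ∈ L, w &&& nbm x = w) (T : Tr) (m : ℕ)
    (ih : ∀ m' < m, ∀ (p : V → Option (Fin 2)) (a b : ℕ), Rel e p a b → unc p = m' →
      T.mem a b = true → Win G 2 m' true p) (p : V → Option (Fin 2)) (a b : ℕ) (h : Rel e p a b)
    (hu : unc p = m) (hr : respA n L T a b = true) : Win G 2 m false p := by
  classical
  rw [respA, Bool.or_eq_true] at hr
  rcases hr with hr | hr
  · exact win_of_good (by norm_num) G m false p hu (good_of_safe e G nbm hnb L hlt hL h hr)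
  · rw [Bool.and_eq_true, anyFree_iff, allFree_iff] at hr
    obtain ⟨⟨j, hj, hj', -⟩, hr⟩ := hr
    obtain ⟨m', rfl⟩ : ∃ m', m = m' + 1 := by
      have h1 : p (e.symm ⟨j, hj⟩) = none := by
        rw [rel_free e h, Equiv.apply_symm_apply]
        exact hj'
      have := unc_pos h1
      exact ⟨m - 1, by omega⟩
    intro p' hp'
    obtain ⟨v, c, hv, rfl⟩ := (move_iff p p').1 hp'
    have h2 := hr (e v) (e v).isLt ((rel_free e h v).1 hv)
    rw [Bool.and_eq_true] at h2
    obtain ⟨x, y, hxy, hok⟩ := after e h v hv c (okA L T) h2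
    refine alice_ok e G nbm hnb L hlt hL T m' (ih m' (by omega)) _ x y ?_ ?_ hok
    · convert hxy
    · have := unc_move hp'
      omega

theorem alice_table (hlt : ∀ x, nbm x < 2 ^ n) (hL : ∀ x, ∃ w ∈ L, w &&& nbm x = w) (T : Tr)
    (hT : T.all (stepA n L T) = true) : ∀ (m : ℕ) (p : V → Option (Fin 2)) (a b : ℕ),
      Rel e p a b → unc p = m → T.mem a b = true → Win G 2 m true p := by
  classical
  intro m
  induction m using Nat.strong_induction_on with
  | _ m ih =>
    intro p a b h hu hm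
    obtain ⟨i, c, hic⟩ := Tr.mem_all _ a b T hT hm
    rw [stepA, Bool.and_eq_true, Bool.and_eq_true, Bool.not_eq_true'] at hic
    obtain ⟨h1, h2, h3⟩ := hic
    have hin : i < n := Nat.le_of_ble_eq_true h1
    have hv : p (e.symm ⟨i, hin⟩) = none := by
      rw [rel_free e h, Equiv.apply_symm_apply]
      exact h2
    obtain ⟨m', rfl⟩ : ∃ m', m = m' + 1 := by
      have := unc_pos hv
      exact ⟨m - 1, by omega⟩
    have h4 : ∃ (c' : Fin 2) (x y : ℕ),
        Rel e (Function.update p (e.symm ⟨i, hin⟩) (some c')) x y ∧ respA n L T x y = true := by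
      rcases hc : Nat.beq c 0 with _ | _
      · rw [hc, cond_false] at h3
        refine ⟨1, _, _, rel_move1 e h _ hv, ?_⟩
        rw [Equiv.apply_symm_apply]
        exact h3
      · rw [hc, cond_true] at h3
        refine ⟨0, _, _, rel_move0 e h _ hv, ?_⟩
        rw [Equiv.apply_symm_apply]
        exact h3
    obtain ⟨c', x, y, hxy, hr⟩ := h4
    have hmv := move_update p (e.symm ⟨i, hin⟩) hv c'
    refine ⟨_, hmv, alice_resp e G nbm hnb L hlt hL T m' (fun m'' hm'' => ih m'' (by omega)) _ x y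
      hxy ?_ hr⟩
    have := unc_move hmv
    omega

theorem alice_first (hlt : ∀ x, nbm x < 2 ^ n) (hL : ∀ x, ∃ w ∈ L, w &&& nbm x = w) (T : Tr)
    (hT : T.all (stepA n L T) = true) (h0 : T.mem 0 0 = true) :
    Win G 2 (Nat.card V) true fun _ => none :=
  alice_table e G nbm hnb L hlt hL T hT _ _ 0 0 (rel_none e) unc_start h0

theorem alice_second (hlt : ∀ x, nbm x < 2 ^ n) (hL : ∀ x, ∃ w ∈ L, w &&& nbm x = w) (T : Tr)
    (hT : T.all (stepA n L T) = true) (h0 : respA n L T 0 0 = true) :
    Win G 2 (Nat.card V) false fun _ => none :=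
  alice_resp e G nbm hnb L hlt hL T _
    (fun m _ => alice_table e G nbm hnb L hlt hL T hT m) _ 0 0 (rel_none e) unc_start h0

/-! ### Bob -/

theorem bob_ok (hL : ∀ w ∈ L, ∃ x, nbm x &&& w = nbm x) (T : Tr) (m : ℕ)
    (ih : ∀ (p : V → Option (Fin 2)) (a b : ℕ), Rel e p a b → unc p = m → T.mem a b = true →
      ¬ Win G 2 m false p) (p : V → Option (Fin 2)) (a b : ℕ) (h : Rel e p a b) (hu : unc p = m)
    (hok : okB n L T a b = true) : ¬ Win G 2 m false p := by
  classical
  rw [okB, Bool.or_eq_true, Bool.or_eq_true] at hok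
  rcases hok with hok | hok | hok
  · rw [memc] at hok
    rcases hab : Nat.ble a b with _ | _
    · rw [hab, cond_false] at hok
      rw [← win_swap_iff]
      exact ih _ b a (rel_swap e h) (by rw [unc_swap]; exact hu) hok
    · rw [hab, cond_true] at hok
      exact ih p a b h hu hok
  · exact not_win_of_dead e G nbm hnb L hL h hok m false hu
  · rw [anyFree_iff] at hok
    obtain ⟨j, hj, hj', hd⟩ := hok
    rw [Bool.or_eq_true] at hd
    have hv : p (e.symm ⟨j, hj⟩) = none := by
      rw [rel_free e h, Equiv.apply_symm_apply]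
      exact hj'
    obtain ⟨m', rfl⟩ : ∃ m', m = m' + 1 := by
      have := unc_pos hv
      exact ⟨m - 1, by omega⟩
    intro hw
    rcases hd with hd | hd
    · have hmv := move_update p (e.symm ⟨j, hj⟩) hv 0
      have hr := rel_move0 e h _ hv
      rw [Equiv.apply_symm_apply] at hr
      exact not_win_of_dead e G nbm hnb L hL hr hd m' true
        (by have := unc_move hmv; omega) (hw _ hmv)
    · have hmv := move_update p (e.symm ⟨j, hj⟩) hv 1
      have hr := rel_move1 e h _ hv
      rw [Equiv.apply_symm_apply] at hr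
      exact not_win_of_dead e G nbm hnb L hL hr hd m' true
        (by have := unc_move hmv; omega) (hw _ hmv)

theorem bob_resp (hL : ∀ w ∈ L, ∃ x, nbm x &&& w = nbm x) (T : Tr) (m : ℕ)
    (ih : ∀ m' < m, ∀ (p : V → Option (Fin 2)) (a b : ℕ), Rel e p a b → unc p = m' →
      T.mem a b = true → ¬ Win G 2 m' false p) (p : V → Option (Fin 2)) (a b : ℕ)
    (h : Rel e p a b) (hu : unc p = m) (hr : respB n L T a b = true) : ¬ Win G 2 m true p := by
  classical
  rw [respB, Bool.or_eq_true] at hr
  rcases hr with hr | hr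
  · exact not_win_of_dead e G nbm hnb L hL h hr m true hu
  · rw [Bool.and_eq_true, anyFree_iff, allFree_iff] at hr
    obtain ⟨⟨j, hj, hj', -⟩, hr⟩ := hr
    obtain ⟨m', rfl⟩ : ∃ m', m = m' + 1 := by
      have h1 : p (e.symm ⟨j, hj⟩) = none := by
        rw [rel_free e h, Equiv.apply_symm_apply]
        exact hj'
      have := unc_pos h1
      exact ⟨m - 1, by omega⟩
    rintro ⟨p', hp', hw⟩
    obtain ⟨v, c, hv, rfl⟩ := (move_iff p p').1 hp'
    have h2 := hr (e v) (e v).isLt ((rel_free e h v).1 hv)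
    rw [Bool.and_eq_true] at h2
    obtain ⟨x, y, hxy, hok⟩ := after e h v hv c (okB n L T) h2
    refine bob_ok e G nbm hnb L hL T m' (ih m' (by omega)) _ x y ?_ ?_ hok hw
    · convert hxy
    · have := unc_move hp'
      omega

theorem bob_table (hL : ∀ w ∈ L, ∃ x, nbm x &&& w = nbm x) (T : Tr)
    (hT : T.all (stepB n L T) = true) : ∀ (m : ℕ) (p : V → Option (Fin 2)) (a b : ℕ),
      Rel e p a b → unc p = m → T.mem a b = true → ¬ Win G 2 m false p := by
  classical
  intro m
  induction m using Nat.strong_induction_on with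
  | _ m ih =>
    intro p a b h hu hm
    obtain ⟨i, c, hic⟩ := Tr.mem_all _ a b T hT hm
    rw [stepB, Bool.and_eq_true, Bool.and_eq_true, Bool.not_eq_true'] at hic
    obtain ⟨h1, h2, h3⟩ := hic
    have hin : i < n := Nat.le_of_ble_eq_true h1
    have hv : p (e.symm ⟨i, hin⟩) = none := by
      rw [rel_free e h, Equiv.apply_symm_apply]
      exact h2
    obtain ⟨m', rfl⟩ : ∃ m', m = m' + 1 := by
      have := unc_pos hv
      exact ⟨m - 1, by omega⟩
    have h4 : ∃ (c' : Fin 2) (x y : ℕ),
        Rel e (Function.update p (e.symm ⟨i, hin⟩) (some c')) x y ∧ respB n L T x y = true := by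
      rcases hc : Nat.beq c 0 with _ | _
      · rw [hc, cond_false] at h3
        refine ⟨1, _, _, rel_move1 e h _ hv, ?_⟩
        rw [Equiv.apply_symm_apply]
        exact h3
      · rw [hc, cond_true] at h3
        refine ⟨0, _, _, rel_move0 e h _ hv, ?_⟩
        rw [Equiv.apply_symm_apply]
        exact h3
    obtain ⟨c', x, y, hxy, hr⟩ := h4
    have hmv := move_update p (e.symm ⟨i, hin⟩) hv c'
    intro hw
    refine bob_resp e G nbm hnb L hL T m' (fun m'' hm'' => ih m'' (by omega)) _ x y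
      hxy ?_ hr (hw _ hmv)
    have := unc_move hmv
    omega

theorem bob_first (hL : ∀ w ∈ L, ∃ x, nbm x &&& w = nbm x) (T : Tr)
    (hT : T.all (stepB n L T) = true) (h0 : T.mem 0 0 = true) :
    ¬ Win G 2 (Nat.card V) false fun _ => none :=
  bob_table e G nbm hnb L hL T hT _ _ 0 0 (rel_none e) unc_start h0

theorem bob_second (hL : ∀ w ∈ L, ∃ x, nbm x &&& w = nbm x) (T : Tr)
    (hT : T.all (stepB n L T) = true) (h0 : respB n L T 0 0 = true) :
    ¬ Win G 2 (Nat.card V) true fun _ => none :=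
  bob_resp e G nbm hnb L hL T _
    (fun m _ => bob_table e G nbm hnb L hL T hT m) _ 0 0 (rel_none e) unc_start h0

end sound

end Pool.Agent.Lib.MP_2ce84e_co
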