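import Mathlib

/-!
# The multiset of the degrees
-/

set_option autoImplicit false

namespace Pool.Agent.Lib.MP_2ce84e_co

/-- The multiset of the degrees (numbers of neighbours) of the vertices. -/
noncomputable def degreeMultiset {V : Type} [Fintype V] (G : SimpleGraph V) : Multiset ℕ :=
  Finset.univ.val.map fun v => (G.neighborSet v).ncard

end Pool.Agent.Lib.MP_2ce84e_co
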