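import Pool.Agent.Lib.MP_2ce84e_co.Deg.Cert

/-!
# The table for the union of `S₁` and a triangle
-/

set_option autoImplicit false
set_option maxRecDepth 20000

namespace Pool.Agent.Lib.MP_2ce84e_co

/-- The minimal closed neighbourhoods (bit masks). -/
def lGKB : List ℕ := [15, 44, 82, 101, 105, 896, 7168]

/-- Bob, who begins, wins on the union of `S₁` and a triangle. -/
def tGKB : Tr :=
  (.node (.node (.node (.node (.node (.node (.node (.node (.node .leaf 0 0 6 1 .leaf) 0 65 5 1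
  .leaf) 0 68 5 1 (.node (.node .leaf 0 72 5 1 .leaf) 0 96 2 1 .leaf)) 0 192 8 1 (.node (.node
  (.node .leaf 0 320 7 1 .leaf) 0 576 7 1 .leaf) 0 1088 4 1 (.node .leaf 0 2112 12 1 .leaf))) 0
  4160 11 1 (.node (.node (.node (.node .leaf 1 64 4 1 .leaf) 2 64 5 1 .leaf) 2 112 0 1 (.node
  (.node .leaf 2 224 0 1 .leaf) 2 352 2 1 .leaf)) 2 608 2 1 (.node (.node (.node .leaf 2 1104 12
  1 .leaf) 2 1120 2 1 .leaf) 2 2144 3 1 (.node .leaf 2 4192 0 1 .leaf)))) 3 80 5 1 (.node (.node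
  (.node (.node (.node .leaf 3 96 4 0 .leaf) 3 240 9 1 .leaf) 3 368 7 1 (.node (.node .leaf 3
  624 7 1 .leaf) 3 1136 12 1 .leaf)) 3 2160 12 1 (.node (.node (.node .leaf 3 4208 11 1 .leaf) 4
  64 3 0 .leaf) 6 96 4 0 (.node .leaf 8 64 2 0 .leaf))) 10 96 4 0 (.node (.node (.node (.node
  .leaf 12 96 0 0 .leaf) 16 64 5 1 .leaf) 16 98 2 1 (.node (.node .leaf 16 224 2 1 .leaf) 16 352
  3 1 .leaf)) 16 608 0 1 (.node (.node (.node .leaf 16 1120 2 1 .leaf) 16 2144 0 1 .leaf) 16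
  4192 2 1 (.node .leaf 17 96 1 0 .leaf))))) 18 96 2 1 (.node (.node (.node (.node (.node (.node
  .leaf 19 224 9 1 .leaf) 19 352 9 1 .leaf) 19 608 8 1 (.node (.node .leaf 19 1120 12 1 .leaf)
  19 2144 12 1 .leaf)) 19 4192 10 1 (.node (.node (.node .leaf 20 96 1 0 .leaf) 22 224 8 1
  .leaf) 22 352 9 1 (.node .leaf 22 608 8 1 .leaf))) 22 1120 11 1 (.node (.node (.node (.node
  .leaf 22 2144 10 1 .leaf) 22 4192 11 1 .leaf) 24 96 1 0 (.node (.node .leaf 26 224 8 1 .leaf)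
  26 352 7 1 .leaf)) 26 608 7 1 (.node (.node (.node .leaf 26 1120 11 1 .leaf) 26 2144 12 1
  .leaf) 26 4192 11 1 (.node .leaf 32 64 1 1 .leaf)))) 48 66 0 1 (.node (.node (.node (.node
  (.node .leaf 48 195 9 1 .leaf) 48 323 7 1 .leaf) 48 579 7 1 (.node (.node .leaf 48 1091 11 1
  .leaf) 48 2115 10 1 .leaf)) 48 4163 10 1 (.node (.node (.node .leaf 64 128 9 1 .leaf) 64 256 4
  0 .leaf) 64 512 7 1 (.node .leaf 64 1024 4 0 .leaf))) 64 2048 12 1 (.node (.node (.node (.node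
  .leaf 64 4096 11 1 .leaf) 67 176 9 1 .leaf) 67 304 9 1 (.node (.node .leaf 67 560 7 1 .leaf)
  67 1072 11 1 .leaf)) 67 2096 10 1 (.node (.node (.node .leaf 67 4144 11 1 .leaf) 80 258 7 1
  .leaf) 80 1026 11 1 (.node .leaf 96 130 0 0 .leaf)))))) 96 144 2 0 (.node (.node (.node (.node
  (.node (.node (.node .leaf 96 147 9 1 .leaf) 96 150 9 1 .leaf) 96 154 8 1 (.node (.node .leaf
  96 258 0 0 .leaf) 96 272 0 0 .leaf)) 96 275 7 1 (.node (.node (.node .leaf 96 278 9 1 .leaf)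
  96 282 9 1 .leaf) 96 514 3 0 (.node .leaf 96 528 2 0 .leaf))) 96 531 7 1 (.node (.node (.node
  (.node .leaf 96 534 8 1 .leaf) 96 538 8 1 .leaf) 96 1026 0 0 (.node (.node .leaf 96 1040 2 0
  .leaf) 96 1043 11 1 .leaf)) 96 1046 12 1 (.node (.node (.node .leaf 96 1050 12 1 .leaf) 96
  2050 3 0 .leaf) 96 2064 3 0 (.node .leaf 96 2067 10 1 .leaf)))) 96 2070 10 1 (.node (.node
  (.node (.node (.node .leaf 96 2074 10 1 .leaf) 96 4098 0 0 .leaf) 96 4112 0 0 (.node (.node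
  .leaf 96 4115 11 1 .leaf) 96 4118 10 1 .leaf)) 96 4122 10 1 (.node (.node (.node .leaf 112 131
  8 1 .leaf) 112 259 7 1 .leaf) 112 515 7 1 (.node .leaf 112 1027 11 1 .leaf))) 112 2051 10 1
  (.node (.node (.node (.node .leaf 112 4099 10 1 .leaf) 147 864 11 0 .leaf) 150 864 10 0 (.node
  (.node .leaf 195 816 11 1 .leaf) 224 790 11 1 .leaf)) 224 794 12 1 (.node (.node (.node .leaf
  256 704 1 1 .leaf) 259 752 10 1 .leaf) 272 706 0 1 (.node .leaf 272 1731 2 1 .leaf))))) 272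
  2755 3 1 (.node (.node (.node (.node (.node (.node .leaf 272 4803 5 1 .leaf) 275 736 12 0
  .leaf) 276 707 12 1 (.node (.node .leaf 280 707 12 1 .leaf) 282 736 11 1 .leaf)) 304 707 12 0
  (.node (.node (.node .leaf 320 640 1 0 .leaf) 322 656 0 0 .leaf) 323 660 11 1 (.node .leaf 323
  664 11 0 .leaf))) 323 688 12 0 (.node (.node (.node (.node .leaf 323 1680 3 0 .leaf) 323 2704
  2 0 .leaf) 323 4752 2 0 (.node (.node .leaf 352 659 10 0 .leaf) 352 662 10 0 .leaf)) 368 643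
  10 0 (.node (.node (.node .leaf 386 592 5 1 .leaf) 386 1648 2 1 .leaf) 386 2672 2 1 (.node
  .leaf 386 4720 3 1 .leaf)))) 387 624 10 0 (.node (.node (.node (.node (.node .leaf 390 624 12
  0 .leaf) 394 624 10 1 .leaf) 403 608 11 1 (.node (.node .leaf 410 608 12 1 .leaf) 448 512 1 0
  .leaf)) 450 528 0 0 (.node (.node (.node .leaf 451 532 12 1 .leaf) 451 536 12 1 .leaf) 451 560
  10 0 (.node .leaf 451 1552 5 0 .leaf))) 451 2576 3 0 (.node (.node (.node (.node .leaf 451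
  4624 3 0 .leaf) 480 534 12 1 .leaf) 480 538 10 1 (.node (.node .leaf 496 515 11 0 .leaf) 528
  1475 5 1 .leaf)) 528 2499 3 1 (.node (.node (.node .leaf 528 4547 5 1 .leaf) 624 1410 3 0
  .leaf) 624 2434 3 0 (.node .leaf 624 4482 2 0 .leaf))))))) 656 1347 3 1 (.node (.node (.node
  (.node (.node (.node (.node (.node .leaf 656 2371 3 1 .leaf) 656 4419 2 1 .leaf) 707 1296 3 0
  (.node (.node .leaf 707 2320 5 0 .leaf) 707 4368 2 0 .leaf)) 1024 6208 4 1 (.node (.node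
  (.node .leaf 1026 6224 5 1 .leaf) 1026 6384 3 1 .leaf) 1026 6512 3 1 (.node .leaf 1026 6768 0
  1 .leaf))) 1027 6256 7 0 (.node (.node (.node (.node .leaf 1030 6256 7 0 .leaf) 1034 6256 8 1
  .leaf) 1043 6240 7 1 (.node (.node .leaf 1046 6240 7 0 .leaf) 1050 6240 7 1 .leaf)) 1088 6144
  1 0 (.node (.node (.node .leaf 1090 6160 0 0 .leaf) 1091 6164 8 0 .leaf) 1091 6168 8 1 (.node
  .leaf 1091 6192 8 0 .leaf)))) 1091 6288 2 0 (.node (.node (.node (.node (.node .leaf 1091 6416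
  5 0 .leaf) 1091 6672 3 0 .leaf) 1120 6163 9 0 (.node (.node .leaf 1154 6256 3 1 .leaf) 1155
  6512 9 1 .leaf)) 1155 6768 8 1 (.node (.node (.node .leaf 1158 6512 9 0 .leaf) 1158 6768 8 1
  .leaf) 1162 6512 9 1 (.node .leaf 1174 2912 12 1 .leaf))) 1174 4960 11 1 (.node (.node (.node
  (.node .leaf 1174 6496 9 0 .leaf) 1174 6752 8 0 .leaf) 1219 2864 12 0 (.node (.node .leaf 1219
  6160 2 0 .leaf) 1219 6424 9 0 .leaf)) 1248 2838 12 0 (.node (.node (.node .leaf 1248 4890 11 1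
  .leaf) 1282 6256 0 1 .leaf) 1299 6368 9 1 (.node .leaf 1300 4803 11 0 .leaf))))) 1304 4803 11
  0 (.node (.node (.node (.node (.node (.node .leaf 1306 2784 12 1 .leaf) 1306 6368 9 0 .leaf)
  1347 2708 12 0 (.node (.node .leaf 1347 6160 3 0 .leaf) 1347 6292 9 1 .leaf)) 1347 6320 9 1
  (.node (.node (.node .leaf 1347 6676 7 1 .leaf) 1347 6704 7 0 .leaf) 1376 2707 12 0 (.node
  .leaf 1376 2710 12 0 .leaf))) 1376 4755 11 0 (.node (.node (.node (.node .leaf 1376 4758 11 1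
  .leaf) 1392 2691 12 0 .leaf) 1392 4739 11 1 (.node (.node .leaf 1411 2672 12 0 .leaf) 1411
  4720 11 0 .leaf)) 1427 2656 12 0 (.node (.node (.node .leaf 1434 4704 11 0 .leaf) 1475 2608 12
  0 .leaf) 1475 4628 11 0 (.node .leaf 1475 4632 11 1 .leaf)))) 1475 4656 11 0 (.node (.node
  (.node (.node (.node .leaf 1504 4630 11 1 .leaf) 1538 6256 2 1 .leaf) 1539 2544 12 1 (.node
  (.node .leaf 1546 6512 7 0 .leaf) 1555 6368 8 1 .leaf)) 1562 2528 12 0 (.node (.node (.node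
  .leaf 1562 4576 11 1 .leaf) 1562 6368 8 0 .leaf) 1603 6160 2 0 (.node .leaf 1603 6424 7 1
  .leaf))) 1632 6291 8 1 (.node (.node (.node (.node .leaf 1632 6419 7 1 .leaf) 1648 2442 12 1
  .leaf) 1648 4486 11 0 (.node (.node .leaf 1648 4490 11 0 .leaf) 1688 2371 12 0 .leaf)) 1712
  4419 11 1 (.node (.node (.node .leaf 1731 4400 11 1 .leaf) 1760 4371 11 0 .leaf) 1776 2307 12
  0 (.node .leaf 1776 4355 11 0 .leaf)))))) 1888 2195 12 0 (.node (.node (.node (.node (.node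
  (.node (.node .leaf 2050 5200 5 1 .leaf) 2050 5360 3 1 .leaf) 2050 5488 3 1 (.node (.node
  .leaf 2050 5744 0 1 .leaf) 2051 5232 8 1 .leaf)) 2054 5232 8 0 (.node (.node (.node .leaf 2058
  5232 9 1 .leaf) 2067 5216 7 0 .leaf) 2096 5187 8 0 (.node .leaf 2144 5142 9 0 .leaf))) 2144
  5146 8 0 (.node (.node (.node (.node .leaf 2160 5123 8 1 .leaf) 2178 5232 0 1 .leaf) 2179 5488
  9 0 (.node (.node .leaf 2186 5744 8 0 .leaf) 2195 4960 10 1 .leaf)) 2195 5472 9 0 (.node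
  (.node (.node .leaf 2195 5728 8 1 .leaf) 2272 4890 10 0 .leaf) 2288 5379 9 1 (.node .leaf 2306
  5232 0 1 .leaf)))) 2310 5360 9 0 (.node (.node (.node (.node (.node .leaf 2310 5744 7 1 .leaf)
  2314 5744 7 1 .leaf) 2324 4803 10 0 (.node (.node .leaf 2328 4803 10 1 .leaf) 2352 5315 9 1
  .leaf)) 2352 5699 7 1 (.node (.node (.node .leaf 2371 4760 10 0 .leaf) 2400 5274 9 0 .leaf)
  2400 5658 7 0 (.node .leaf 2458 4704 10 1 .leaf))) 2499 4628 10 0 (.node (.node (.node (.node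
  .leaf 2499 4632 10 1 .leaf) 2528 4630 10 1 .leaf) 2544 4611 10 1 (.node (.node .leaf 2562 5232
  3 1 .leaf) 2563 5488 7 0 .leaf)) 2656 4499 10 0 (.node (.node (.node .leaf 2656 5270 8 0
  .leaf) 2656 5398 7 1 .leaf) 2672 4486 10 0 (.node .leaf 2672 5379 7 0 .leaf))))) 2708 4419 10
  1 (.node (.node (.node (.node (.node (.node .leaf 2736 4419 10 1 .leaf) 2755 4400 10 0 .leaf)
  2784 4371 10 1 (.node (.node .leaf 2784 4378 10 1 .leaf) 2838 4320 10 1 .leaf)) 2864 4291 10 1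
  (.node (.node (.node .leaf 3074 4176 5 1 .leaf) 3074 4336 2 1 .leaf) 3074 4464 0 1 (.node
  .leaf 3074 4720 2 1 .leaf))) 3075 4208 7 1 (.node (.node (.node (.node .leaf 3078 4208 7 0
  .leaf) 3082 4208 8 1 .leaf) 3091 4192 8 0 (.node (.node .leaf 3094 4192 8 1 .leaf) 3098 4192 9
  1 .leaf)) 3120 4163 7 0 (.node (.node (.node .leaf 3139 4144 9 0 .leaf) 3168 4118 8 1 .leaf)
  3168 4122 9 1 (.node .leaf 3202 4208 3 1 .leaf)))) 3206 4464 9 1 (.node (.node (.node (.node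
  (.node .leaf 3206 4720 8 0 .leaf) 3210 4464 9 1 .leaf) 3222 4448 9 1 (.node (.node .leaf 3226
  4704 8 1 .leaf) 3248 4419 9 0 .leaf)) 3248 4675 8 1 (.node (.node (.node .leaf 3296 4374 9 0
  .leaf) 3296 4634 8 0 .leaf) 3330 4208 2 1 (.node .leaf 3331 4336 9 1 .leaf))) 3347 4320 9 1
  (.node (.node (.node (.node .leaf 3347 4704 7 0 .leaf) 3354 4704 7 1 .leaf) 3424 4634 7 1
  (.node (.node .leaf 3586 4208 0 1 .leaf) 3587 4336 8 1 .leaf)) 3594 4464 7 0 (.node (.node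
  (.node .leaf 3606 4448 7 0 .leaf) 3651 4272 8 1 .leaf) 3651 4400 7 1 (.node .leaf 3680 4374 7
  0 .leaf))))))))

theorem tGKB_all : tGKB.all (stepB 13 lGKB tGKB) = true := by decide +kernel

theorem tGKB_0 : tGKB.mem 0 0 = true := by decide +kernel

end Pool.Agent.Lib.MP_2ce84e_co
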