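import Pool.Agent.Lib.MP_2ce84e_co.Deg.Cert

/-!
# The table for the union of `S` and a triangle, Alice begins
-/

set_option autoImplicit false
set_option maxRecDepth 20000

namespace Pool.Agent.Lib.MP_2ce84e_co

/-- The minimal closed neighbourhoods (bit masks). -/
def lSKA : List ℕ := [15, 44, 82, 101, 105, 896]

/-- Alice, who begins, wins on the union of `S` and a triangle. -/
def tSKA : Tr :=
  (.node (.node (.node (.node (.node (.node (.node (.node (.node (.node (.node .leaf 0 0 2 0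
  .leaf) 0 5 3 0 .leaf) 0 6 3 0 (.node .leaf 0 12 5 0 .leaf)) 0 20 3 0 (.node (.node (.node
  .leaf 0 36 3 0 .leaf) 0 68 3 0 .leaf) 0 132 3 0 (.node .leaf 0 260 3 0 .leaf))) 0 516 3 0
  (.node (.node (.node (.node .leaf 1 4 3 0 .leaf) 2 4 3 0 .leaf) 4 8 9 1 (.node .leaf 4 11 5 0
  .leaf)) 4 16 3 1 (.node (.node .leaf 4 25 5 0 .leaf) 4 26 6 0 (.node .leaf 4 32 3 1 .leaf))))
  4 41 6 0 (.node (.node (.node (.node (.node .leaf 4 42 6 0 .leaf) 4 56 6 0 .leaf) 4 64 3 1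
  (.node .leaf 4 73 5 0 .leaf)) 4 74 4 0 (.node (.node .leaf 4 88 1 0 .leaf) 4 104 0 0 (.node
  .leaf 4 128 3 1 .leaf))) 4 137 5 0 (.node (.node (.node (.node .leaf 4 138 4 0 .leaf) 4 152 1
  0 .leaf) 4 168 6 0 (.node .leaf 4 200 5 0 .leaf)) 4 256 3 1 (.node (.node .leaf 4 265 5 0
  .leaf) 4 266 4 0 (.node .leaf 4 280 1 0 .leaf))))) 4 296 6 0 (.node (.node (.node (.node
  (.node (.node .leaf 4 328 0 0 .leaf) 4 392 9 0 .leaf) 4 512 3 1 (.node .leaf 4 521 5 0 .leaf))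
  4 522 4 0 (.node (.node .leaf 4 536 1 0 .leaf) 4 552 6 0 (.node .leaf 4 584 0 0 .leaf))) 4 648
  8 0 (.node (.node (.node (.node .leaf 4 776 7 0 .leaf) 5 10 4 0 .leaf) 5 24 1 0 (.node .leaf 5
  40 6 0 .leaf)) 5 72 7 1 (.node (.node .leaf 5 106 4 0 .leaf) 5 120 1 0 (.node .leaf 5 136 6 1
  .leaf)))) 5 202 4 0 (.node (.node (.node (.node (.node .leaf 5 216 1 0 .leaf) 5 232 4 0 .leaf)
  5 264 6 1 (.node .leaf 5 330 4 0 .leaf)) 5 344 1 0 (.node (.node .leaf 5 360 4 0 .leaf) 5 456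
  9 0 (.node .leaf 5 520 6 1 .leaf))) 5 586 4 0 (.node (.node (.node (.node .leaf 5 600 1 0
  .leaf) 5 616 4 0 .leaf) 5 712 8 0 (.node .leaf 5 840 7 0 .leaf)) 6 9 5 0 (.node (.node .leaf 6
  24 0 0 .leaf) 6 40 4 1 (.node .leaf 6 57 6 0 .leaf)))))) 6 72 4 1 (.node (.node (.node (.node
  (.node (.node (.node .leaf 6 89 5 0 .leaf) 6 120 0 0 .leaf) 6 136 4 1 (.node .leaf 6 153 6 0
  .leaf)) 6 184 6 0 (.node (.node .leaf 6 216 5 0 .leaf) 6 264 4 1 (.node .leaf 6 281 7 0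
  .leaf))) 6 312 7 0 (.node (.node (.node (.node .leaf 6 344 0 0 .leaf) 6 408 9 0 .leaf) 6 520 4
  1 (.node .leaf 6 537 6 0 .leaf)) 6 568 6 0 (.node (.node .leaf 6 600 0 0 .leaf) 6 664 8 0
  (.node .leaf 6 792 7 0 .leaf)))) 7 8 4 1 (.node (.node (.node (.node (.node .leaf 7 56 6 1
  .leaf) 7 88 9 0 .leaf) 7 104 9 0 (.node .leaf 7 152 6 1 .leaf)) 7 200 8 0 (.node (.node .leaf
  7 248 9 0 .leaf) 7 280 6 1 (.node .leaf 7 328 7 0 .leaf))) 7 376 7 0 (.node (.node (.node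
  (.node .leaf 7 472 9 0 .leaf) 7 536 6 1 .leaf) 7 584 8 0 (.node .leaf 7 632 8 0 .leaf)) 7 728
  8 0 (.node (.node .leaf 7 856 7 0 .leaf) 8 21 1 0 (.node .leaf 8 22 6 0 .leaf))))) 8 37 6 0
  (.node (.node (.node (.node (.node (.node .leaf 8 38 0 0 .leaf) 8 52 0 0 .leaf) 8 69 5 0
  (.node .leaf 8 70 4 0 .leaf)) 8 84 1 0 (.node (.node .leaf 8 100 0 0 .leaf) 8 133 6 0 (.node
  .leaf 8 134 4 0 .leaf))) 8 148 1 0 (.node (.node (.node (.node .leaf 8 164 0 0 .leaf) 8 196 5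
  0 .leaf) 8 261 6 0 (.node .leaf 8 262 4 0 .leaf)) 8 276 1 0 (.node (.node .leaf 8 292 0 0
  .leaf) 8 324 5 0 (.node .leaf 8 388 9 0 .leaf)))) 8 517 6 0 (.node (.node (.node (.node (.node
  .leaf 8 518 4 0 .leaf) 8 532 1 0 .leaf) 8 548 0 0 (.node .leaf 8 580 5 0 .leaf)) 8 644 8 0
  (.node (.node .leaf 8 772 7 0 .leaf) 9 20 5 1 (.node .leaf 9 36 9 0 .leaf))) 9 54 6 0 (.node
  (.node (.node (.node .leaf 9 68 5 1 .leaf) 9 102 4 0 .leaf) 9 116 1 0 (.node .leaf 9 132 5 1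
  .leaf)) 9 166 4 0 (.node (.node .leaf 9 180 1 0 .leaf) 9 228 4 0 (.node .leaf 9 260 5 1
  .leaf))))))) 9 294 4 0 (.node (.node (.node (.node (.node (.node (.node (.node .leaf 9 308 6 0
  .leaf) 9 356 9 0 .leaf) 9 420 9 0 (.node .leaf 9 516 5 1 .leaf)) 9 550 7 0 (.node (.node .leaf
  9 564 8 0 .leaf) 9 612 4 0 (.node .leaf 9 676 8 0 .leaf))) 9 804 7 0 (.node (.node (.node
  (.node .leaf 10 20 9 0 .leaf) 10 36 0 0 .leaf) 10 53 6 0 (.node .leaf 10 68 5 0 .leaf)) 10 85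
  5 0 (.node (.node .leaf 10 116 0 0 .leaf) 10 132 4 1 (.node .leaf 10 149 9 0 .leaf)))) 10 180
  9 0 (.node (.node (.node (.node (.node .leaf 10 212 5 0 .leaf) 10 260 4 1 .leaf) 10 277 6 0
  (.node .leaf 10 308 7 0 .leaf)) 10 340 5 0 (.node (.node .leaf 10 404 9 0 .leaf) 10 516 4 1
  (.node .leaf 10 533 6 0 .leaf))) 10 564 0 0 (.node (.node (.node (.node .leaf 10 596 5 0
  .leaf) 10 660 8 0 .leaf) 10 788 7 0 (.node .leaf 11 52 9 1 .leaf)) 11 84 5 1 (.node (.node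
  .leaf 11 100 8 0 .leaf) 11 148 9 0 (.node .leaf 11 164 9 0 .leaf))))) 11 244 9 0 (.node (.node
  (.node (.node (.node (.node .leaf 11 276 7 0 .leaf) 11 292 4 1 .leaf) 11 372 9 0 (.node .leaf
  11 436 9 0 .leaf)) 11 532 5 1 (.node (.node .leaf 11 548 4 1 .leaf) 11 628 8 0 (.node .leaf 11
  692 8 0 .leaf))) 11 820 7 0 (.node (.node (.node (.node .leaf 12 33 1 0 .leaf) 12 34 0 1
  .leaf) 12 48 0 1 (.node .leaf 12 51 6 0 .leaf)) 12 96 0 1 (.node (.node .leaf 12 99 4 0 .leaf)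
  12 113 1 0 (.node .leaf 12 160 0 1 .leaf)))) 12 163 8 0 (.node (.node (.node (.node (.node
  .leaf 12 177 1 0 .leaf) 12 225 4 0 .leaf) 12 288 0 1 (.node .leaf 12 291 9 0 .leaf)) 12 305 9
  0 (.node (.node .leaf 12 353 9 0 .leaf) 12 417 9 0 (.node .leaf 12 544 0 1 .leaf))) 12 547 7 0
  (.node (.node (.node (.node .leaf 12 561 7 0 .leaf) 12 609 7 0 .leaf) 12 673 8 0 (.node .leaf
  12 801 7 0 .leaf)) 13 32 1 1 (.node (.node .leaf 13 50 6 0 .leaf) 13 98 4 0 (.node .leaf 13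
  162 6 0 .leaf)))))) 13 290 6 0 (.node (.node (.node (.node (.node (.node (.node .leaf 13 546 6
  0 .leaf) 14 32 0 1 .leaf) 14 49 6 0 (.node .leaf 14 97 4 1 .leaf)) 14 161 8 0 (.node (.node
  .leaf 14 241 8 0 .leaf) 14 289 4 1 (.node .leaf 14 369 7 0 .leaf))) 14 433 9 0 (.node (.node
  (.node (.node .leaf 14 545 4 1 .leaf) 14 625 8 0 .leaf) 14 689 8 0 (.node .leaf 14 817 7 0
  .leaf)) 20 40 1 1 (.node (.node .leaf 20 43 6 0 .leaf) 20 72 7 0 (.node .leaf 20 75 5 0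
  .leaf)))) 20 106 0 0 (.node (.node (.node (.node (.node .leaf 20 136 1 1 .leaf) 20 139 8 0
  .leaf) 20 170 8 0 (.node .leaf 20 202 8 0 .leaf)) 20 264 1 1 (.node (.node .leaf 20 267 9 0
  .leaf) 20 298 6 0 (.node .leaf 20 330 5 0 .leaf))) 20 394 9 0 (.node (.node (.node (.node
  .leaf 20 520 1 1 .leaf) 20 523 7 0 .leaf) 20 554 6 0 (.node .leaf 20 586 7 0 .leaf)) 20 650 8
  0 (.node (.node .leaf 20 778 7 0 .leaf) 21 42 8 1 (.node .leaf 21 74 9 0 .leaf))))) 21 104 1 0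
  (.node (.node (.node (.node (.node (.node .leaf 21 138 6 1 .leaf) 21 200 8 0 .leaf) 21 234 9 0
  (.node .leaf 21 266 5 1 .leaf)) 21 328 9 0 (.node (.node .leaf 21 362 9 0 .leaf) 21 426 9 0
  (.node .leaf 21 458 9 0 .leaf))) 21 488 9 0 (.node (.node (.node (.node .leaf 21 522 7 0
  .leaf) 21 584 7 0 .leaf) 21 618 8 0 (.node .leaf 21 714 8 0 .leaf)) 21 744 8 0 (.node (.node
  .leaf 21 810 7 0 .leaf) 21 842 7 0 (.node .leaf 21 872 7 0 .leaf)))) 22 73 5 0 (.node (.node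
  (.node (.node (.node .leaf 22 104 0 0 .leaf) 22 200 5 0 .leaf) 22 328 5 0 (.node .leaf 22 584
  5 0 .leaf)) 23 72 8 0 (.node (.node .leaf 23 232 9 0 .leaf) 23 360 7 0 (.node .leaf 23 616 7 0
  .leaf))) 24 36 0 0 (.node (.node (.node (.node .leaf 24 39 6 0 .leaf) 24 68 1 0 .leaf) 24 71 5
  0 (.node .leaf 24 102 0 0 .leaf)) 24 132 1 1 (.node (.node .leaf 24 135 6 0 .leaf) 24 166 0 0
  (.node .leaf 24 198 5 0 .leaf)))))))) 24 260 1 1 (.node (.node (.node (.node (.node (.node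
  (.node (.node (.node .leaf 24 263 6 0 .leaf) 24 294 0 0 .leaf) 24 326 7 0 (.node .leaf 24 390
  9 0 .leaf)) 24 516 1 1 (.node (.node .leaf 24 519 6 0 .leaf) 24 550 0 0 (.node .leaf 24 582 0
  0 .leaf))) 24 646 8 0 (.node (.node (.node (.node .leaf 24 774 7 0 .leaf) 25 38 7 1 .leaf) 25
  70 9 0 (.node .leaf 25 100 8 0 .leaf)) 25 134 5 1 (.node (.node .leaf 25 164 9 0 .leaf) 25 230
  9 0 (.node .leaf 25 262 5 1 .leaf)))) 25 292 1 1 (.node (.node (.node (.node (.node .leaf 25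
  358 9 0 .leaf) 25 422 9 0 .leaf) 25 484 9 0 (.node .leaf 25 518 5 1 .leaf)) 25 548 1 1 (.node
  (.node .leaf 25 614 7 0 .leaf) 25 678 8 0 (.node .leaf 25 710 8 0 .leaf))) 25 740 8 0 (.node
  (.node (.node (.node .leaf 25 806 7 0 .leaf) 25 838 7 0 .leaf) 25 868 7 0 (.node .leaf 26 69 5
  0 .leaf)) 26 100 0 0 (.node (.node .leaf 26 196 0 0 .leaf) 26 324 0 0 (.node .leaf 26 580 0 0
  .leaf))))) 27 36 6 1 (.node (.node (.node (.node (.node (.node .leaf 27 68 7 0 .leaf) 27 228 8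
  0 .leaf) 27 356 9 0 (.node .leaf 27 452 9 0 .leaf)) 27 612 7 0 (.node (.node .leaf 27 708 8 0
  .leaf) 27 836 7 0 (.node .leaf 28 32 0 1 .leaf))) 28 35 8 0 (.node (.node (.node (.node .leaf
  28 97 1 1 .leaf) 28 161 9 0 .leaf) 28 227 8 0 (.node .leaf 28 289 6 1 .leaf)) 28 355 7 0
  (.node (.node .leaf 28 481 9 0 .leaf) 28 545 6 1 (.node .leaf 28 611 7 0 .leaf)))) 28 737 8 0
  (.node (.node (.node (.node (.node .leaf 28 865 7 0 .leaf) 29 34 7 0 .leaf) 29 226 9 0 (.node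
  .leaf 29 354 9 0 .leaf)) 29 610 8 0 (.node (.node .leaf 30 33 6 1 .leaf) 30 225 8 0 (.node
  .leaf 30 353 7 0 .leaf))) 30 609 7 0 (.node (.node (.node (.node .leaf 32 76 0 0 .leaf) 32 140
  0 0 .leaf) 32 268 0 0 (.node .leaf 32 524 0 0 .leaf)) 33 78 4 0 (.node (.node .leaf 33 92 1 0
  .leaf) 33 142 8 0 (.node .leaf 33 156 1 0 .leaf)))))) 33 204 8 0 (.node (.node (.node (.node
  (.node (.node (.node .leaf 33 270 7 0 .leaf) 33 284 1 0 .leaf) 33 332 9 0 (.node .leaf 33 396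
  9 0 .leaf)) 33 526 7 0 (.node (.node .leaf 33 540 1 0 .leaf) 33 588 7 0 (.node .leaf 33 652 8
  0 .leaf))) 33 780 7 0 (.node (.node (.node (.node .leaf 34 77 9 0 .leaf) 34 141 4 1 .leaf) 34
  221 9 0 (.node .leaf 34 269 4 1 .leaf)) 34 349 9 0 (.node (.node .leaf 34 413 9 0 .leaf) 34
  525 4 1 (.node .leaf 34 605 8 0 .leaf)))) 34 669 8 0 (.node (.node (.node (.node (.node .leaf
  34 797 7 0 .leaf) 35 76 4 1 .leaf) 35 140 9 0 (.node .leaf 35 220 9 0 .leaf)) 35 268 4 1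
  (.node (.node .leaf 35 348 9 0 .leaf) 35 412 9 0 (.node .leaf 35 524 8 0 .leaf))) 35 604 8 0
  (.node (.node (.node (.node .leaf 35 668 8 0 .leaf) 35 796 7 0 .leaf) 36 72 7 1 (.node .leaf
  36 75 4 0 .leaf)) 36 89 1 0 (.node (.node .leaf 36 136 6 1 .leaf) 36 139 9 0 (.node .leaf 36
  153 9 0 .leaf))))) 36 201 9 0 (.node (.node (.node (.node (.node (.node .leaf 36 202 4 0
  .leaf) 36 216 1 0 .leaf) 36 264 0 1 (.node .leaf 36 267 6 0 .leaf)) 36 281 6 0 (.node (.node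
  .leaf 36 329 9 0 .leaf) 36 393 9 0 (.node .leaf 36 456 9 0 .leaf))) 36 520 0 1 (.node (.node
  (.node (.node .leaf 36 523 7 0 .leaf) 36 537 7 0 .leaf) 36 585 7 0 (.node .leaf 36 649 8 0
  .leaf)) 36 712 8 0 (.node (.node .leaf 36 777 7 0 .leaf) 37 74 4 0 (.node .leaf 37 88 1 0
  .leaf)))) 37 200 1 0 (.node (.node (.node (.node (.node .leaf 37 328 1 0 .leaf) 37 584 8 0
  .leaf) 38 73 4 0 (.node .leaf 38 88 7 1 .leaf)) 38 137 9 0 (.node (.node .leaf 38 152 6 1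
  .leaf) 38 200 9 0 (.node .leaf 38 217 9 0 .leaf))) 38 265 9 0 (.node (.node (.node (.node
  .leaf 38 280 6 1 .leaf) 38 345 7 0 .leaf) 38 472 9 0 (.node .leaf 38 521 8 0 .leaf)) 38 536 6
  1 (.node (.node .leaf 38 601 7 0 .leaf) 38 728 8 0 (.node .leaf 38 856 7 0 .leaf))))))) 39 72
  8 1 (.node (.node (.node (.node (.node (.node (.node (.node .leaf 39 216 9 0 .leaf) 39 344 7 0
  .leaf) 39 456 9 0 (.node .leaf 39 600 7 0 .leaf)) 39 712 8 0 (.node (.node .leaf 39 840 7 0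
  .leaf) 40 68 8 1 (.node .leaf 40 71 4 0 .leaf))) 40 85 1 0 (.node (.node (.node (.node .leaf
  40 132 6 1 .leaf) 40 197 9 0 .leaf) 40 198 4 0 (.node .leaf 40 212 1 0 .leaf)) 40 260 6 1
  (.node (.node .leaf 40 325 1 0 .leaf) 40 326 4 0 (.node .leaf 40 340 1 0 .leaf)))) 40 452 9 0
  (.node (.node (.node (.node (.node .leaf 40 516 6 1 .leaf) 40 581 1 0 .leaf) 40 582 4 0 (.node
  .leaf 40 596 1 0 .leaf)) 40 708 8 0 (.node (.node .leaf 40 836 7 0 .leaf) 41 70 4 0 (.node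
  .leaf 41 84 1 0 .leaf))) 41 196 1 0 (.node (.node (.node (.node .leaf 41 324 1 0 .leaf) 41 580
  1 0 .leaf) 42 69 4 1 (.node .leaf 42 84 9 0 .leaf)) 42 148 9 0 (.node (.node .leaf 42 196 9 0
  .leaf) 42 213 9 0 (.node .leaf 42 276 6 1 .leaf))))) 42 324 9 0 (.node (.node (.node (.node
  (.node (.node .leaf 42 341 7 0 .leaf) 42 453 9 0 .leaf) 42 468 9 0 (.node .leaf 42 532 6 1
  .leaf)) 42 580 8 0 (.node (.node .leaf 42 597 8 0 .leaf) 42 709 8 0 (.node .leaf 42 724 8 0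
  .leaf))) 42 837 7 0 (.node (.node (.node (.node .leaf 42 852 7 0 .leaf) 43 68 9 0 .leaf) 43
  212 8 0 (.node .leaf 43 340 9 0 .leaf)) 43 452 9 0 (.node (.node .leaf 43 596 8 0 .leaf) 43
  708 8 0 (.node .leaf 43 836 7 0 .leaf)))) 49 76 1 1 (.node (.node (.node (.node (.node .leaf
  49 140 9 0 .leaf) 49 206 9 0 .leaf) 49 268 7 0 (.node .leaf 49 334 9 0 .leaf)) 49 524 8 0
  (.node (.node .leaf 49 590 8 0 .leaf) 50 205 9 0 (.node .leaf 50 333 7 0 .leaf))) 50 589 7 0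
  (.node (.node (.node (.node .leaf 51 204 8 0 .leaf) 51 332 7 0 .leaf) 51 588 8 0 (.node .leaf
  52 73 7 0 .leaf)) 52 74 7 0 (.node (.node .leaf 52 137 9 0 .leaf) 52 138 8 0 (.node .leaf 52
  200 8 0 .leaf)))))) 52 203 8 0 (.node (.node (.node (.node (.node (.node (.node .leaf 52 265 9
  0 .leaf) 52 266 6 1 .leaf) 52 331 9 0 (.node .leaf 52 458 9 0 .leaf)) 52 521 8 0 (.node (.node
  .leaf 52 522 6 1 .leaf) 52 587 7 0 (.node .leaf 52 714 8 0 .leaf))) 52 842 7 0 (.node (.node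
  (.node (.node .leaf 53 72 7 0 .leaf) 53 202 8 0 .leaf) 53 330 9 0 (.node .leaf 53 586 8 0
  .leaf)) 54 72 7 1 (.node (.node .leaf 54 201 9 0 .leaf) 54 329 7 0 (.node .leaf 54 456 9 0
  .leaf)))) 54 585 7 0 (.node (.node (.node (.node (.node .leaf 54 712 8 0 .leaf) 54 840 7 0
  .leaf) 55 200 9 0 (.node .leaf 55 328 9 0 .leaf)) 55 584 8 0 (.node (.node .leaf 56 69 1 1
  .leaf) 56 70 9 1 (.node .leaf 56 134 6 1 .leaf))) 56 196 9 0 (.node (.node (.node (.node .leaf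
  56 199 8 0 .leaf) 56 262 6 1 .leaf) 56 324 9 0 (.node .leaf 56 327 9 0 .leaf)) 56 454 9 0
  (.node (.node .leaf 56 518 6 1 .leaf) 56 580 7 0 (.node .leaf 56 583 7 0 .leaf))))) 56 710 8 0
  (.node (.node (.node (.node (.node (.node .leaf 56 838 7 0 .leaf) 57 68 1 1 .leaf) 57 198 9 0
  (.node .leaf 57 326 7 0 .leaf)) 57 582 8 0 (.node (.node .leaf 58 68 0 0 .leaf) 58 197 9 0
  (.node .leaf 58 325 7 0 .leaf))) 58 581 8 0 (.node (.node (.node (.node .leaf 59 196 8 0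
  .leaf) 59 324 7 0 .leaf) 59 580 8 0 (.node .leaf 68 136 5 1 .leaf)) 68 154 0 1 (.node (.node
  .leaf 68 169 1 1 .leaf) 68 170 8 0 (.node .leaf 68 184 9 0 .leaf)))) 68 187 8 0 (.node (.node
  (.node (.node (.node .leaf 68 264 5 1 .leaf) 68 282 0 1 .leaf) 68 297 1 1 (.node .leaf 68 298
  9 0 .leaf)) 68 312 9 0 (.node (.node .leaf 68 315 9 0 .leaf) 68 411 9 0 (.node .leaf 68 424 9
  0 .leaf))) 68 427 9 0 (.node (.node (.node (.node .leaf 68 520 5 1 .leaf) 68 538 0 1 .leaf) 68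
  553 1 1 (.node .leaf 68 554 7 0 .leaf)) 68 568 7 0 (.node (.node .leaf 68 571 8 0 .leaf) 68
  667 8 0 (.node .leaf 68 680 8 0 .leaf))))))))) 68 683 8 0 (.node (.node (.node (.node (.node
  (.node (.node (.node (.node (.node .leaf 68 795 7 0 .leaf) 68 808 7 0 .leaf) 68 811 7 0 (.node
  .leaf 69 168 1 1 .leaf)) 69 186 8 0 (.node (.node (.node .leaf 69 296 1 1 .leaf) 69 314 9 0
  .leaf) 69 426 9 0 (.node .leaf 69 552 1 1 .leaf))) 69 570 7 0 (.node (.node (.node (.node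
  .leaf 69 682 8 0 .leaf) 69 810 7 0 .leaf) 70 152 8 0 (.node .leaf 70 168 4 1 .leaf)) 70 185 8
  0 (.node (.node .leaf 70 280 0 1 .leaf) 70 296 4 1 (.node .leaf 70 313 7 0 .leaf)))) 70 409 9
  0 (.node (.node (.node (.node (.node .leaf 70 440 9 0 .leaf) 70 536 0 1 .leaf) 70 552 4 1
  (.node .leaf 70 569 8 0 .leaf)) 70 665 8 0 (.node (.node .leaf 70 696 8 0 .leaf) 70 793 7 0
  (.node .leaf 70 824 7 0 .leaf))) 71 184 8 0 (.node (.node (.node (.node .leaf 71 312 9 0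
  .leaf) 71 568 8 0 .leaf) 72 132 4 1 (.node .leaf 72 135 8 0 .leaf)) 72 149 9 0 (.node (.node
  .leaf 72 150 0 1 .leaf) 72 165 4 1 (.node .leaf 72 180 9 0 .leaf))))) 72 183 8 0 (.node (.node
  (.node (.node (.node (.node .leaf 72 260 5 1 .leaf) 72 263 9 0 .leaf) 72 277 7 0 (.node .leaf
  72 278 0 1 .leaf)) 72 293 4 1 (.node (.node .leaf 72 294 9 0 .leaf) 72 308 9 0 (.node .leaf 72
  311 9 0 .leaf))) 72 389 9 0 (.node (.node (.node (.node .leaf 72 404 9 0 .leaf) 72 407 9 0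
  .leaf) 72 420 9 0 (.node .leaf 72 437 9 0 .leaf)) 72 516 0 1 (.node (.node .leaf 72 519 7 0
  .leaf) 72 533 7 0 (.node .leaf 72 534 0 1 .leaf)))) 72 549 4 1 (.node (.node (.node (.node
  (.node .leaf 72 567 8 0 .leaf) 72 645 8 0 .leaf) 72 660 8 0 (.node .leaf 72 663 8 0 .leaf)) 72
  693 8 0 (.node (.node .leaf 72 773 7 0 .leaf) 72 791 7 0 (.node .leaf 72 804 7 0 .leaf))) 72
  821 7 0 (.node (.node (.node (.node .leaf 73 148 5 1 .leaf) 73 164 4 1 .leaf) 73 182 8 0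
  (.node .leaf 73 292 4 1 .leaf)) 73 310 7 0 (.node (.node .leaf 73 436 9 0 .leaf) 73 548 8 0
  (.node .leaf 73 566 8 0 .leaf)))))) 73 692 8 0 (.node (.node (.node (.node (.node (.node
  (.node .leaf 73 820 7 0 .leaf) 74 133 4 1 .leaf) 74 148 5 1 (.node .leaf 74 181 9 0 .leaf)) 74
  261 4 1 (.node (.node .leaf 74 276 7 0 .leaf) 74 292 4 1 (.node .leaf 74 309 7 0 .leaf))) 74
  405 9 0 (.node (.node (.node (.node .leaf 74 436 9 0 .leaf) 74 517 4 1 .leaf) 74 532 0 1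
  (.node .leaf 74 565 8 0 .leaf)) 74 661 8 0 (.node (.node .leaf 74 692 8 0 .leaf) 74 789 7 0
  (.node .leaf 74 820 7 0 .leaf)))) 75 180 9 0 (.node (.node (.node (.node (.node .leaf 75 308 7
  0 .leaf) 75 564 7 0 .leaf) 76 161 9 0 (.node .leaf 76 179 8 0 .leaf)) 76 289 7 0 (.node (.node
  .leaf 76 307 7 0 .leaf) 76 545 8 0 (.node .leaf 76 563 7 0 .leaf))) 77 178 8 0 (.node (.node
  (.node (.node .leaf 77 306 7 0 .leaf) 77 418 9 0 .leaf) 77 562 8 0 (.node .leaf 77 674 8 0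
  .leaf)) 77 802 7 0 (.node (.node .leaf 78 177 9 0 .leaf) 78 305 7 0 (.node .leaf 78 561 7 0
  .leaf))))) 84 138 5 1 (.node (.node (.node (.node (.node (.node .leaf 84 168 1 1 .leaf) 84 171
  9 0 .leaf) 84 266 5 1 (.node .leaf 84 296 1 1 .leaf)) 84 299 7 0 (.node (.node .leaf 84 426 9
  0 .leaf) 84 522 7 0 (.node .leaf 84 552 1 1 .leaf))) 84 555 7 0 (.node (.node (.node (.node
  .leaf 84 682 8 0 .leaf) 84 810 7 0 .leaf) 85 170 8 0 (.node .leaf 85 298 9 0 .leaf)) 85 554 7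
  0 (.node (.node .leaf 88 133 1 1 .leaf) 88 134 0 1 (.node .leaf 88 167 8 0 .leaf)))) 88 261 1
  1 (.node (.node (.node (.node (.node .leaf 88 262 0 1 .leaf) 88 292 1 1 .leaf) 88 295 9 0
  (.node .leaf 88 391 9 0 .leaf)) 88 422 9 0 (.node (.node .leaf 88 517 1 1 .leaf) 88 518 0 1
  (.node .leaf 88 551 8 0 .leaf))) 88 647 8 0 (.node (.node (.node (.node .leaf 88 775 7 0
  .leaf) 88 806 7 0 .leaf) 89 166 8 0 (.node .leaf 89 294 9 0 .leaf)) 89 550 7 0 (.node (.node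
  .leaf 92 163 9 0 .leaf) 92 291 9 0 (.node .leaf 92 547 7 0 .leaf))))))) 93 162 9 0 (.node
  (.node (.node (.node (.node (.node (.node (.node .leaf 93 290 9 0 .leaf) 93 546 7 0 .leaf) 97
  140 9 0 (.node .leaf 97 158 9 0 .leaf)) 97 268 7 0 (.node (.node .leaf 97 286 9 0 .leaf) 97
  524 8 0 (.node .leaf 97 542 7 0 .leaf))) 98 157 9 0 (.node (.node (.node (.node .leaf 98 285 9
  0 .leaf) 98 541 8 0 .leaf) 99 156 9 0 (.node .leaf 99 284 9 0 .leaf)) 99 540 8 0 (.node (.node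
  .leaf 100 137 9 0 .leaf) 100 155 9 0 (.node .leaf 100 265 4 1 .leaf)))) 100 283 7 0 (.node
  (.node (.node (.node (.node .leaf 100 395 9 0 .leaf) 100 409 9 0 .leaf) 100 521 8 0 (.node
  .leaf 100 539 8 0 .leaf)) 100 779 7 0 (.node (.node .leaf 100 793 7 0 .leaf) 102 153 8 0
  (.node .leaf 102 281 7 0 .leaf))) 102 537 7 0 (.node (.node (.node (.node .leaf 104 133 1 1
  .leaf) 104 148 0 1 .leaf) 104 151 9 0 (.node .leaf 104 261 1 1 .leaf)) 104 279 7 0 (.node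
  (.node .leaf 104 391 9 0 .leaf) 104 405 9 0 (.node .leaf 104 517 1 1 .leaf))))) 104 535 7 0
  (.node (.node (.node (.node (.node (.node .leaf 104 647 8 0 .leaf) 104 661 8 0 .leaf) 104 775
  7 0 (.node .leaf 106 149 9 0 .leaf)) 106 277 9 0 (.node (.node .leaf 106 533 7 0 .leaf) 113
  142 8 0 (.node .leaf 113 270 7 0 .leaf))) 113 526 8 0 (.node (.node (.node (.node .leaf 116
  139 8 0 .leaf) 116 267 7 0 .leaf) 116 523 8 0 (.node .leaf 120 135 8 0 .leaf)) 120 263 7 0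
  (.node (.node .leaf 120 519 8 0 .leaf) 132 264 9 1 (.node .leaf 132 520 4 0 .leaf)))) 132 777
  5 0 (.node (.node (.node (.node (.node .leaf 132 778 4 0 .leaf) 132 792 1 0 .leaf) 132 808 6 0
  (.node .leaf 132 840 0 0 .leaf)) 133 328 4 0 (.node (.node .leaf 133 584 1 0 .leaf) 133 776 6
  1 (.node .leaf 133 842 4 0 .leaf))) 133 856 1 0 (.node (.node (.node (.node .leaf 133 872 1 0
  .leaf) 134 280 0 1 .leaf) 134 313 6 0 (.node .leaf 134 345 5 0 .leaf)) 134 376 0 0 (.node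
  (.node .leaf 134 536 8 1 .leaf) 134 776 4 1 (.node .leaf 134 793 6 0 .leaf)))))) 134 824 0 0
  (.node (.node (.node (.node (.node (.node (.node .leaf 134 856 0 0 .leaf) 135 792 5 1 .leaf)
  136 260 9 1 (.node .leaf 136 516 8 0 .leaf)) 136 773 6 0 (.node (.node .leaf 136 774 4 0
  .leaf) 136 788 1 0 (.node .leaf 136 804 0 0 .leaf))) 136 836 5 0 (.node (.node (.node (.node
  .leaf 137 292 9 0 .leaf) 137 548 8 0 .leaf) 137 566 6 0 (.node .leaf 137 614 4 0 .leaf)) 137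
  628 1 0 (.node (.node .leaf 137 772 5 1 .leaf) 137 806 6 0 (.node .leaf 137 820 1 0 .leaf))))
  137 868 1 0 (.node (.node (.node (.node (.node .leaf 138 276 5 1 .leaf) 138 309 6 0 .leaf) 138
  372 0 0 (.node .leaf 138 532 8 1 .leaf)) 138 772 4 1 (.node (.node .leaf 138 789 5 0 .leaf)
  138 820 0 0 (.node .leaf 138 852 5 0 .leaf))) 139 788 6 1 (.node (.node (.node (.node .leaf
  139 804 4 1 .leaf) 140 289 1 0 .leaf) 140 545 4 1 (.node .leaf 140 563 6 0 .leaf)) 140 611 4 0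
  (.node (.node .leaf 140 625 1 0 .leaf) 140 803 6 0 (.node .leaf 140 817 1 0 .leaf))))) 140 865
  1 0 (.node (.node (.node (.node (.node (.node .leaf 142 801 6 1 .leaf) 148 266 9 0 .leaf) 148
  328 5 0 (.node .leaf 148 521 1 1 .leaf)) 148 522 5 0 (.node (.node .leaf 148 552 1 1 .leaf)
  148 555 6 0 (.node .leaf 148 584 0 0 .leaf))) 148 587 5 0 (.node (.node (.node (.node .leaf
  148 618 0 0 .leaf) 148 776 1 1 .leaf) 148 779 5 0 (.node .leaf 148 810 0 0 .leaf)) 148 842 0 0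
  (.node (.node .leaf 149 520 6 1 .leaf) 149 778 5 1 (.node .leaf 150 520 6 1 .leaf)))) 150 585
  5 0 (.node (.node (.node (.node (.node .leaf 150 616 0 0 .leaf) 150 840 0 0 .leaf) 152 262 6 1
  (.node .leaf 152 327 5 0 .leaf)) 152 358 0 0 (.node (.node .leaf 152 518 8 0 .leaf) 152 772 1
  1 (.node .leaf 152 775 5 0 .leaf))) 152 806 0 0 (.node (.node (.node (.node .leaf 152 838 5 0
  .leaf) 153 774 6 1 .leaf) 153 804 1 1 (.node .leaf 155 548 6 1 .leaf)) 156 801 6 1 (.node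
  (.node .leaf 158 289 6 1 .leaf) 161 268 1 1 (.node .leaf 161 286 6 0 .leaf)))))))) 161 334 4 0
  (.node (.node (.node (.node (.node (.node (.node (.node (.node .leaf 161 524 4 1 .leaf) 161
  542 6 0 .leaf) 161 590 4 0 (.node .leaf 161 604 1 0 .leaf)) 161 782 6 0 (.node (.node .leaf
  161 796 1 0 .leaf) 161 844 4 0 (.node .leaf 163 780 4 1 .leaf))) 164 265 9 0 (.node (.node
  (.node (.node .leaf 164 521 1 1 .leaf) 164 539 6 0 .leaf) 164 587 4 0 (.node .leaf 164 601 1 0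
  .leaf)) 164 776 0 1 (.node (.node .leaf 164 779 4 0 .leaf) 164 793 1 0 (.node .leaf 164 841 1
  0 .leaf)))) 165 840 1 0 (.node (.node (.node (.node (.node .leaf 166 777 6 1 .leaf) 166 792 6
  1 .leaf) 168 324 1 0 (.node .leaf 168 580 4 0 .leaf)) 168 772 6 1 (.node (.node .leaf 168 837
  1 0 .leaf) 168 838 4 0 (.node .leaf 168 852 1 0 .leaf))) 169 836 4 0 (.node (.node (.node
  (.node .leaf 170 788 0 1 .leaf) 171 276 6 1 .leaf) 177 780 1 1 (.node .leaf 179 268 6 1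
  .leaf)) 180 520 6 1 (.node (.node .leaf 180 777 1 1 .leaf) 180 778 6 1 (.node .leaf 181 522 6
  1 .leaf))))) 184 774 0 1 (.node (.node (.node (.node (.node (.node .leaf 196 296 1 1 .leaf)
  196 552 4 1 .leaf) 196 776 5 1 (.node .leaf 196 809 4 1 .leaf)) 197 808 4 1 (.node (.node
  .leaf 198 792 5 1 .leaf) 198 808 4 1 (.node .leaf 199 552 4 1 .leaf))) 200 261 4 1 (.node
  (.node (.node (.node .leaf 200 292 1 1 .leaf) 200 517 1 1 .leaf) 200 548 4 1 (.node .leaf 200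
  772 0 1 .leaf)) 200 805 4 1 (.node (.node .leaf 201 804 4 1 .leaf) 202 773 4 1 (.node .leaf
  202 788 5 1 .leaf)))) 202 804 4 1 (.node (.node (.node (.node (.node .leaf 203 276 5 1 .leaf)
  203 548 4 1 .leaf) 204 801 1 1 (.node .leaf 206 289 4 1 .leaf)) 212 520 1 1 (.node (.node
  .leaf 212 778 0 1 .leaf) 212 808 1 1 (.node .leaf 213 522 5 1 .leaf))) 213 552 1 1 (.node
  (.node (.node (.node .leaf 216 773 1 1 .leaf) 216 774 5 1 .leaf) 216 804 1 1 (.node .leaf 217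
  548 1 1 .leaf)) 220 289 1 1 (.node (.node .leaf 225 780 1 1 .leaf) 227 268 4 1 (.node .leaf
  228 777 1 1 .leaf)))))) 232 773 1 1 (.node (.node (.node (.node (.node (.node (.node .leaf 234
  276 0 1 .leaf) 241 268 1 1 .leaf) 244 522 0 1 (.node .leaf 260 520 7 0 .leaf)) 260 649 5 0
  (.node (.node .leaf 260 650 4 0 .leaf) 260 664 1 0 (.node .leaf 260 680 6 0 .leaf))) 260 712 0
  0 (.node (.node (.node (.node .leaf 261 584 1 0 .leaf) 261 648 6 1 .leaf) 261 714 4 0 (.node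
  .leaf 261 728 1 0 .leaf)) 261 744 1 0 (.node (.node .leaf 262 536 7 1 .leaf) 262 648 4 1
  (.node .leaf 262 665 5 0 .leaf)))) 262 696 0 0 (.node (.node (.node (.node (.node .leaf 262
  728 0 0 .leaf) 263 664 5 1 .leaf) 264 516 7 0 (.node .leaf 264 645 6 0 .leaf)) 264 646 4 0
  (.node (.node .leaf 264 660 1 0 .leaf) 264 676 0 0 (.node .leaf 264 708 5 0 .leaf))) 265 548 7
  0 (.node (.node (.node (.node .leaf 265 566 6 0 .leaf) 265 614 4 0 .leaf) 265 628 1 0 (.node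
  .leaf 265 644 5 1 .leaf)) 265 678 4 0 (.node (.node .leaf 265 692 6 0 .leaf) 265 740 1 0
  (.node .leaf 266 532 7 0 .leaf))))) 266 644 4 1 (.node (.node (.node (.node (.node (.node
  .leaf 266 661 6 0 .leaf) 266 692 0 0 .leaf) 266 724 0 0 (.node .leaf 267 660 5 1 .leaf)) 267
  676 6 1 (.node (.node .leaf 268 545 6 0 .leaf) 268 675 4 0 (.node .leaf 268 689 6 0 .leaf)))
  268 737 1 0 (.node (.node (.node (.node .leaf 270 673 6 1 .leaf) 276 522 7 0 .leaf) 276 648 1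
  1 (.node .leaf 276 651 5 0 .leaf)) 276 682 6 0 (.node (.node .leaf 276 714 0 0 .leaf) 277 650
  6 1 (.node .leaf 280 518 7 0 .leaf)))) 280 644 1 1 (.node (.node (.node (.node (.node .leaf
  280 647 5 0 .leaf) 280 678 6 0 .leaf) 280 710 5 0 (.node .leaf 281 646 6 1 .leaf)) 281 676 6 1
  (.node (.node .leaf 284 673 1 1 .leaf) 289 524 6 0 (.node .leaf 289 654 4 0 .leaf))) 289 668 1
  0 (.node (.node (.node (.node .leaf 289 716 4 0 .leaf) 291 652 4 1 .leaf) 292 521 1 0 (.node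
  .leaf 292 584 4 0 .leaf)) 292 648 0 1 (.node (.node .leaf 292 651 4 0 .leaf) 292 665 1 0
  (.node .leaf 292 713 1 0 .leaf))))))) 292 714 4 0 (.node (.node (.node (.node (.node (.node
  (.node (.node .leaf 292 728 1 0 .leaf) 293 586 4 0 .leaf) 293 600 1 0 (.node .leaf 293 712 1 0
  .leaf)) 294 649 4 1 (.node (.node .leaf 294 664 0 1 .leaf) 296 580 1 0 (.node .leaf 296 644 6
  1 .leaf))) 296 709 1 0 (.node (.node (.node (.node .leaf 296 710 4 0 .leaf) 296 724 1 0 .leaf)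
  297 708 1 0 (.node .leaf 298 660 6 1 .leaf)) 299 532 6 1 (.node (.node .leaf 305 652 1 1
  .leaf) 307 524 6 1 (.node .leaf 308 649 1 1 .leaf)))) 308 650 0 1 (.node (.node (.node (.node
  (.node .leaf 310 521 6 1 .leaf) 312 646 6 1 .leaf) 324 552 1 1 (.node .leaf 324 648 5 1
  .leaf)) 324 681 4 1 (.node (.node .leaf 325 680 1 1 .leaf) 326 664 0 1 (.node .leaf 326 680 4
  1 .leaf))) 328 517 1 1 (.node (.node (.node (.node .leaf 328 644 4 1 .leaf) 328 662 0 1 .leaf)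
  328 677 4 1 (.node .leaf 329 660 5 1 .leaf)) 329 676 1 1 (.node (.node .leaf 330 645 4 1
  .leaf) 330 660 5 1 (.node .leaf 331 532 5 1 .leaf))))) 331 548 4 1 (.node (.node (.node (.node
  (.node (.node .leaf 332 673 1 1 .leaf) 334 545 4 1 .leaf) 340 650 0 1 (.node .leaf 340 680 1 1
  .leaf)) 344 645 1 1 (.node (.node .leaf 344 646 0 1 .leaf) 345 548 1 1 (.node .leaf 348 545 1
  1 .leaf))) 353 652 1 1 (.node (.node (.node (.node .leaf 355 524 4 1 .leaf) 356 649 1 1 .leaf)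
  358 521 4 1 (.node .leaf 360 645 4 1 .leaf)) 360 660 0 1 (.node (.node .leaf 369 524 1 1
  .leaf) 372 521 1 1 (.node .leaf 388 521 5 0 .leaf)))) 388 522 4 0 (.node (.node (.node (.node
  (.node .leaf 388 536 1 0 .leaf) 388 552 6 0 .leaf) 388 584 4 0 (.node .leaf 389 520 6 1
  .leaf)) 389 586 4 0 (.node (.node .leaf 389 600 1 0 .leaf) 389 616 4 0 (.node .leaf 390 520 4
  1 .leaf))) 390 537 6 0 (.node (.node (.node (.node .leaf 390 568 6 0 .leaf) 390 600 0 0 .leaf)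
  391 536 5 1 (.node .leaf 392 517 6 0 .leaf)) 392 518 4 0 (.node (.node .leaf 392 532 1 0
  .leaf) 392 548 0 0 (.node .leaf 392 580 5 0 .leaf)))))) 393 516 5 1 (.node (.node (.node
  (.node (.node (.node (.node .leaf 393 550 6 0 .leaf) 393 564 6 0 .leaf) 393 612 1 0 (.node
  .leaf 394 516 4 1 .leaf)) 394 533 5 0 (.node (.node .leaf 394 564 6 0 .leaf) 394 596 0 0
  (.node .leaf 395 532 5 1 .leaf))) 395 548 4 1 (.node (.node (.node (.node .leaf 396 547 6 0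
  .leaf) 396 561 1 0 .leaf) 396 609 4 0 (.node .leaf 398 545 6 1 .leaf)) 404 520 1 1 (.node
  (.node .leaf 404 523 6 0 .leaf) 404 554 6 0 (.node .leaf 404 585 5 0 .leaf)))) 404 586 0 0
  (.node (.node (.node (.node (.node .leaf 404 616 0 0 .leaf) 405 522 5 1 .leaf) 406 584 0 0
  (.node .leaf 408 516 1 1 .leaf)) 408 519 5 0 (.node (.node .leaf 408 550 6 0 .leaf) 408 582 5
  0 (.node .leaf 409 518 6 1 .leaf))) 409 548 6 1 (.node (.node (.node (.node .leaf 412 545 1 1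
  .leaf) 417 526 6 0 .leaf) 417 540 6 0 (.node .leaf 417 588 4 0 .leaf)) 419 524 6 1 (.node
  (.node .leaf 420 520 0 1 .leaf) 420 523 4 0 (.node .leaf 420 537 1 0 .leaf))))) 420 585 4 0
  (.node (.node (.node (.node (.node (.node .leaf 420 586 4 0 .leaf) 420 600 1 0 .leaf) 421 584
  1 0 (.node .leaf 422 521 6 1 .leaf)) 422 536 6 1 (.node (.node .leaf 424 516 6 1 .leaf) 424
  581 1 0 (.node .leaf 424 582 4 0 .leaf))) 424 596 1 0 (.node (.node (.node (.node .leaf 425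
  580 4 0 .leaf) 426 532 6 1 .leaf) 433 524 1 1 (.node .leaf 436 521 1 1 .leaf)) 436 522 0 1
  (.node (.node .leaf 440 518 6 1 .leaf) 452 520 5 1 (.node .leaf 452 553 4 1 .leaf)))) 453 552
  1 1 (.node (.node (.node (.node (.node .leaf 454 536 5 1 .leaf) 454 552 4 1 .leaf) 456 516 0 1
  (.node .leaf 456 549 4 1 .leaf)) 457 548 4 1 (.node (.node .leaf 458 517 4 1 .leaf) 458 532 5
  1 (.node .leaf 458 548 4 1 .leaf))) 460 545 4 1 (.node (.node (.node (.node .leaf 468 522 0 1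
  .leaf) 468 552 1 1 .leaf) 472 517 1 1 (.node .leaf 472 518 5 1 .leaf)) 472 548 1 1 (.node
  (.node .leaf 481 524 1 1 .leaf) 484 521 1 1 (.node .leaf 488 517 1 1 .leaf))))))))))

theorem tSKA_all : tSKA.all (stepA 10 lSKA tSKA) = true := by decide +kernel

theorem tSKA_0 : tSKA.mem 0 0 = true := by decide +kernel

end Pool.Agent.Lib.MP_2ce84e_co
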