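import Pool.Agent.Lib.MP_2ce84e_co.Deg.Cert

/-!
# The table for the union of `S` and a triangle, Bob begins
-/

set_option autoImplicit false
set_option maxRecDepth 20000

namespace Pool.Agent.Lib.MP_2ce84e_co

/-- The minimal closed neighbourhoods (bit masks). -/
def lSKB : List ℕ := [15, 44, 82, 101, 105, 896]

/-- Alice wins on the union of `S` and a triangle if Bob begins. -/
def tSKB : Tr :=
  (.node (.node (.node (.node (.node (.node (.node (.node (.node (.node (.node (.node .leaf 0 1 3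
  0 .leaf) 0 2 6 0 .leaf) 0 4 3 0 (.node .leaf 0 8 2 0 .leaf)) 0 16 6 0 (.node (.node .leaf 0 32
  6 0 .leaf) 0 64 4 0 (.node .leaf 0 128 6 1 .leaf))) 0 193 3 0 (.node (.node (.node (.node
  .leaf 0 194 4 0 .leaf) 0 196 3 0 .leaf) 0 200 0 0 (.node .leaf 0 208 1 0 .leaf)) 0 224 2 0
  (.node (.node .leaf 0 256 6 1 .leaf) 0 321 3 0 (.node .leaf 0 322 4 0 .leaf)))) 0 324 3 0
  (.node (.node (.node (.node (.node .leaf 0 328 5 0 .leaf) 0 336 1 0 .leaf) 0 352 2 0 (.node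
  .leaf 0 448 9 0 .leaf)) 0 512 6 1 (.node (.node .leaf 0 577 3 0 .leaf) 0 578 4 0 (.node .leaf
  0 580 3 0 .leaf))) 0 584 0 0 (.node (.node (.node .leaf 0 592 1 0 .leaf) 0 608 2 0 (.node
  .leaf 0 704 8 0 .leaf)) 0 832 7 0 (.node (.node .leaf 1 10 6 0 .leaf) 1 12 5 0 (.node .leaf 1
  24 6 0 .leaf))))) 1 40 2 0 (.node (.node (.node (.node (.node (.node .leaf 1 72 8 1 .leaf) 1
  136 6 1 .leaf) 1 192 3 1 (.node .leaf 1 202 4 0 .leaf)) 1 204 5 0 (.node (.node .leaf 1 216 1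
  0 .leaf) 1 232 2 0 (.node .leaf 1 264 6 1 .leaf))) 1 320 3 1 (.node (.node (.node .leaf 1 330
  4 0 .leaf) 1 332 5 0 (.node .leaf 1 344 1 0 .leaf)) 1 360 2 0 (.node (.node .leaf 1 456 9 0
  .leaf) 1 520 6 1 (.node .leaf 1 576 8 0 .leaf)))) 1 586 4 0 (.node (.node (.node (.node (.node
  .leaf 1 588 5 0 .leaf) 1 600 1 0 .leaf) 1 616 2 0 (.node .leaf 1 712 8 0 .leaf)) 1 840 7 0
  (.node (.node .leaf 2 65 3 0 .leaf) 2 68 3 0 (.node .leaf 2 72 5 0 .leaf))) 2 80 5 0 (.node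
  (.node (.node .leaf 2 96 2 0 .leaf) 2 192 5 0 (.node .leaf 2 209 3 0 .leaf)) 2 212 3 0 (.node
  (.node .leaf 2 216 2 0 .leaf) 2 240 2 0 (.node .leaf 2 320 4 1 .leaf)))))) 2 337 2 0 (.node
  (.node (.node (.node (.node (.node (.node .leaf 2 340 3 0 .leaf) 2 344 5 0 .leaf) 2 368 2 0
  (.node .leaf 2 464 9 0 .leaf)) 2 576 5 0 (.node (.node .leaf 2 593 3 0 .leaf) 2 596 5 0 (.node
  .leaf 2 600 0 0 .leaf))) 2 624 2 0 (.node (.node (.node (.node .leaf 2 720 8 0 .leaf) 2 848 7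
  0 .leaf) 3 8 6 1 (.node .leaf 3 64 5 0 .leaf)) 3 76 5 0 (.node (.node .leaf 3 88 5 0 .leaf) 3
  104 2 0 (.node .leaf 3 200 5 0 .leaf)))) 3 208 3 1 (.node (.node (.node (.node (.node .leaf 3
  220 5 0 .leaf) 3 248 2 0 .leaf) 3 328 4 1 (.node .leaf 3 336 3 1 .leaf)) 3 348 5 0 (.node
  (.node .leaf 3 376 2 0 .leaf) 3 472 9 0 (.node .leaf 3 584 4 1 .leaf))) 3 592 2 1 (.node
  (.node (.node .leaf 3 604 5 0 .leaf) 3 628 3 0 (.node .leaf 3 632 2 0 .leaf)) 3 724 8 0 (.node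
  (.node .leaf 3 728 8 0 .leaf) 3 852 7 0 (.node .leaf 3 856 7 0 .leaf))))) 4 9 6 0 (.node
  (.node (.node (.node (.node (.node .leaf 4 10 6 0 .leaf) 4 24 6 0 .leaf) 4 40 6 0 (.node .leaf
  4 72 8 1 .leaf)) 4 136 6 1 (.node (.node .leaf 4 192 3 1 .leaf) 4 201 5 0 (.node .leaf 4 202 4
  0 .leaf))) 4 216 1 0 (.node (.node (.node .leaf 4 225 3 0 .leaf) 4 226 4 0 (.node .leaf 4 232
  0 0 .leaf)) 4 240 1 0 (.node (.node .leaf 4 264 6 0 .leaf) 4 320 5 1 (.node .leaf 4 329 5 0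
  .leaf)))) 4 330 4 0 (.node (.node (.node (.node (.node .leaf 4 344 1 0 .leaf) 4 353 3 0 .leaf)
  4 354 4 0 (.node .leaf 4 360 0 0 .leaf)) 4 368 1 0 (.node (.node .leaf 4 456 9 0 .leaf) 4 480
  9 0 (.node .leaf 4 520 6 0 .leaf))) 4 576 5 1 (.node (.node (.node .leaf 4 609 3 0 .leaf) 4
  610 4 0 (.node .leaf 4 616 0 0 .leaf)) 4 624 1 0 (.node (.node .leaf 4 712 8 0 .leaf) 4 736 8
  0 (.node .leaf 4 840 7 0 .leaf))))))) 4 864 7 0 (.node (.node (.node (.node (.node (.node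
  (.node (.node .leaf 5 8 6 1 .leaf) 5 42 6 0 .leaf) 5 56 6 0 (.node .leaf 5 74 4 0 .leaf)) 5 88
  1 0 (.node (.node .leaf 5 104 4 0 .leaf) 5 168 1 0 (.node .leaf 5 200 5 1 .leaf))) 5 224 3 1
  (.node (.node (.node (.node .leaf 5 234 4 0 .leaf) 5 248 1 0 .leaf) 5 296 1 0 (.node .leaf 5
  328 5 1 .leaf)) 5 352 3 1 (.node (.node .leaf 5 362 4 0 .leaf) 5 376 1 0 (.node .leaf 5 488 9
  0 .leaf)))) 5 552 6 1 (.node (.node (.node (.node (.node .leaf 5 584 8 0 .leaf) 5 608 3 1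
  .leaf) 5 618 4 0 (.node .leaf 5 632 1 0 .leaf)) 5 744 8 0 (.node (.node .leaf 5 872 7 0 .leaf)
  6 8 6 1 (.node .leaf 6 64 3 1 .leaf))) 6 73 5 0 (.node (.node (.node .leaf 6 88 7 1 .leaf) 6
  97 3 0 (.node .leaf 6 104 0 0 .leaf)) 6 112 8 1 (.node (.node .leaf 6 200 4 1 .leaf) 6 208 3 1
  (.node .leaf 6 217 5 0 .leaf))))) 6 224 4 1 (.node (.node (.node (.node (.node (.node .leaf 6
  241 3 0 .leaf) 6 248 0 0 .leaf) 6 328 4 1 (.node .leaf 6 336 0 1 .leaf)) 6 345 5 0 (.node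
  (.node .leaf 6 352 9 0 .leaf) 6 369 3 0 (.node .leaf 6 376 0 0 .leaf))) 6 465 9 0 (.node
  (.node (.node .leaf 6 472 9 0 .leaf) 6 496 9 0 (.node .leaf 6 584 5 0 .leaf)) 6 592 5 1 (.node
  (.node .leaf 6 608 4 1 .leaf) 6 625 3 0 (.node .leaf 6 632 0 0 .leaf)))) 6 728 8 0 (.node
  (.node (.node (.node (.node .leaf 6 752 8 0 .leaf) 6 849 7 0 .leaf) 6 856 7 0 (.node .leaf 6
  880 7 0 .leaf)) 7 40 8 1 (.node (.node .leaf 7 72 9 0 .leaf) 7 96 3 1 (.node .leaf 7 120 8 1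
  .leaf))) 7 184 8 0 (.node (.node (.node .leaf 7 216 9 0 .leaf) 7 232 8 0 (.node .leaf 7 240 3
  1 .leaf)) 7 312 9 0 (.node (.node .leaf 7 344 9 0 .leaf) 7 360 9 0 (.node .leaf 7 368 3 1
  .leaf)))))) 7 424 9 0 (.node (.node (.node (.node (.node (.node (.node .leaf 7 504 9 0 .leaf)
  7 600 8 0 .leaf) 7 616 8 0 (.node .leaf 7 624 3 1 .leaf)) 7 680 8 0 (.node (.node .leaf 7 760
  8 0 .leaf) 7 808 7 0 (.node .leaf 7 888 7 0 .leaf))) 8 17 6 0 (.node (.node (.node (.node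
  .leaf 8 20 6 0 .leaf) 8 33 7 1 .leaf) 8 36 6 0 (.node .leaf 8 65 1 0 .leaf)) 8 68 7 1 (.node
  (.node .leaf 8 129 5 1 .leaf) 8 132 6 1 (.node .leaf 8 163 6 0 .leaf)))) 8 165 6 0 (.node
  (.node (.node (.node (.node .leaf 8 177 6 0 .leaf) 8 192 2 1 .leaf) 8 195 4 0 (.node .leaf 8
  197 5 0 .leaf)) 8 198 4 0 (.node (.node .leaf 8 209 1 0 .leaf) 8 212 1 0 (.node .leaf 8 225 2
  0 .leaf))) 8 228 0 0 (.node (.node (.node .leaf 8 257 6 1 .leaf) 8 260 6 1 (.node .leaf 8 320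
  0 1 .leaf)) 8 323 4 0 (.node (.node .leaf 8 325 5 0 .leaf) 8 326 4 0 (.node .leaf 8 337 1 0
  .leaf))))) 8 340 1 0 (.node (.node (.node (.node (.node (.node .leaf 8 353 2 0 .leaf) 8 356 0
  0 .leaf) 8 417 9 0 (.node .leaf 8 449 9 0 .leaf)) 8 452 9 0 (.node (.node .leaf 8 513 6 1
  .leaf) 8 516 6 1 (.node .leaf 8 576 2 1 .leaf))) 8 579 4 0 (.node (.node (.node .leaf 8 581 5
  0 .leaf) 8 582 4 0 (.node .leaf 8 593 1 0 .leaf)) 8 596 1 0 (.node (.node .leaf 8 609 2 0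
  .leaf) 8 612 0 0 (.node .leaf 8 673 8 0 .leaf)))) 8 705 8 0 (.node (.node (.node (.node (.node
  .leaf 8 708 8 0 .leaf) 8 833 7 0 .leaf) 8 836 7 0 (.node .leaf 9 70 4 0 .leaf)) 9 84 1 0
  (.node (.node .leaf 9 100 8 1 .leaf) 9 196 5 1 (.node .leaf 9 230 4 0 .leaf))) 9 244 1 0
  (.node (.node (.node .leaf 9 324 5 1 .leaf) 9 358 4 0 (.node .leaf 9 372 1 0 .leaf)) 9 484 9 0
  (.node (.node .leaf 9 580 7 0 .leaf) 9 614 4 0 (.node .leaf 9 628 1 0 .leaf)))))))) 9 740 8 0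
  (.node (.node (.node (.node (.node (.node (.node (.node (.node .leaf 9 868 7 0 .leaf) 10 64 0
  1 .leaf) 10 69 5 0 (.node .leaf 10 81 9 0 .leaf)) 10 84 7 1 (.node (.node .leaf 10 97 2 0
  .leaf) 10 100 0 0 (.node .leaf 10 161 2 0 .leaf))) 10 193 4 1 (.node (.node (.node (.node
  .leaf 10 196 4 1 .leaf) 10 208 2 1 .leaf) 10 213 5 0 (.node .leaf 10 241 2 0 .leaf)) 10 244 0
  0 (.node (.node .leaf 10 321 4 1 .leaf) 10 324 4 1 (.node .leaf 10 336 2 1 .leaf)))) 10 341 5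
  0 (.node (.node (.node (.node (.node .leaf 10 369 2 0 .leaf) 10 372 0 0 .leaf) 10 465 9 0
  (.node .leaf 10 468 9 0 .leaf)) 10 577 4 1 (.node (.node .leaf 10 580 5 0 .leaf) 10 592 2 1
  (.node .leaf 10 597 5 0 .leaf))) 10 625 2 0 (.node (.node (.node .leaf 10 628 0 0 .leaf) 10
  721 8 0 (.node .leaf 10 724 8 0 .leaf)) 10 849 7 0 (.node (.node .leaf 10 852 7 0 .leaf) 11 68
  4 1 (.node .leaf 11 116 9 1 .leaf))))) 11 212 8 0 (.node (.node (.node (.node (.node (.node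
  .leaf 11 228 8 0 .leaf) 11 340 9 0 .leaf) 11 356 9 0 (.node .leaf 11 500 9 0 .leaf)) 11 596 7
  0 (.node (.node .leaf 11 612 7 0 .leaf) 11 756 8 0 (.node .leaf 11 884 7 0 .leaf))) 12 35 4 0
  (.node (.node (.node .leaf 12 49 6 0 .leaf) 12 97 4 0 (.node .leaf 12 161 6 1 .leaf)) 12 193 5
  1 (.node (.node .leaf 12 224 0 1 .leaf) 12 227 4 0 (.node .leaf 12 241 1 0 .leaf)))) 12 289 6
  1 (.node (.node (.node (.node (.node .leaf 12 321 5 1 .leaf) 12 352 4 0 .leaf) 12 355 4 0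
  (.node .leaf 12 369 1 0 .leaf)) 12 481 9 0 (.node (.node .leaf 12 545 6 1 .leaf) 12 577 5 1
  (.node .leaf 12 608 4 0 .leaf))) 12 611 4 0 (.node (.node (.node .leaf 12 625 1 0 .leaf) 12
  737 8 0 (.node .leaf 12 865 7 0 .leaf)) 14 33 6 1 (.node (.node .leaf 14 65 5 1 .leaf) 14 96 0
  1 (.node .leaf 14 113 7 1 .leaf)))))) 14 177 9 0 (.node (.node (.node (.node (.node (.node
  (.node .leaf 14 209 5 1 .leaf) 14 225 8 0 .leaf) 14 240 0 1 (.node .leaf 14 337 5 1 .leaf)) 14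
  353 7 0 (.node (.node .leaf 14 368 0 1 .leaf) 14 417 9 0 (.node .leaf 14 497 9 0 .leaf))) 14
  593 5 1 (.node (.node (.node (.node .leaf 14 609 7 0 .leaf) 14 624 0 1 .leaf) 14 673 8 0
  (.node .leaf 14 753 8 0 .leaf)) 14 881 7 0 (.node (.node .leaf 16 65 3 0 .leaf) 16 66 8 0
  (.node .leaf 16 68 3 0 .leaf)))) 16 72 2 0 (.node (.node (.node (.node (.node .leaf 16 96 2 0
  .leaf) 16 192 1 1 .leaf) 16 195 3 0 (.node .leaf 16 198 3 0 .leaf)) 16 202 0 0 (.node (.node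
  .leaf 16 226 2 0 .leaf) 16 320 9 0 (.node .leaf 16 323 3 0 .leaf))) 16 326 0 0 (.node (.node
  (.node .leaf 16 330 0 0 .leaf) 16 354 0 0 (.node .leaf 16 450 9 0 .leaf)) 16 576 8 0 (.node
  (.node .leaf 16 579 3 0 .leaf) 16 582 0 0 (.node .leaf 16 586 0 0 .leaf))))) 16 610 2 0 (.node
  (.node (.node (.node (.node (.node .leaf 16 706 8 0 .leaf) 16 834 7 0 .leaf) 17 64 3 1 (.node
  .leaf 17 74 9 1 .leaf)) 17 76 5 0 (.node (.node .leaf 17 104 2 0 .leaf) 17 194 3 1 (.node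
  .leaf 17 200 1 1 .leaf))) 17 206 5 0 (.node (.node (.node .leaf 17 234 2 0 .leaf) 17 322 2 1
  (.node .leaf 17 328 1 1 .leaf)) 17 334 5 0 (.node (.node .leaf 17 358 3 0 .leaf) 17 362 2 0
  (.node .leaf 17 454 9 0 .leaf)))) 17 458 9 0 (.node (.node (.node (.node (.node .leaf 17 482 9
  0 .leaf) 17 578 7 0 .leaf) 17 584 1 1 (.node .leaf 17 590 5 0 .leaf)) 17 614 3 0 (.node (.node
  .leaf 17 618 2 0 .leaf) 17 710 8 0 (.node .leaf 17 714 8 0 .leaf))) 17 838 7 0 (.node (.node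
  (.node .leaf 17 842 7 0 .leaf) 17 866 7 0 (.node .leaf 18 64 5 0 .leaf)) 19 72 5 0 (.node
  (.node .leaf 20 64 3 1 .leaf) 20 73 5 0 (.node .leaf 20 74 5 0 .leaf))))))) 20 97 3 0 (.node
  (.node (.node (.node (.node (.node (.node (.node .leaf 20 98 7 1 .leaf) 20 104 0 0 .leaf) 20
  194 3 1 (.node .leaf 20 200 1 1 .leaf)) 20 203 5 0 (.node (.node .leaf 20 224 3 0 .leaf) 20
  227 3 0 (.node .leaf 20 234 0 0 .leaf))) 20 322 5 1 (.node (.node (.node (.node .leaf 20 328 1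
  1 .leaf) 20 331 5 0 .leaf) 20 352 3 0 (.node .leaf 20 355 3 0 .leaf)) 20 362 0 0 (.node (.node
  .leaf 20 458 9 0 .leaf) 20 482 9 0 (.node .leaf 20 578 5 1 .leaf)))) 20 584 1 1 (.node (.node
  (.node (.node (.node .leaf 20 587 5 0 .leaf) 20 608 8 0 .leaf) 20 611 3 0 (.node .leaf 20 618
  0 0 .leaf)) 20 714 8 0 (.node (.node .leaf 20 738 8 0 .leaf) 20 842 7 0 (.node .leaf 20 866 7
  0 .leaf))) 21 40 8 1 (.node (.node (.node .leaf 21 72 1 1 .leaf) 21 96 3 1 (.node .leaf 21 106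
  8 1 .leaf)) 21 202 8 0 (.node (.node .leaf 21 226 8 0 .leaf) 21 232 9 0 (.node .leaf 21 298 7
  0 .leaf))))) 21 330 9 0 (.node (.node (.node (.node (.node (.node .leaf 21 354 7 0 .leaf) 21
  360 9 0 .leaf) 21 424 9 0 (.node .leaf 21 490 9 0 .leaf)) 21 586 7 0 (.node (.node .leaf 21
  610 8 0 .leaf) 21 616 8 0 (.node .leaf 21 746 8 0 .leaf))) 21 808 7 0 (.node (.node (.node
  .leaf 21 874 7 0 .leaf) 22 72 5 0 (.node .leaf 22 96 8 1 .leaf)) 22 353 3 0 (.node (.node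
  .leaf 22 360 0 0 .leaf) 22 480 9 0 (.node .leaf 22 864 7 0 .leaf)))) 23 104 9 1 (.node (.node
  (.node (.node (.node .leaf 23 168 6 1 .leaf) 23 296 6 1 .leaf) 23 352 3 1 (.node .leaf 23 488
  9 0 .leaf)) 23 744 8 0 (.node (.node .leaf 23 872 7 0 .leaf) 24 64 2 1 (.node .leaf 24 67 8 0
  .leaf))) 24 69 5 0 (.node (.node (.node .leaf 24 70 5 0 .leaf) 24 97 2 0 (.node .leaf 24 100 0
  0 .leaf)) 24 161 2 0 (.node (.node .leaf 24 193 8 0 .leaf) 24 194 2 1 (.node .leaf 24 196 1 1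
  .leaf)))))) 24 199 5 0 (.node (.node (.node (.node (.node (.node (.node .leaf 24 227 2 0
  .leaf) 24 230 0 0 .leaf) 24 321 7 0 (.node .leaf 24 322 9 0 .leaf)) 24 324 1 1 (.node (.node
  .leaf 24 327 5 0 .leaf) 24 355 2 0 (.node .leaf 24 358 0 0 .leaf))) 24 451 9 0 (.node (.node
  (.node .leaf 24 454 9 0 .leaf) 24 577 1 1 (.node .leaf 24 578 0 1 .leaf)) 24 580 1 1 (.node
  (.node .leaf 24 583 5 0 .leaf) 24 611 2 0 (.node .leaf 24 614 0 0 .leaf)))) 24 707 8 0 (.node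
  (.node (.node (.node (.node .leaf 24 710 8 0 .leaf) 24 835 7 0 .leaf) 24 838 7 0 (.node .leaf
  25 68 1 1 .leaf)) 25 102 7 1 (.node (.node .leaf 25 198 8 0 .leaf) 25 228 9 0 (.node .leaf 25
  326 7 0 .leaf))) 25 354 7 0 (.node (.node (.node .leaf 25 356 7 0 .leaf) 25 486 9 0 (.node
  .leaf 25 582 8 0 .leaf)) 25 612 7 0 (.node (.node .leaf 25 742 8 0 .leaf) 25 870 7 0 (.node
  .leaf 26 65 8 0 .leaf))))) 26 68 7 1 (.node (.node (.node (.node (.node (.node .leaf 26 197 5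
  0 .leaf) 26 228 0 0 .leaf) 26 452 9 0 (.node .leaf 26 708 8 0 .leaf)) 27 100 7 0 (.node (.node
  .leaf 27 196 8 0 .leaf) 27 484 9 0 (.node .leaf 27 740 8 0 .leaf))) 28 33 1 1 (.node (.node
  (.node .leaf 28 65 5 1 .leaf) 28 96 0 1 (.node .leaf 28 99 7 0 .leaf)) 28 163 8 0 (.node
  (.node .leaf 28 195 5 1 .leaf) 28 225 9 0 (.node .leaf 28 226 9 0 .leaf)))) 28 291 9 0 (.node
  (.node (.node (.node (.node .leaf 28 323 5 1 .leaf) 28 353 7 0 .leaf) 28 354 7 0 (.node .leaf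
  28 417 9 0 .leaf)) 28 480 9 0 (.node (.node .leaf 28 483 9 0 .leaf) 28 547 8 0 (.node .leaf 28
  579 5 1 .leaf))) 28 609 7 0 (.node (.node (.node .leaf 28 610 8 0 .leaf) 28 673 8 0 (.node
  .leaf 28 736 8 0 .leaf)) 28 739 8 0 (.node (.node .leaf 28 864 7 0 .leaf) 28 867 7 0 (.node
  .leaf 29 224 1 1 .leaf))))))))) 29 352 1 1 (.node (.node (.node (.node (.node (.node (.node
  (.node (.node (.node .leaf 29 482 9 0 .leaf) 29 608 1 1 .leaf) 29 738 8 0 (.node .leaf 29 866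
  7 0 .leaf)) 30 97 8 0 (.node (.node .leaf 30 161 6 1 .leaf) 30 224 0 1 (.node .leaf 30 352 0 1
  .leaf))) 30 481 9 0 (.node (.node (.node (.node .leaf 30 608 0 1 .leaf) 30 737 8 0 .leaf) 30
  865 7 0 (.node .leaf 32 65 1 0 .leaf)) 32 66 4 0 (.node (.node .leaf 32 68 3 0 .leaf) 32 72 8
  1 (.node .leaf 32 80 1 0 .leaf)))) 32 192 1 0 (.node (.node (.node (.node (.node .leaf 32 320
  3 1 .leaf) 32 329 2 0 .leaf) 32 330 4 0 (.node .leaf 32 332 0 0 .leaf)) 32 344 1 0 (.node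
  (.node .leaf 32 456 9 0 .leaf) 32 576 1 0 (.node .leaf 32 840 7 0 .leaf))) 33 64 1 0 (.node
  (.node (.node .leaf 33 76 1 0 .leaf) 33 140 6 1 (.node .leaf 33 200 1 0 .leaf)) 33 206 4 0
  (.node (.node .leaf 33 220 1 0 .leaf) 33 268 6 1 (.node .leaf 33 328 2 1 .leaf))))) 33 334 4 0
  (.node (.node (.node (.node (.node (.node .leaf 33 348 1 0 .leaf) 33 460 9 0 .leaf) 33 524 6 0
  (.node .leaf 33 584 1 0 .leaf)) 33 590 4 0 (.node (.node .leaf 33 604 1 0 .leaf) 33 716 8 0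
  (.node .leaf 33 844 7 0 .leaf))) 34 64 0 1 (.node (.node (.node .leaf 34 69 9 1 .leaf) 34 73 7
  0 (.node .leaf 34 76 0 0 .leaf)) 34 81 8 1 (.node (.node .leaf 34 84 9 1 .leaf) 34 88 7 1
  (.node .leaf 34 193 2 1 .leaf)))) 34 196 8 0 (.node (.node (.node (.node (.node .leaf 34 200 9
  0 .leaf) 34 205 9 0 .leaf) 34 208 3 1 (.node .leaf 34 213 9 0 .leaf)) 34 217 9 0 (.node (.node
  .leaf 34 220 9 0 .leaf) 34 321 9 0 (.node .leaf 34 328 7 0 .leaf))) 34 336 0 1 (.node (.node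
  (.node .leaf 34 341 7 0 .leaf) 34 345 7 0 (.node .leaf 34 348 7 0 .leaf)) 34 448 9 0 (.node
  (.node .leaf 34 453 9 0 .leaf) 34 465 9 0 (.node .leaf 34 472 9 0 .leaf)))))) 34 577 2 1
  (.node (.node (.node (.node (.node (.node (.node .leaf 34 580 7 0 .leaf) 34 584 8 0 .leaf) 34
  589 7 0 (.node .leaf 34 592 2 1 .leaf)) 34 597 7 0 (.node (.node .leaf 34 604 7 0 .leaf) 34
  704 8 0 (.node .leaf 34 709 8 0 .leaf))) 34 724 8 0 (.node (.node (.node (.node .leaf 34 728 8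
  0 .leaf) 34 832 7 0 .leaf) 34 837 7 0 (.node .leaf 34 849 7 0 .leaf)) 34 852 7 0 (.node (.node
  .leaf 34 856 7 0 .leaf) 35 68 3 1 (.node .leaf 35 72 8 0 .leaf)))) 35 80 3 1 (.node (.node
  (.node (.node (.node .leaf 35 92 7 0 .leaf) 35 156 8 0 .leaf) 35 192 3 1 (.node .leaf 35 204 9
  0 .leaf)) 35 216 9 0 (.node (.node .leaf 35 284 7 0 .leaf) 35 320 3 1 (.node .leaf 35 332 7 0
  .leaf))) 35 344 9 0 (.node (.node (.node .leaf 35 456 9 0 .leaf) 35 476 9 0 (.node .leaf 35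
  540 8 0 .leaf)) 35 576 3 1 (.node (.node .leaf 35 588 7 0 .leaf) 35 596 8 0 (.node .leaf 35
  600 7 0 .leaf))))) 35 712 8 0 (.node (.node (.node (.node (.node (.node .leaf 35 732 8 0
  .leaf) 35 840 7 0 .leaf) 35 860 7 0 (.node .leaf 36 64 3 1 .leaf)) 36 73 7 1 (.node (.node
  .leaf 36 74 4 0 .leaf) 36 88 1 0 (.node .leaf 36 200 1 0 .leaf))) 36 203 4 0 (.node (.node
  (.node .leaf 36 217 1 0 .leaf) 36 328 0 1 (.node .leaf 36 331 4 0 .leaf)) 36 345 1 0 (.node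
  (.node .leaf 36 457 9 0 .leaf) 36 584 1 0 (.node .leaf 36 713 8 0 .leaf)))) 36 841 7 0 (.node
  (.node (.node (.node (.node .leaf 37 72 7 0 .leaf) 38 65 3 1 .leaf) 38 72 9 1 (.node .leaf 38
  80 3 1 .leaf)) 38 89 8 1 (.node (.node .leaf 38 192 3 1 .leaf) 38 201 8 0 (.node .leaf 38 216
  9 0 .leaf))) 38 329 7 0 (.node (.node (.node .leaf 38 337 3 1 .leaf) 38 344 7 0 (.node .leaf
  38 456 9 0 .leaf)) 38 473 9 0 (.node (.node .leaf 38 576 3 1 .leaf) 38 585 8 0 (.node .leaf 38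
  600 8 0 .leaf))))))) 38 712 8 0 (.node (.node (.node (.node (.node (.node (.node (.node .leaf
  38 729 8 0 .leaf) 38 840 7 0 .leaf) 38 857 7 0 (.node .leaf 39 64 3 1 .leaf)) 39 88 7 0 (.node
  (.node .leaf 39 200 8 0 .leaf) 39 328 7 0 (.node .leaf 39 584 7 0 .leaf))) 40 64 2 1 (.node
  (.node (.node (.node .leaf 40 69 7 1 .leaf) 40 70 4 0 .leaf) 40 84 1 0 (.node .leaf 40 133 6 1
  .leaf)) 40 193 2 1 (.node (.node .leaf 40 196 0 1 .leaf) 40 199 4 0 (.node .leaf 40 213 1 0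
  .leaf)))) 40 261 6 1 (.node (.node (.node (.node (.node .leaf 40 321 2 1 .leaf) 40 324 0 1
  .leaf) 40 327 4 0 (.node .leaf 40 341 1 0 .leaf)) 40 453 9 0 (.node (.node .leaf 40 517 8 0
  .leaf) 40 577 2 1 (.node .leaf 40 580 1 0 .leaf))) 40 583 4 0 (.node (.node (.node .leaf 40
  597 1 0 .leaf) 40 709 8 0 (.node .leaf 40 837 7 0 .leaf)) 41 68 1 0 (.node (.node .leaf 42 65
  2 1 .leaf) 42 68 8 0 (.node .leaf 42 80 2 1 .leaf))))) 42 85 7 0 (.node (.node (.node (.node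
  (.node (.node .leaf 42 192 2 1 .leaf) 42 197 8 0 .leaf) 42 209 2 1 (.node .leaf 42 212 8 0
  .leaf)) 42 325 9 0 (.node (.node .leaf 42 337 2 1 .leaf) 42 340 9 0 (.node .leaf 42 452 9 0
  .leaf))) 42 469 9 0 (.node (.node (.node .leaf 42 576 2 1 .leaf) 42 581 7 0 (.node .leaf 42
  593 2 1 .leaf)) 42 596 7 0 (.node (.node .leaf 42 708 8 0 .leaf) 42 725 8 0 (.node .leaf 42
  836 7 0 .leaf)))) 42 853 7 0 (.node (.node (.node (.node (.node .leaf 43 64 2 1 .leaf) 43 84 7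
  0 .leaf) 43 196 8 0 (.node .leaf 43 324 7 0 .leaf)) 43 580 8 0 (.node (.node .leaf 48 64 1 1
  .leaf) 48 67 8 1 (.node .leaf 48 70 0 0 .leaf))) 48 74 8 1 (.node (.node (.node .leaf 48 194 8
  0 .leaf) 48 322 2 1 (.node .leaf 48 327 3 0 .leaf)) 48 328 1 0 (.node (.node .leaf 48 331 2 0
  .leaf) 48 334 0 0 (.node .leaf 48 451 9 0 .leaf)))))) 48 454 9 0 (.node (.node (.node (.node
  (.node (.node (.node .leaf 48 458 9 0 .leaf) 48 578 7 0 .leaf) 48 835 7 0 (.node .leaf 48 838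
  7 0 .leaf)) 48 842 7 0 (.node (.node .leaf 49 66 2 1 .leaf) 49 72 2 1 (.node .leaf 49 78 7 0
  .leaf))) 49 198 9 0 (.node (.node (.node (.node .leaf 49 202 9 0 .leaf) 49 204 8 0 .leaf) 49
  326 9 0 (.node .leaf 49 330 7 0 .leaf)) 49 332 9 0 (.node (.node .leaf 49 462 9 0 .leaf) 49
  582 8 0 (.node .leaf 49 586 8 0 .leaf)))) 49 588 7 0 (.node (.node (.node (.node (.node .leaf
  49 718 8 0 .leaf) 49 846 7 0 .leaf) 50 65 2 1 (.node .leaf 50 68 8 0 .leaf)) 50 72 9 1 (.node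
  (.node .leaf 50 77 9 0 .leaf) 50 192 3 1 (.node .leaf 50 197 9 0 .leaf))) 50 201 9 0 (.node
  (.node (.node .leaf 50 204 9 0 .leaf) 50 320 3 1 (.node .leaf 50 325 7 0 .leaf)) 50 329 7 0
  (.node (.node .leaf 50 332 9 0 .leaf) 50 456 9 0 (.node .leaf 50 576 3 1 .leaf))))) 50 581 7 0
  (.node (.node (.node (.node (.node (.node .leaf 50 585 8 0 .leaf) 50 588 8 0 .leaf) 50 712 8 0
  (.node .leaf 50 840 7 0 .leaf)) 51 64 3 1 (.node (.node .leaf 51 76 8 1 .leaf) 51 200 9 0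
  (.node .leaf 51 328 9 0 .leaf))) 51 460 9 0 (.node (.node (.node .leaf 51 584 8 0 .leaf) 51
  844 7 0 (.node .leaf 52 66 3 1 .leaf)) 52 72 1 1 (.node (.node .leaf 52 75 8 1 .leaf) 52 201 9
  0 (.node .leaf 52 202 9 0 .leaf)))) 52 323 3 1 (.node (.node (.node (.node (.node .leaf 52 329
  7 0 .leaf) 52 330 9 0 .leaf) 52 459 9 0 (.node .leaf 52 585 8 0 .leaf)) 52 586 7 0 (.node
  (.node .leaf 52 715 8 0 .leaf) 52 843 7 0 (.node .leaf 53 74 8 0 .leaf))) 54 64 3 1 (.node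
  (.node (.node .leaf 54 73 8 0 .leaf) 54 200 9 0 (.node .leaf 54 328 7 0 .leaf)) 54 584 7 0
  (.node (.node .leaf 55 72 7 0 .leaf) 56 65 2 1 (.node .leaf 56 66 2 1 .leaf)))))))) 56 68 0 1
  (.node (.node (.node (.node (.node (.node (.node (.node (.node .leaf 56 71 8 1 .leaf) 56 195 2
  1 .leaf) 56 197 9 0 (.node .leaf 56 198 9 0 .leaf)) 56 323 2 1 (.node (.node .leaf 56 325 7 0
  .leaf) 56 326 7 0 (.node .leaf 56 455 9 0 .leaf))) 56 579 2 1 (.node (.node (.node (.node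
  .leaf 56 581 7 0 .leaf) 56 582 8 0 .leaf) 56 711 8 0 (.node .leaf 56 839 7 0 .leaf)) 57 70 7 1
  (.node (.node .leaf 57 454 9 0 .leaf) 57 710 8 0 (.node .leaf 58 64 2 1 .leaf)))) 58 69 7 1
  (.node (.node (.node (.node (.node .leaf 58 196 9 0 .leaf) 58 324 7 0 .leaf) 58 453 9 0 (.node
  .leaf 58 580 7 0 .leaf)) 58 709 8 0 (.node (.node .leaf 59 68 8 0 .leaf) 64 130 5 1 (.node
  .leaf 64 144 1 0 .leaf))) 64 160 1 1 (.node (.node (.node .leaf 64 163 3 0 .leaf) 64 166 3 0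
  (.node .leaf 64 170 2 0 .leaf)) 64 178 2 0 (.node (.node .leaf 64 258 5 1 .leaf) 64 272 9 0
  (.node .leaf 64 288 1 1 .leaf))))) 64 291 3 0 (.node (.node (.node (.node (.node (.node .leaf
  64 294 3 0 .leaf) 64 298 2 0 .leaf) 64 306 2 0 (.node .leaf 64 418 9 0 .leaf)) 64 514 5 1
  (.node (.node .leaf 64 528 8 0 .leaf) 64 544 1 1 (.node .leaf 64 547 3 0 .leaf))) 64 550 3 0
  (.node (.node (.node .leaf 64 554 2 0 .leaf) 64 562 8 0 (.node .leaf 64 674 8 0 .leaf)) 64 802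
  7 0 (.node (.node .leaf 65 138 4 0 .leaf) 65 152 1 0 (.node .leaf 65 162 3 0 .leaf)))) 65 266
  4 1 (.node (.node (.node (.node (.node .leaf 65 280 9 0 .leaf) 65 286 5 0 .leaf) 65 290 9 0
  (.node .leaf 65 314 2 0 .leaf)) 65 410 9 0 (.node (.node .leaf 65 522 4 0 .leaf) 65 536 8 0
  (.node .leaf 65 546 8 0 .leaf))) 65 794 7 0 (.node (.node (.node .leaf 66 145 9 0 .leaf) 66
  148 9 0 (.node .leaf 66 152 0 0 .leaf)) 66 176 8 0 (.node (.node .leaf 66 273 9 0 .leaf) 66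
  276 7 0 (.node .leaf 66 280 0 0 .leaf)))))) 66 304 7 0 (.node (.node (.node (.node (.node
  (.node (.node .leaf 66 400 9 0 .leaf) 66 560 8 0 .leaf) 66 656 8 0 (.node .leaf 66 784 7 0
  .leaf)) 67 144 3 1 (.node (.node .leaf 67 156 5 0 .leaf) 67 184 2 0 (.node .leaf 67 272 3 1
  .leaf))) 67 284 5 0 (.node (.node (.node (.node .leaf 67 312 2 0 .leaf) 67 408 9 0 .leaf) 67
  664 8 0 (.node .leaf 67 792 7 0 .leaf)) 68 137 9 0 (.node (.node .leaf 68 138 5 1 .leaf) 68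
  152 1 0 (.node .leaf 68 162 9 0 .leaf)))) 68 168 1 1 (.node (.node (.node (.node (.node .leaf
  68 171 9 0 .leaf) 68 179 8 0 .leaf) 68 186 8 0 (.node .leaf 68 265 5 0 .leaf)) 68 266 5 1
  (.node (.node .leaf 68 280 1 0 .leaf) 68 290 7 0 (.node .leaf 68 296 1 1 .leaf))) 68 299 7 0
  (.node (.node (.node .leaf 68 307 7 0 .leaf) 68 314 7 0 (.node .leaf 68 392 9 0 .leaf)) 68 426
  9 0 (.node (.node .leaf 68 434 9 0 .leaf) 68 443 9 0 (.node .leaf 68 521 5 0 .leaf))))) 68 522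
  5 1 (.node (.node (.node (.node (.node (.node .leaf 68 536 1 0 .leaf) 68 546 8 0 .leaf) 68 552
  1 1 (.node .leaf 68 555 7 0 .leaf)) 68 570 7 0 (.node (.node .leaf 68 648 8 0 .leaf) 68 682 8
  0 (.node .leaf 68 690 8 0 .leaf))) 68 776 7 0 (.node (.node (.node .leaf 68 810 7 0 .leaf) 68
  818 7 0 (.node .leaf 68 827 7 0 .leaf)) 69 170 8 0 (.node (.node .leaf 69 178 9 0 .leaf) 69
  184 8 0 (.node .leaf 69 264 5 1 .leaf)))) 69 282 5 1 (.node (.node (.node (.node (.node .leaf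
  69 298 9 0 .leaf) 69 306 9 0 .leaf) 69 312 7 0 (.node .leaf 69 424 9 0 .leaf)) 69 442 9 0
  (.node (.node .leaf 69 520 5 1 .leaf) 69 554 7 0 (.node .leaf 69 562 7 0 .leaf))) 69 568 7 0
  (.node (.node (.node .leaf 69 680 8 0 .leaf) 69 808 7 0 (.node .leaf 69 826 7 0 .leaf)) 70 144
  0 1 (.node (.node .leaf 70 153 8 0 .leaf) 70 177 8 0 (.node .leaf 70 184 8 0 .leaf))))))) 70
  264 4 1 (.node (.node (.node (.node (.node (.node (.node (.node .leaf 70 272 3 1 .leaf) 70 281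
  7 0 .leaf) 70 305 7 0 (.node .leaf 70 312 7 0 .leaf)) 70 401 9 0 (.node (.node .leaf 70 408 9
  0 .leaf) 70 520 4 1 (.node .leaf 70 537 7 0 .leaf))) 70 561 8 0 (.node (.node (.node (.node
  .leaf 70 568 8 0 .leaf) 70 657 8 0 .leaf) 70 664 8 0 (.node .leaf 70 792 7 0 .leaf)) 71 152 5
  1 (.node (.node .leaf 71 168 4 1 .leaf) 71 280 5 1 (.node .leaf 71 296 4 1 .leaf)))) 71 440 9
  0 (.node (.node (.node (.node (.node .leaf 71 536 5 1 .leaf) 71 552 4 1 .leaf) 71 696 8 0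
  (.node .leaf 71 824 7 0 .leaf)) 72 131 5 1 (.node (.node .leaf 72 133 9 0 .leaf) 72 134 5 1
  (.node .leaf 72 145 1 0 .leaf))) 72 148 5 1 (.node (.node (.node .leaf 72 161 1 1 .leaf) 72
  162 9 0 (.node .leaf 72 164 0 1 .leaf)) 72 167 9 0 (.node (.node .leaf 72 179 9 0 .leaf) 72
  181 8 0 (.node .leaf 72 182 8 0 .leaf))))) 72 259 2 1 (.node (.node (.node (.node (.node
  (.node .leaf 72 261 1 1 .leaf) 72 262 0 1 .leaf) 72 273 1 0 (.node .leaf 72 276 9 0 .leaf)) 72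
  279 9 0 (.node (.node .leaf 72 290 7 0 .leaf) 72 292 1 1 (.node .leaf 72 295 7 0 .leaf))) 72
  307 7 0 (.node (.node (.node .leaf 72 310 7 0 .leaf) 72 391 9 0 (.node .leaf 72 419 9 0
  .leaf)) 72 421 9 0 (.node (.node .leaf 72 422 9 0 .leaf) 72 433 9 0 (.node .leaf 72 436 9 0
  .leaf)))) 72 439 9 0 (.node (.node (.node (.node (.node .leaf 72 515 2 1 .leaf) 72 517 1 1
  .leaf) 72 518 0 1 (.node .leaf 72 529 2 1 .leaf)) 72 532 7 0 (.node (.node .leaf 72 535 8 0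
  .leaf) 72 546 7 0 (.node .leaf 72 548 1 1 .leaf))) 72 551 7 0 (.node (.node (.node .leaf 72
  563 8 0 .leaf) 72 565 7 0 (.node .leaf 72 566 7 0 .leaf)) 72 647 8 0 (.node (.node .leaf 72
  661 8 0 .leaf) 72 675 8 0 (.node .leaf 72 677 8 0 .leaf)))))) 72 678 8 0 (.node (.node (.node
  (.node (.node (.node (.node .leaf 72 689 8 0 .leaf) 72 692 8 0 .leaf) 72 695 8 0 (.node .leaf
  72 775 7 0 .leaf)) 72 789 7 0 (.node (.node .leaf 72 803 7 0 .leaf) 72 806 7 0 (.node .leaf 73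
  166 8 0 .leaf))) 73 178 8 0 (.node (.node (.node .leaf 73 180 8 0 .leaf) 73 294 7 0 (.node
  .leaf 73 308 9 0 .leaf)) 73 418 9 0 (.node (.node .leaf 73 438 9 0 .leaf) 73 550 7 0 (.node
  .leaf 73 564 8 0 .leaf)))) 73 674 8 0 (.node (.node (.node (.node (.node .leaf 73 822 7 0
  .leaf) 74 144 0 1 .leaf) 74 149 9 0 (.node .leaf 74 165 4 1 .leaf)) 74 177 9 0 (.node (.node
  .leaf 74 180 8 0 .leaf) 74 272 0 1 (.node .leaf 74 277 7 0 .leaf))) 74 305 7 0 (.node (.node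
  (.node .leaf 74 308 9 0 .leaf) 74 401 9 0 (.node .leaf 74 437 9 0 .leaf)) 74 533 8 0 (.node
  (.node .leaf 74 564 8 0 .leaf) 74 657 8 0 (.node .leaf 74 693 8 0 .leaf))))) 74 785 7 0 (.node
  (.node (.node (.node (.node (.node .leaf 74 821 7 0 .leaf) 76 163 9 0 .leaf) 76 177 8 0 (.node
  .leaf 76 178 9 0 .leaf)) 76 291 7 0 (.node (.node .leaf 76 305 9 0 .leaf) 76 306 7 0 (.node
  .leaf 76 547 7 0 .leaf))) 76 561 8 0 (.node (.node (.node .leaf 77 162 8 0 .leaf) 77 690 8 0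
  (.node .leaf 77 818 7 0 .leaf)) 78 145 5 1 (.node (.node .leaf 78 161 4 1 .leaf) 78 273 5 1
  (.node .leaf 78 433 9 0 .leaf)))) 78 689 8 0 (.node (.node (.node (.node (.node .leaf 78 817 7
  0 .leaf) 80 162 3 0 .leaf) 80 290 3 0 (.node .leaf 80 546 3 0 .leaf)) 81 142 5 0 (.node (.node
  .leaf 81 170 2 0 .leaf) 81 394 9 0 (.node .leaf 81 526 5 0 .leaf))) 81 554 2 0 (.node (.node
  (.node .leaf 81 650 8 0 .leaf) 81 778 7 0 (.node .leaf 84 139 8 0 .leaf)) 84 170 8 0 (.node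
  (.node .leaf 84 264 1 1 .leaf) 84 267 9 0 (.node .leaf 84 298 7 0 .leaf)))))))))) 84 394 9 0
  (.node (.node (.node (.node (.node (.node (.node (.node (.node (.node (.node .leaf 84 427 9 0
  .leaf) 84 520 1 1 .leaf) 84 523 8 0 (.node .leaf 84 554 7 0 .leaf)) 84 650 8 0 (.node (.node
  .leaf 84 683 8 0 .leaf) 84 778 7 0 (.node .leaf 85 138 5 1 .leaf))) 85 266 5 1 (.node (.node
  (.node (.node .leaf 85 296 1 1 .leaf) 85 426 9 0 .leaf) 85 522 5 1 (.node .leaf 85 552 1 1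
  .leaf)) 85 682 8 0 (.node (.node .leaf 85 810 7 0 .leaf) 88 135 9 0 (.node .leaf 88 163 9 0
  .leaf)))) 88 165 1 1 (.node (.node (.node (.node (.node .leaf 88 166 9 0 .leaf) 88 263 9 0
  .leaf) 88 291 7 0 (.node .leaf 88 294 7 0 .leaf)) 88 418 9 0 (.node (.node .leaf 88 423 9 0
  .leaf) 88 519 7 0 (.node .leaf 88 547 7 0 .leaf))) 88 550 8 0 (.node (.node (.node .leaf 88
  674 8 0 .leaf) 88 679 8 0 (.node .leaf 88 802 7 0 .leaf)) 89 162 8 0 (.node (.node .leaf 89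
  290 7 0 .leaf) 89 546 8 0 (.node .leaf 92 161 1 1 .leaf))))) 92 162 9 0 (.node (.node (.node
  (.node (.node (.node .leaf 92 290 9 0 .leaf) 92 419 9 0 .leaf) 92 546 7 0 (.node .leaf 92 675
  8 0 .leaf)) 96 134 8 0 (.node (.node .leaf 96 148 8 0 .leaf) 96 262 9 0 (.node .leaf 96 276 9
  0 .leaf))) 96 518 8 0 (.node (.node (.node .leaf 96 532 8 0 .leaf) 97 142 8 0 (.node .leaf 97
  156 8 0 .leaf)) 97 270 9 0 (.node (.node .leaf 97 282 2 1 .leaf) 97 284 7 0 (.node .leaf 97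
  414 9 0 .leaf)))) 97 526 8 0 (.node (.node (.node (.node (.node .leaf 97 540 8 0 .leaf) 97 652
  8 0 .leaf) 97 780 7 0 (.node .leaf 97 798 7 0 .leaf)) 98 144 0 1 (.node (.node .leaf 98 149 8
  0 .leaf) 98 153 8 0 (.node .leaf 98 272 0 1 .leaf))) 98 277 7 0 (.node (.node (.node .leaf 98
  281 7 0 .leaf) 98 401 9 0 (.node .leaf 98 657 8 0 .leaf)) 98 785 7 0 (.node (.node .leaf 99
  152 2 1 .leaf) 99 280 2 1 (.node .leaf 99 412 9 0 .leaf)))))) 99 524 4 1 (.node (.node (.node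
  (.node (.node (.node (.node .leaf 99 668 8 0 .leaf) 99 796 7 0 .leaf) 100 139 8 0 (.node .leaf
  100 153 8 0 .leaf)) 100 264 0 1 (.node (.node .leaf 100 267 7 0 .leaf) 100 281 7 0 (.node
  .leaf 100 393 9 0 .leaf))) 100 411 9 0 (.node (.node (.node (.node .leaf 100 520 0 1 .leaf)
  100 523 8 0 .leaf) 100 537 7 0 (.node .leaf 100 649 8 0 .leaf)) 100 667 8 0 (.node (.node
  .leaf 100 777 7 0 .leaf) 102 145 3 1 (.node .leaf 102 152 0 1 .leaf)))) 102 265 4 1 (.node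
  (.node (.node (.node (.node .leaf 102 273 3 1 .leaf) 102 280 0 1 .leaf) 102 409 9 0 (.node
  .leaf 102 521 4 1 .leaf)) 102 536 0 1 (.node (.node .leaf 102 665 8 0 .leaf) 102 793 7 0
  (.node .leaf 104 135 8 0 .leaf))) 104 149 8 0 (.node (.node (.node .leaf 104 263 7 0 .leaf)
  104 277 9 0 (.node .leaf 104 519 8 0 .leaf)) 104 533 7 0 (.node (.node .leaf 106 145 2 1
  .leaf) 106 273 2 1 (.node .leaf 106 405 9 0 .leaf))))) 106 661 8 0 (.node (.node (.node (.node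
  (.node (.node .leaf 106 789 7 0 .leaf) 113 138 2 1 .leaf) 113 398 9 0 (.node .leaf 113 522 2 1
  .leaf)) 113 524 1 1 (.node (.node .leaf 113 654 8 0 .leaf) 113 782 7 0 (.node .leaf 116 265 1
  1 .leaf))) 116 266 0 1 (.node (.node (.node .leaf 116 395 9 0 .leaf) 116 521 1 1 (.node .leaf
  116 522 0 1 .leaf)) 116 651 8 0 (.node (.node .leaf 116 779 7 0 .leaf) 128 320 9 1 (.node
  .leaf 128 576 0 0 .leaf)))) 128 833 3 0 (.node (.node (.node (.node (.node .leaf 128 834 4 0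
  .leaf) 128 836 3 0 .leaf) 128 840 5 0 (.node .leaf 128 848 1 0 .leaf)) 128 864 0 0 (.node
  (.node .leaf 129 328 9 1 .leaf) 129 578 4 0 (.node .leaf 129 580 3 0 .leaf))) 129 584 8 1
  (.node (.node (.node .leaf 129 592 1 0 .leaf) 129 608 8 1 (.node .leaf 129 832 1 0 .leaf)) 129
  842 4 0 (.node (.node .leaf 129 844 5 0 .leaf) 129 856 1 0 (.node .leaf 129 866 4 0
  .leaf))))))) 129 868 3 0 (.node (.node (.node (.node (.node (.node (.node (.node .leaf 129 872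
  2 0 .leaf) 129 880 1 0 .leaf) 130 336 9 1 (.node .leaf 130 592 0 0 .leaf)) 130 832 4 1 (.node
  (.node .leaf 130 849 5 0 .leaf) 130 852 5 0 (.node .leaf 130 856 5 0 .leaf))) 130 880 0 0
  (.node (.node (.node (.node .leaf 131 344 5 0 .leaf) 131 576 8 1 .leaf) 131 596 5 0 (.node
  .leaf 131 600 2 0 .leaf)) 131 624 8 1 (.node (.node .leaf 131 836 3 0 .leaf) 131 840 2 0
  (.node .leaf 131 848 2 1 .leaf)))) 131 860 5 0 (.node (.node (.node (.node (.node .leaf 131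
  864 4 1 .leaf) 131 884 3 0 .leaf) 131 888 2 0 (.node .leaf 132 328 9 1 .leaf)) 132 352 9 1
  (.node (.node .leaf 132 608 8 1 .leaf) 132 832 3 1 (.node .leaf 132 841 5 0 .leaf))) 132 842 4
  0 (.node (.node (.node .leaf 132 856 1 0 .leaf) 132 865 3 0 (.node .leaf 132 866 4 0 .leaf))
  132 872 0 0 (.node (.node .leaf 132 880 1 0 .leaf) 133 360 1 0 (.node .leaf 133 576 3 1
  .leaf))))) 133 586 4 0 (.node (.node (.node (.node (.node (.node .leaf 133 600 1 0 .leaf) 133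
  616 1 0 .leaf) 133 840 4 0 (.node .leaf 133 864 3 1 .leaf)) 133 874 4 0 (.node (.node .leaf
  133 888 1 0 .leaf) 134 337 9 1 (.node .leaf 134 344 5 0 .leaf))) 134 353 3 0 (.node (.node
  (.node .leaf 134 360 0 0 .leaf) 134 368 9 1 (.node .leaf 134 624 8 1 .leaf)) 134 840 0 0
  (.node (.node .leaf 134 848 3 1 .leaf) 134 857 5 0 (.node .leaf 134 864 4 1 .leaf)))) 134 881
  3 0 (.node (.node (.node (.node (.node .leaf 134 888 0 0 .leaf) 135 296 4 1 .leaf) 135 352 3 1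
  (.node .leaf 135 592 3 1 .leaf)) 135 832 3 1 (.node (.node .leaf 135 880 3 1 .leaf) 136 321 9
  1 (.node .leaf 136 324 9 0 .leaf))) 136 577 8 1 (.node (.node (.node .leaf 136 580 0 0 .leaf)
  136 832 0 1 (.node .leaf 136 835 4 0 .leaf)) 136 837 5 0 (.node (.node .leaf 136 838 4 0
  .leaf) 136 849 1 0 (.node .leaf 136 852 1 0 .leaf)))))) 136 865 2 0 (.node (.node (.node
  (.node (.node (.node (.node .leaf 136 868 0 0 .leaf) 137 356 4 0 .leaf) 137 576 2 1 (.node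
  .leaf 137 582 4 0 .leaf)) 137 596 1 0 (.node (.node .leaf 137 612 4 0 .leaf) 137 836 1 0
  (.node .leaf 137 864 4 0 .leaf))) 137 870 4 0 (.node (.node (.node (.node .leaf 137 884 1 0
  .leaf) 138 337 9 1 .leaf) 138 340 5 0 (.node .leaf 138 593 8 1 .leaf)) 138 596 5 0 (.node
  (.node .leaf 138 833 4 1 .leaf) 138 836 5 0 (.node .leaf 138 848 2 1 .leaf)))) 138 853 5 0
  (.node (.node (.node (.node (.node .leaf 138 881 2 0 .leaf) 138 884 0 0 .leaf) 139 592 2 1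
  (.node .leaf 139 832 2 1 .leaf)) 139 880 2 1 (.node (.node .leaf 140 353 1 0 .leaf) 140 609 4
  0 (.node .leaf 140 833 5 1 .leaf))) 140 864 4 0 (.node (.node (.node .leaf 140 867 4 0 .leaf)
  140 881 1 0 (.node .leaf 142 352 0 1 .leaf)) 142 849 5 1 (.node (.node .leaf 142 880 0 1
  .leaf) 144 322 9 1 (.node .leaf 144 578 8 1 .leaf))))) 144 832 1 1 (.node (.node (.node (.node
  (.node (.node .leaf 144 835 2 0 .leaf) 144 838 0 0 .leaf) 144 842 2 0 (.node .leaf 144 866 0 0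
  .leaf)) 145 326 5 0 (.node (.node .leaf 145 330 2 0 .leaf) 145 354 2 0 (.node .leaf 145 576 1
  1 .leaf))) 145 582 3 0 (.node (.node (.node .leaf 145 586 5 0 .leaf) 145 610 3 0 (.node .leaf
  145 834 5 1 .leaf)) 145 840 5 0 (.node (.node .leaf 145 846 5 0 .leaf) 145 864 3 0 (.node
  .leaf 145 870 3 0 .leaf)))) 145 874 2 0 (.node (.node (.node (.node (.node .leaf 147 832 3 1
  .leaf) 147 844 5 0 .leaf) 147 872 2 0 (.node .leaf 148 330 0 0 .leaf)) 148 353 3 0 (.node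
  (.node .leaf 148 354 0 0 .leaf) 148 360 0 0 (.node .leaf 148 579 8 1 .leaf))) 148 586 0 0
  (.node (.node (.node .leaf 148 610 3 0 .leaf) 148 834 5 1 (.node .leaf 148 840 0 0 .leaf)) 148
  843 5 0 (.node (.node .leaf 148 864 3 0 .leaf) 148 867 3 0 (.node .leaf 148 874 0 0
  .leaf)))))))) 149 296 6 1 (.node (.node (.node (.node (.node (.node (.node (.node (.node .leaf
  149 352 3 1 .leaf) 149 578 5 1 .leaf) 150 352 9 1 (.node .leaf 150 865 3 0 .leaf)) 150 872 0 0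
  (.node (.node .leaf 151 808 6 1 .leaf) 151 864 3 1 (.node .leaf 152 323 9 1 .leaf))) 152 325 5
  0 (.node (.node (.node (.node .leaf 152 326 5 0 .leaf) 152 353 2 0 .leaf) 152 579 8 1 (.node
  .leaf 152 582 5 0 .leaf)) 152 833 1 1 (.node (.node .leaf 152 834 5 1 .leaf) 152 836 0 0
  (.node .leaf 152 839 5 0 .leaf)))) 152 867 2 0 (.node (.node (.node (.node (.node .leaf 152
  870 0 0 .leaf) 153 578 5 1 .leaf) 154 321 9 0 (.node .leaf 155 864 2 1 .leaf)) 156 321 5 1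
  (.node (.node .leaf 156 352 0 1 .leaf) 156 578 5 1 (.node .leaf 156 608 0 1 .leaf))) 156 835 5
  1 (.node (.node (.node .leaf 157 864 1 1 .leaf) 158 864 0 1 (.node .leaf 160 328 1 0 .leaf))
  160 832 3 1 (.node (.node .leaf 160 841 1 0 .leaf) 160 842 4 0 (.node .leaf 160 844 1 0
  .leaf))))) 160 856 1 0 (.node (.node (.node (.node (.node (.node .leaf 161 264 9 0 .leaf) 161
  270 4 0 .leaf) 161 284 1 0 (.node .leaf 161 332 4 0 .leaf)) 161 520 8 0 (.node (.node .leaf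
  161 526 6 0 .leaf) 161 540 1 0 (.node .leaf 161 576 8 0 .leaf))) 161 588 1 0 (.node (.node
  (.node .leaf 161 840 4 0 .leaf) 161 846 4 0 (.node .leaf 161 860 1 0 .leaf)) 162 320 2 1
  (.node (.node .leaf 162 337 3 1 .leaf) 162 576 3 1 (.node .leaf 162 833 3 1 .leaf)))) 162 848
  2 1 (.node (.node (.node (.node (.node .leaf 163 592 2 1 .leaf) 163 832 2 1 .leaf) 164 329 4 0
  (.node .leaf 164 840 1 0 .leaf)) 164 843 4 0 (.node (.node .leaf 164 857 1 0 .leaf) 165 328 1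
  0 (.node .leaf 165 584 4 0 .leaf))) 166 832 3 1 (.node (.node (.node .leaf 166 849 3 1 .leaf)
  168 263 4 0 (.node .leaf 168 325 1 0 .leaf)) 168 519 6 0 (.node (.node .leaf 168 581 1 0
  .leaf) 168 833 2 1 (.node .leaf 168 836 4 0 .leaf)))))) 168 839 4 0 (.node (.node (.node
  (.node (.node (.node (.node .leaf 168 853 1 0 .leaf) 169 580 4 0 .leaf) 170 832 2 1 (.node
  .leaf 170 849 2 1 .leaf)) 176 323 9 1 (.node (.node .leaf 176 326 0 0 .leaf) 176 330 0 0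
  (.node .leaf 176 579 8 1 .leaf))) 176 582 3 0 (.node (.node (.node (.node .leaf 176 586 0 0
  .leaf) 176 834 3 1 .leaf) 176 839 3 0 (.node .leaf 176 840 0 0 .leaf)) 176 843 2 0 (.node
  (.node .leaf 176 846 0 0 .leaf) 177 322 3 1 (.node .leaf 177 578 3 1 .leaf)))) 178 832 3 1
  (.node (.node (.node (.node (.node .leaf 180 322 3 1 .leaf) 180 578 3 1 .leaf) 180 835 3 1
  (.node .leaf 184 321 2 1 .leaf)) 184 322 2 1 (.node (.node .leaf 184 578 2 1 .leaf) 184 835 2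
  1 (.node .leaf 192 256 9 0 .leaf))) 192 290 3 0 (.node (.node (.node .leaf 192 512 8 0 .leaf)
  192 546 2 0 (.node .leaf 192 803 2 0 .leaf)) 192 806 3 0 (.node (.node .leaf 192 810 2 0
  .leaf) 192 818 3 0 (.node .leaf 193 264 9 1 .leaf))))) 193 282 9 1 (.node (.node (.node (.node
  (.node (.node .leaf 193 284 5 0 .leaf) 193 312 2 0 .leaf) 193 520 8 0 (.node .leaf 193 778 4 0
  .leaf)) 193 780 5 0 (.node (.node .leaf 193 792 1 1 .leaf) 193 798 5 0 (.node .leaf 193 802 2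
  0 .leaf))) 193 808 2 0 (.node (.node (.node .leaf 193 826 2 0 .leaf) 194 272 5 1 (.node .leaf
  194 277 5 0 .leaf)) 194 284 5 0 (.node (.node .leaf 194 305 2 0 .leaf) 194 308 3 0 (.node
  .leaf 194 312 2 0 .leaf)))) 194 528 8 0 (.node (.node (.node (.node (.node .leaf 194 785 2 0
  .leaf) 194 788 0 0 .leaf) 194 792 2 0 (.node .leaf 194 816 2 0 .leaf)) 195 276 9 1 (.node
  (.node .leaf 195 280 9 0 .leaf) 195 304 9 1 (.node .leaf 195 536 8 0 .leaf))) 195 776 4 1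
  (.node (.node (.node .leaf 195 784 5 1 .leaf) 195 796 5 0 (.node .leaf 195 820 3 0 .leaf)) 195
  824 2 0 (.node (.node .leaf 196 264 9 0 .leaf) 196 282 0 1 (.node .leaf 196 520 8 1
  .leaf))))))) 196 538 0 1 (.node (.node (.node (.node (.node (.node (.node (.node .leaf 196 777
  4 1 .leaf) 196 778 0 1 .leaf) 196 792 0 1 (.node .leaf 196 808 1 1 .leaf)) 197 280 5 1 (.node
  (.node .leaf 197 296 4 1 .leaf) 197 552 1 1 (.node .leaf 197 776 5 1 .leaf))) 197 794 5 1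
  (.node (.node (.node (.node .leaf 198 280 0 1 .leaf) 198 304 3 1 .leaf) 198 536 5 1 (.node
  .leaf 198 776 4 1 .leaf)) 198 784 5 1 (.node (.node .leaf 199 792 5 1 .leaf) 199 808 4 1
  (.node .leaf 199 816 3 1 .leaf)))) 200 257 9 0 (.node (.node (.node (.node (.node .leaf 200
  260 9 0 .leaf) 200 513 8 0 .leaf) 200 516 8 0 (.node .leaf 200 534 5 1 .leaf)) 200 788 0 1
  (.node (.node .leaf 201 292 4 1 .leaf) 201 532 5 1 (.node .leaf 201 548 1 1 .leaf))) 202 273 2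
  1 (.node (.node (.node .leaf 202 276 5 1 .leaf) 202 304 0 1 (.node .leaf 202 529 2 1 .leaf))
  202 532 5 1 (.node (.node .leaf 202 784 0 1 .leaf) 203 788 5 1 (.node .leaf 203 816 2 1
  .leaf))))) 204 289 4 1 (.node (.node (.node (.node (.node (.node .leaf 204 545 4 1 .leaf) 206
  785 5 1 .leaf) 206 816 0 1 (.node .leaf 208 258 9 0 .leaf)) 208 514 8 0 (.node (.node .leaf
  208 802 2 0 .leaf) 209 266 9 0 (.node .leaf 209 522 8 0 .leaf))) 209 776 1 1 (.node (.node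
  (.node .leaf 209 782 5 0 .leaf) 209 810 2 0 (.node .leaf 212 266 0 1 .leaf)) 212 522 5 1
  (.node (.node .leaf 212 776 1 1 .leaf) 213 778 5 1 (.node .leaf 213 808 1 1 .leaf)))) 216 259
  5 1 (.node (.node (.node (.node (.node .leaf 216 262 5 1 .leaf) 216 515 5 1 .leaf) 216 518 0 1
  (.node .leaf 224 260 9 0 .leaf)) 224 284 1 0 (.node (.node .leaf 224 516 4 1 .leaf) 224 533 3
  0 (.node .leaf 224 534 8 1 .leaf))) 224 540 0 0 (.node (.node (.node .leaf 224 788 1 1 .leaf)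
  224 791 3 0 (.node .leaf 224 798 0 0 .leaf)) 225 268 4 1 (.node (.node .leaf 225 280 2 1
  .leaf) 225 524 1 1 (.node .leaf 225 532 3 1 .leaf)))))) 225 776 2 1 (.node (.node (.node
  (.node (.node (.node (.node .leaf 225 790 3 1 .leaf) 225 794 2 1 .leaf) 226 273 2 1 (.node
  .leaf 226 276 3 1 .leaf)) 226 532 0 1 (.node (.node .leaf 226 784 3 1 .leaf) 227 780 4 1
  (.node .leaf 227 788 3 1 .leaf))) 227 792 2 1 (.node (.node (.node .leaf 228 265 4 1 .leaf)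
  228 521 1 1 (.node .leaf 228 776 0 1 .leaf)) 230 777 4 1 (.node (.node .leaf 230 785 3 1
  .leaf) 230 792 0 1 (.node .leaf 232 261 4 1 .leaf)))) 232 517 1 1 (.node (.node (.node (.node
  (.node .leaf 232 532 0 1 .leaf) 232 790 0 1 .leaf) 234 785 2 1 (.node .leaf 240 262 9 0
  .leaf)) 240 518 8 0 (.node (.node .leaf 241 778 2 1 .leaf) 241 780 1 1 (.node .leaf 244 777 1
  1 .leaf))) 244 778 0 1 (.node (.node (.node .leaf 256 576 7 1 .leaf) 256 705 3 0 (.node .leaf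
  256 706 4 0 .leaf)) 256 708 3 0 (.node (.node .leaf 256 712 2 0 .leaf) 256 720 1 0 (.node
  .leaf 256 736 0 0 .leaf))))) 257 578 4 0 (.node (.node (.node (.node (.node (.node .leaf 257
  580 3 0 .leaf) 257 584 2 0 .leaf) 257 592 1 0 (.node .leaf 257 608 7 1 .leaf)) 257 704 5 1
  (.node (.node .leaf 257 714 4 0 .leaf) 257 716 5 0 (.node .leaf 257 728 1 0 .leaf))) 257 738 4
  0 (.node (.node (.node .leaf 257 740 3 0 .leaf) 257 744 2 0 (.node .leaf 257 752 1 0 .leaf))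
  258 592 0 0 (.node (.node .leaf 258 704 5 0 .leaf) 258 721 3 0 (.node .leaf 258 724 5 0
  .leaf)))) 258 728 5 0 (.node (.node (.node (.node (.node .leaf 258 752 0 0 .leaf) 259 576 4 1
  .leaf) 259 596 5 0 (.node .leaf 259 600 5 0 .leaf)) 259 624 7 1 (.node (.node .leaf 259 712 5
  0 .leaf) 259 720 5 1 (.node .leaf 259 732 5 0 .leaf))) 259 736 4 1 (.node (.node (.node .leaf
  259 756 3 0 .leaf) 259 760 2 0 (.node .leaf 260 608 4 0 .leaf)) 260 704 5 1 (.node (.node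
  .leaf 260 713 5 0 .leaf) 260 714 4 0 (.node .leaf 260 728 1 0 .leaf))))))))) 260 737 3 0
  (.node (.node (.node (.node (.node (.node (.node (.node (.node (.node .leaf 260 738 4 0 .leaf)
  260 744 0 0 .leaf) 260 752 1 0 (.node .leaf 261 576 3 1 .leaf)) 261 586 4 0 (.node (.node
  .leaf 261 600 1 0 .leaf) 261 616 4 0 (.node .leaf 261 712 4 0 .leaf))) 261 736 4 0 (.node
  (.node (.node (.node .leaf 261 746 4 0 .leaf) 261 760 1 0 .leaf) 262 609 3 0 (.node .leaf 262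
  616 0 0 .leaf)) 262 624 7 1 (.node (.node .leaf 262 712 0 0 .leaf) 262 720 3 1 (.node .leaf
  262 729 5 0 .leaf)))) 262 736 4 1 (.node (.node (.node (.node (.node .leaf 262 753 3 0 .leaf)
  262 760 0 0 .leaf) 263 592 3 1 (.node .leaf 263 608 3 1 .leaf)) 263 752 3 1 (.node (.node
  .leaf 264 577 4 0 .leaf) 264 580 7 0 (.node .leaf 264 675 6 0 .leaf))) 264 677 6 0 (.node
  (.node (.node .leaf 264 689 6 0 .leaf) 264 704 5 1 (.node .leaf 264 707 4 0 .leaf)) 264 709 5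
  0 (.node (.node .leaf 264 710 4 0 .leaf) 264 721 1 0 (.node .leaf 264 724 1 0 .leaf))))) 264
  737 2 0 (.node (.node (.node (.node (.node (.node .leaf 264 738 4 0 .leaf) 264 740 0 0 .leaf)
  264 752 1 0 (.node .leaf 265 576 2 1 .leaf)) 265 582 4 0 (.node (.node .leaf 265 596 1 0
  .leaf) 265 612 4 0 (.node .leaf 265 708 1 0 .leaf))) 265 736 2 1 (.node (.node (.node .leaf
  265 742 4 0 .leaf) 265 756 1 0 (.node .leaf 266 593 7 1 .leaf)) 266 596 0 0 (.node (.node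
  .leaf 266 673 4 1 .leaf) 266 693 6 0 (.node .leaf 266 705 4 1 .leaf)))) 266 708 0 0 (.node
  (.node (.node (.node (.node .leaf 266 720 2 1 .leaf) 266 725 5 0 .leaf) 266 736 4 0 (.node
  .leaf 266 753 2 0 .leaf)) 266 756 0 0 (.node (.node .leaf 267 592 2 1 .leaf) 267 752 2 1
  (.node .leaf 268 609 4 0 .leaf))) 268 673 4 0 (.node (.node (.node .leaf 268 705 5 1 .leaf)
  268 736 4 0 (.node .leaf 268 739 4 0 .leaf)) 268 753 1 0 (.node (.node .leaf 270 608 0 1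
  .leaf) 270 721 5 1 (.node .leaf 270 752 0 1 .leaf)))))) 272 577 3 0 (.node (.node (.node
  (.node (.node (.node (.node .leaf 272 578 0 0 .leaf) 272 580 3 0 .leaf) 272 584 2 0 (.node
  .leaf 272 608 2 0 .leaf)) 272 704 1 1 (.node (.node .leaf 272 707 3 0 .leaf) 272 710 3 0
  (.node .leaf 272 714 2 0 .leaf))) 272 738 3 0 (.node (.node (.node (.node .leaf 273 576 1 1
  .leaf) 273 582 5 0 .leaf) 273 586 5 0 (.node .leaf 273 610 2 0 .leaf)) 273 706 3 1 (.node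
  (.node .leaf 273 712 5 0 .leaf) 273 718 5 0 (.node .leaf 273 736 2 0 .leaf)))) 273 742 3 0
  (.node (.node (.node (.node (.node .leaf 273 746 2 0 .leaf) 274 576 5 0 .leaf) 276 576 3 1
  (.node .leaf 276 585 5 0 .leaf)) 276 586 0 0 (.node (.node .leaf 276 609 3 0 .leaf) 276 610 0
  0 (.node .leaf 276 616 0 0 .leaf))) 276 706 5 1 (.node (.node (.node .leaf 276 712 5 0 .leaf)
  276 715 5 0 (.node .leaf 276 736 1 1 .leaf)) 276 739 3 0 (.node (.node .leaf 276 746 0 0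
  .leaf) 277 578 5 1 (.node .leaf 277 608 3 1 .leaf))))) 278 584 0 0 (.node (.node (.node (.node
  (.node (.node .leaf 278 608 7 1 .leaf) 278 737 3 0 .leaf) 278 744 0 0 (.node .leaf 279 680 6 1
  .leaf)) 279 736 3 1 (.node (.node .leaf 280 576 0 1 .leaf) 280 579 7 0 (.node .leaf 280 581 5
  0 .leaf))) 280 582 0 0 (.node (.node (.node .leaf 280 609 2 0 .leaf) 280 612 0 0 (.node .leaf
  280 673 2 0 .leaf)) 280 705 1 0 (.node (.node .leaf 280 706 2 1 .leaf) 280 708 5 0 (.node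
  .leaf 280 711 5 0 .leaf)))) 280 736 1 1 (.node (.node (.node (.node (.node .leaf 280 739 2 0
  .leaf) 280 742 0 0 .leaf) 281 578 2 1 (.node .leaf 282 577 7 1 .leaf)) 282 580 5 0 (.node
  (.node .leaf 282 709 5 0 .leaf) 282 737 2 0 (.node .leaf 282 740 0 0 .leaf))) 283 736 2 1
  (.node (.node (.node .leaf 284 577 5 1 .leaf) 284 608 1 1 (.node .leaf 284 707 5 1 .leaf)) 285
  736 1 1 (.node (.node .leaf 286 673 6 1 .leaf) 286 705 5 1 (.node .leaf 286 736 0 1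
  .leaf))))))) 288 704 1 0 (.node (.node (.node (.node (.node (.node (.node (.node .leaf 289 576
  7 0 .leaf) 289 588 1 0 .leaf) 289 712 1 0 (.node .leaf 289 718 4 0 .leaf)) 289 732 1 0 (.node
  (.node .leaf 290 576 2 1 .leaf) 290 593 2 1 (.node .leaf 290 705 3 1 .leaf))) 290 720 2 1
  (.node (.node (.node (.node .leaf 291 592 2 1 .leaf) 291 704 2 1 .leaf) 292 712 4 0 (.node
  .leaf 292 715 4 0 .leaf)) 292 729 1 0 (.node (.node .leaf 293 584 4 0 .leaf) 294 577 3 1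
  (.node .leaf 294 704 3 1 .leaf)))) 296 519 4 0 (.node (.node (.node (.node (.node .leaf 296
  533 6 0 .leaf) 296 581 1 0 .leaf) 296 645 6 1 (.node .leaf 296 705 2 1 .leaf)) 296 708 1 0
  (.node (.node .leaf 296 711 4 0 .leaf) 296 725 1 0 (.node .leaf 297 580 4 0 .leaf))) 298 517 4
  1 (.node (.node (.node .leaf 298 577 2 1 .leaf) 298 704 2 1 (.node .leaf 298 721 2 1 .leaf))
  304 576 1 0 (.node (.node .leaf 304 706 2 1 .leaf) 304 711 3 0 (.node .leaf 304 718 0 0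
  .leaf))))) 305 578 3 1 (.node (.node (.node (.node (.node (.node .leaf 306 577 2 1 .leaf) 306
  704 3 1 .leaf) 307 576 2 1 (.node .leaf 310 576 3 1 .leaf)) 312 517 6 1 (.node (.node .leaf
  312 577 2 1 .leaf) 312 707 2 1 (.node .leaf 314 576 2 1 .leaf))) 314 705 2 1 (.node (.node
  (.node .leaf 320 512 7 0 .leaf) 320 529 1 0 (.node .leaf 320 530 5 1 .leaf)) 320 532 7 0
  (.node (.node .leaf 320 536 7 1 .leaf) 320 546 3 0 (.node .leaf 320 560 3 0 .leaf)))) 320 563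
  3 0 (.node (.node (.node (.node (.node .leaf 320 566 3 0 .leaf) 320 570 2 0 .leaf) 320 656 3 1
  (.node .leaf 320 665 2 0 .leaf)) 320 666 0 0 (.node (.node .leaf 320 668 5 0 .leaf) 320 675 2
  0 (.node .leaf 320 678 3 0 .leaf))) 320 682 2 0 (.node (.node (.node .leaf 320 690 2 0 .leaf)
  320 696 2 0 (.node .leaf 321 520 7 0 .leaf)) 321 528 3 1 (.node (.node .leaf 321 538 7 1
  .leaf) 321 540 5 0 (.node .leaf 321 550 3 0 .leaf)))))) 321 554 2 0 (.node (.node (.node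
  (.node (.node (.node (.node .leaf 321 562 2 0 .leaf) 321 568 2 0 .leaf) 321 664 1 0 (.node
  .leaf 321 670 5 0 .leaf)) 321 674 2 0 (.node (.node .leaf 321 698 2 0 .leaf) 322 528 7 0
  (.node .leaf 322 533 5 0 .leaf))) 322 537 2 0 (.node (.node (.node (.node .leaf 322 540 5 0
  .leaf) 322 561 2 0 .leaf) 322 564 3 0 (.node .leaf 322 568 2 0 .leaf)) 322 657 2 0 (.node
  (.node .leaf 322 660 3 0 .leaf) 322 664 5 0 (.node .leaf 322 688 2 0 .leaf)))) 323 536 7 1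
  (.node (.node (.node (.node (.node .leaf 323 560 7 0 .leaf) 323 656 3 1 .leaf) 323 668 5 0
  (.node .leaf 323 696 2 0 .leaf)) 324 520 7 1 (.node (.node .leaf 324 528 3 1 .leaf) 324 538 0
  1 (.node .leaf 324 649 1 1 .leaf))) 324 650 5 1 (.node (.node (.node .leaf 324 664 0 1 .leaf)
  324 680 1 1 (.node .leaf 325 536 5 1 .leaf)) 325 552 1 1 (.node (.node .leaf 325 648 5 1
  .leaf) 325 666 5 1 (.node .leaf 326 529 3 1 .leaf))))) 326 536 5 1 (.node (.node (.node (.node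
  (.node (.node .leaf 326 560 3 1 .leaf) 326 648 4 1 .leaf) 326 656 3 1 (.node .leaf 327 664 5 1
  .leaf)) 327 680 4 1 (.node (.node .leaf 327 688 3 1 .leaf) 328 513 7 0 (.node .leaf 328 516 7
  0 .leaf))) 328 528 5 1 (.node (.node (.node .leaf 328 544 1 1 .leaf) 328 673 1 1 (.node .leaf
  328 688 0 1 .leaf)) 329 548 4 1 (.node (.node .leaf 329 560 1 1 .leaf) 330 529 2 1 (.node
  .leaf 330 532 0 1 .leaf)))) 330 560 0 1 (.node (.node (.node (.node (.node .leaf 330 656 2 1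
  .leaf) 330 677 4 1 .leaf) 331 660 5 1 (.node .leaf 332 545 4 1 .leaf)) 332 560 1 1 (.node
  (.node .leaf 334 657 5 1 .leaf) 334 673 4 1 (.node .leaf 334 688 0 1 .leaf))) 336 514 7 0
  (.node (.node (.node .leaf 336 674 2 0 .leaf) 337 518 7 0 (.node .leaf 337 522 7 0 .leaf)) 337
  546 2 0 (.node (.node .leaf 337 654 5 0 .leaf) 337 682 2 0 (.node .leaf 340 522 5 1
  .leaf)))))))) 340 648 1 1 (.node (.node (.node (.node (.node (.node (.node (.node (.node .leaf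
  341 650 5 1 .leaf) 341 680 1 1 .leaf) 344 515 2 1 (.node .leaf 344 518 0 1 .leaf)) 344 677 1 1
  (.node (.node .leaf 348 673 1 1 .leaf) 352 516 1 1 (.node .leaf 352 519 3 0 .leaf))) 352 526 0
  0 (.node (.node (.node (.node .leaf 352 528 2 1 .leaf) 352 533 1 0 .leaf) 352 534 7 0 (.node
  .leaf 352 540 1 0 .leaf)) 352 646 4 0 (.node (.node .leaf 352 660 3 1 .leaf) 352 664 1 0
  (.node .leaf 352 669 1 0 .leaf)))) 352 670 0 0 (.node (.node (.node (.node (.node .leaf 353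
  518 3 1 .leaf) 353 524 4 1 .leaf) 353 532 3 1 (.node .leaf 353 536 2 1 .leaf)) 353 666 2 1
  (.node (.node .leaf 354 529 2 1 .leaf) 354 532 0 1 (.node .leaf 354 536 2 1 .leaf))) 354 656 3
  1 (.node (.node (.node .leaf 355 652 4 1 .leaf) 355 664 2 1 (.node .leaf 356 521 1 1 .leaf))
  356 536 0 1 (.node (.node .leaf 356 648 0 1 .leaf) 358 649 4 1 (.node .leaf 358 657 3 1
  .leaf))))) 358 664 0 1 (.node (.node (.node (.node (.node (.node .leaf 360 517 1 1 .leaf) 360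
  518 0 1 .leaf) 360 532 0 1 (.node .leaf 362 657 2 1 .leaf)) 362 660 0 1 (.node (.node .leaf
  368 518 7 0 .leaf) 368 647 3 0 (.node .leaf 368 654 0 0 .leaf))) 369 646 3 1 (.node (.node
  (.node .leaf 369 650 2 1 .leaf) 369 652 1 1 (.node .leaf 372 649 1 1 .leaf)) 372 650 0 1
  (.node (.node .leaf 376 646 0 1 .leaf) 385 576 5 0 (.node .leaf 387 592 3 1 .leaf)))) 387 604
  5 0 (.node (.node (.node (.node (.node .leaf 387 632 2 0 .leaf) 389 584 1 0 .leaf) 390 608 4 1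
  (.node .leaf 390 625 3 0 .leaf)) 390 632 0 0 (.node (.node .leaf 391 624 3 1 .leaf) 392 581 5
  0 (.node .leaf 392 582 4 0 .leaf))) 392 596 1 0 (.node (.node (.node .leaf 392 612 0 0 .leaf)
  393 580 1 0 (.node .leaf 393 614 4 0 .leaf)) 393 628 1 0 (.node (.node .leaf 394 580 5 0
  .leaf) 394 597 5 0 (.node .leaf 394 625 2 0 .leaf)))))) 394 628 0 0 (.node (.node (.node
  (.node (.node (.node (.node .leaf 398 593 5 1 .leaf) 398 624 0 1 .leaf) 400 576 2 0 (.node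
  .leaf 400 579 3 0 .leaf)) 400 582 3 0 (.node (.node .leaf 400 586 0 0 .leaf) 400 610 3 0
  (.node .leaf 401 578 5 0 .leaf))) 401 590 5 0 (.node (.node (.node (.node .leaf 401 614 3 0
  .leaf) 401 618 2 0 .leaf) 404 577 1 1 (.node .leaf 404 578 0 1 .leaf)) 404 584 0 0 (.node
  (.node .leaf 404 587 5 0 .leaf) 404 608 3 0 (.node .leaf 404 611 3 0 .leaf)))) 405 576 3 1
  (.node (.node (.node (.node (.node .leaf 406 576 3 1 .leaf) 406 585 5 0 .leaf) 406 616 0 0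
  (.node .leaf 408 577 1 1 .leaf)) 408 578 2 1 (.node (.node .leaf 408 580 0 0 .leaf) 408 583 5
  0 (.node .leaf 408 611 2 0 .leaf))) 408 614 0 0 (.node (.node (.node .leaf 410 581 5 0 .leaf)
  410 609 2 0 (.node .leaf 412 576 5 1 .leaf)) 412 579 5 1 (.node (.node .leaf 413 608 1 1
  .leaf) 414 577 5 1 (.node .leaf 414 608 0 1 .leaf))))) 417 522 4 0 (.node (.node (.node (.node
  (.node (.node .leaf 417 524 6 0 .leaf) 417 536 1 0 .leaf) 417 542 6 0 (.node .leaf 417 578 4 0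
  .leaf)) 417 580 1 0 (.node (.node .leaf 417 584 1 0 .leaf) 417 590 4 0 (.node .leaf 417 592 1
  0 .leaf))) 417 604 1 0 (.node (.node (.node .leaf 418 577 2 1 .leaf) 418 592 2 1 (.node .leaf
  419 520 6 1 .leaf)) 419 576 3 1 (.node (.node .leaf 421 520 6 1 .leaf) 421 576 3 1 (.node
  .leaf 421 586 4 0 .leaf)))) 421 600 1 0 (.node (.node (.node (.node (.node .leaf 422 576 3 1
  .leaf) 423 536 6 1 .leaf) 423 592 3 1 (.node .leaf 424 517 1 1 .leaf)) 424 535 6 0 (.node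
  (.node .leaf 424 580 1 0 .leaf) 424 583 4 0 (.node .leaf 424 597 1 0 .leaf))) 425 576 2 1
  (.node (.node (.node .leaf 425 582 4 0 .leaf) 425 596 1 0 (.node .leaf 426 576 2 1 .leaf)) 426
  593 2 1 (.node (.node .leaf 427 592 2 1 .leaf) 432 578 0 0 (.node .leaf 433 520 6 1
  .leaf))))))) 433 576 2 1 (.node (.node (.node (.node (.node (.node (.node (.node .leaf 434 576
  2 1 .leaf) 436 576 3 1 .leaf) 436 579 3 1 (.node .leaf 437 522 6 1 .leaf)) 437 578 3 1 (.node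
  (.node .leaf 440 579 2 1 .leaf) 441 578 2 1 (.node .leaf 442 577 2 1 .leaf))) 448 513 3 0
  (.node (.node (.node (.node .leaf 448 514 4 0 .leaf) 448 516 4 1 .leaf) 448 520 2 0 (.node
  .leaf 448 528 1 0 .leaf)) 448 533 3 0 (.node (.node .leaf 448 534 5 0 .leaf) 448 540 5 0
  (.node .leaf 448 544 1 1 .leaf)))) 448 547 2 0 (.node (.node (.node (.node (.node .leaf 448
  550 3 0 .leaf) 448 554 2 0 .leaf) 448 562 2 0 (.node .leaf 448 564 3 0 .leaf)) 449 512 3 1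
  (.node (.node .leaf 449 522 4 0 .leaf) 449 524 5 0 (.node .leaf 449 532 1 0 .leaf))) 449 536 1
  0 (.node (.node (.node .leaf 449 546 3 0 .leaf) 449 552 2 0 (.node .leaf 450 512 4 1 .leaf))
  450 529 5 0 (.node (.node .leaf 450 532 0 0 .leaf) 450 536 0 0 (.node .leaf 450 560 2 0
  .leaf))))) 451 520 4 1 (.node (.node (.node (.node (.node (.node .leaf 451 528 5 1 .leaf) 451
  540 5 0 .leaf) 451 564 3 0 (.node .leaf 451 568 2 0 .leaf)) 452 512 3 1 (.node (.node .leaf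
  452 521 1 1 .leaf) 452 522 0 1 (.node .leaf 452 536 0 1 .leaf))) 452 552 4 1 (.node (.node
  (.node .leaf 453 520 5 1 .leaf) 453 538 5 1 (.node .leaf 454 520 4 1 .leaf)) 454 528 3 1
  (.node (.node .leaf 455 536 5 1 .leaf) 455 552 4 1 (.node .leaf 455 560 3 1 .leaf)))) 456 512
  0 1 (.node (.node (.node (.node (.node .leaf 456 515 2 1 .leaf) 456 517 4 1 .leaf) 456 518 0 1
  (.node .leaf 456 529 5 1 .leaf)) 456 532 0 1 (.node (.node .leaf 456 545 4 1 .leaf) 456 548 1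
  1 (.node .leaf 456 560 1 1 .leaf))) 457 516 5 1 (.node (.node (.node .leaf 457 544 1 1 .leaf)
  458 513 4 1 (.node .leaf 458 516 4 1 .leaf)) 458 528 5 1 (.node (.node .leaf 458 544 4 1
  .leaf) 459 532 5 1 (.node .leaf 459 548 4 1 .leaf)))))) 459 560 2 1 (.node (.node (.node
  (.node (.node (.node (.node .leaf 460 513 5 1 .leaf) 460 544 1 1 .leaf) 462 529 5 1 (.node
  .leaf 462 545 4 1 .leaf)) 462 560 0 1 (.node (.node .leaf 464 512 1 1 .leaf) 464 515 3 0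
  (.node .leaf 464 518 3 0 .leaf))) 464 522 2 0 (.node (.node (.node .leaf 464 546 2 0 .leaf)
  465 514 5 1 (.node .leaf 465 520 1 1 .leaf)) 465 526 5 0 (.node (.node .leaf 465 550 3 0
  .leaf) 465 554 2 0 (.node .leaf 468 514 5 1 .leaf)))) 468 520 1 1 (.node (.node (.node (.node
  (.node .leaf 469 522 5 1 .leaf) 469 552 1 1 .leaf) 472 513 1 1 (.node .leaf 472 514 5 1
  .leaf)) 472 516 1 1 (.node (.node .leaf 472 544 1 1 .leaf) 473 518 5 1 (.node .leaf 473 548 1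
  1 .leaf))) 476 515 5 1 (.node (.node (.node .leaf 476 545 1 1 .leaf) 480 512 2 1 (.node .leaf
  480 517 3 0 .leaf)) 480 518 4 1 (.node (.node .leaf 480 524 0 0 .leaf) 480 532 1 0 (.node
  .leaf 480 535 3 0 .leaf))))) 480 541 1 0 (.node (.node (.node (.node (.node (.node .leaf 480
  542 0 0 .leaf) 481 516 3 1 .leaf) 481 520 2 1 (.node .leaf 481 534 3 1 .leaf)) 482 516 4 1
  (.node (.node .leaf 482 528 2 1 .leaf) 483 524 4 1 (.node .leaf 483 532 3 1 .leaf))) 483 536 2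
  1 (.node (.node (.node .leaf 484 520 0 1 .leaf) 484 538 0 1 (.node .leaf 486 521 4 1 .leaf))
  486 529 3 1 (.node (.node .leaf 486 536 0 1 .leaf) 488 513 2 1 (.node .leaf 488 516 0 1
  .leaf)))) 488 534 0 1 (.node (.node (.node (.node (.node .leaf 490 517 4 1 .leaf) 490 529 2 1
  .leaf) 490 532 0 1 (.node .leaf 496 514 3 1 .leaf)) 496 516 1 1 (.node (.node .leaf 496 519 3
  0 .leaf) 496 523 2 0 (.node .leaf 496 526 0 0 .leaf))) 497 518 3 1 (.node (.node (.node .leaf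
  497 522 2 1 .leaf) 497 524 1 1 (.node .leaf 500 521 1 1 .leaf)) 500 522 0 1 (.node (.node
  .leaf 504 515 2 1 .leaf) 504 517 1 1 (.node .leaf 504 518 0 1 .leaf)))))))))))

theorem tSKB_all : tSKB.all (stepA 10 lSKB tSKB) = true := by decide +kernel

theorem tSKB_0 : respA 10 lSKB tSKB 0 0 = true := by decide +kernel

end Pool.Agent.Lib.MP_2ce84e_co
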