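import Pool.Agent.Lib.MP_2ce84e_co.Deg.Cert

/-!
# The tables for the graphs with 7 vertices
-/

set_option autoImplicit false
set_option maxRecDepth 20000

namespace Pool.Agent.Lib.MP_2ce84e_co

/-- The minimal closed neighbourhoods (bit masks). -/
def lSA : List ℕ := [15, 44, 82, 101, 105]

/-- Alice, who begins, wins on `S`. -/
def tSA : Tr :=
  (.node (.node (.node (.node (.node (.node (.node .leaf 0 0 5 1 .leaf) 0 33 3 0 .leaf) 0 34 3 0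
  (.node (.node .leaf 0 36 3 0 .leaf) 0 40 2 0 .leaf)) 0 48 3 0 (.node (.node (.node .leaf 0 96
  3 0 .leaf) 1 32 3 0 .leaf) 2 32 3 0 (.node (.node .leaf 4 32 3 1 .leaf) 4 41 6 0 .leaf))) 4 42
  6 0 (.node (.node (.node (.node .leaf 4 56 6 0 .leaf) 4 104 0 0 .leaf) 5 40 6 1 (.node (.node
  .leaf 5 106 4 0 .leaf) 5 120 1 0 .leaf)) 6 40 0 0 (.node (.node (.node .leaf 8 32 0 0 .leaf) 8
  35 6 0 .leaf) 8 37 6 0 (.node (.node .leaf 8 38 6 0 .leaf) 8 49 6 0 .leaf)))) 8 50 6 0 (.node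
  (.node (.node (.node (.node .leaf 8 52 6 0 .leaf) 8 97 2 0 .leaf) 8 98 4 0 (.node (.node .leaf
  8 100 0 0 .leaf) 8 112 1 0 .leaf)) 9 34 4 0 (.node (.node (.node .leaf 9 36 6 1 .leaf) 9 48 6
  0 .leaf) 9 96 2 1 (.node (.node .leaf 9 102 4 0 .leaf) 9 116 1 0 .leaf))) 10 33 2 0 (.node
  (.node (.node (.node .leaf 10 36 0 0 .leaf) 10 48 6 1 .leaf) 10 96 4 1 (.node (.node .leaf 10
  113 2 0 .leaf) 10 116 0 0 .leaf)) 11 32 2 1 (.node (.node (.node .leaf 11 112 2 1 .leaf) 12 33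
  6 1 .leaf) 12 34 6 0 (.node (.node .leaf 12 48 6 0 .leaf) 12 96 4 0 .leaf))))) 12 99 4 0
  (.node (.node (.node (.node (.node (.node .leaf 12 113 1 0 .leaf) 13 32 1 1 .leaf) 13 50 6 0
  (.node (.node .leaf 13 98 4 0 .leaf) 14 32 0 1 .leaf)) 14 112 0 1 (.node (.node (.node .leaf
  16 32 3 0 .leaf) 20 40 0 0 .leaf) 23 40 6 1 (.node (.node .leaf 24 33 1 1 .leaf) 24 34 0 0
  .leaf))) 24 36 1 1 (.node (.node (.node (.node .leaf 24 39 6 0 .leaf) 24 96 0 0 .leaf) 24 99 2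
  0 (.node (.node .leaf 24 102 0 0 .leaf) 25 32 1 1 .leaf)) 26 32 6 1 (.node (.node (.node .leaf
  26 97 2 0 .leaf) 26 100 0 0 .leaf) 27 36 6 1 (.node (.node .leaf 27 96 2 1 .leaf) 28 32 1 1
  .leaf)))) 29 96 1 1 (.node (.node (.node (.node (.node .leaf 30 33 6 1 .leaf) 30 96 0 1 .leaf)
  32 64 3 1 (.node (.node .leaf 32 73 1 0 .leaf) 32 74 4 0 .leaf)) 32 76 1 0 (.node (.node
  (.node .leaf 32 88 1 0 .leaf) 33 72 1 0 .leaf) 33 78 4 0 (.node (.node .leaf 36 72 4 0 .leaf)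
  36 75 4 0 .leaf))) 37 74 4 0 (.node (.node (.node (.node .leaf 37 88 1 0 .leaf) 40 68 4 0
  .leaf) 40 71 4 0 (.node (.node .leaf 40 85 1 0 .leaf) 41 70 4 0 .leaf)) 41 84 1 0 (.node
  (.node (.node .leaf 48 72 2 0 .leaf) 48 75 2 0 .leaf) 48 77 1 0 (.node .leaf 48 78 0 0
  .leaf))))))

theorem tSA_all : tSA.all (stepA 7 lSA tSA) = true := by decide +kernel

theorem tSA_0 : tSA.mem 0 0 = true := by decide +kernel

/-- The minimal closed neighbourhoods (bit masks). -/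
def lSB : List ℕ := [15, 44, 82, 101, 105]

/-- Bob, who begins, wins on `S`. -/
def tSB : Tr :=
  (.node (.node (.node (.node (.node .leaf 0 0 6 0 .leaf) 0 65 5 1 .leaf) 0 68 5 1 (.node (.node
  .leaf 0 72 5 1 .leaf) 0 96 3 1 .leaf)) 1 64 4 1 (.node (.node (.node .leaf 2 64 5 1 .leaf) 2
  112 0 0 .leaf) 3 80 5 1 (.node (.node .leaf 3 96 4 1 .leaf) 4 64 3 0 .leaf))) 6 96 4 1 (.node
  (.node (.node (.node .leaf 8 64 2 0 .leaf) 10 96 4 1 .leaf) 12 96 4 1 (.node (.node .leaf 16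
  64 5 1 .leaf) 16 98 2 1 .leaf)) 17 96 1 0 (.node (.node (.node .leaf 18 96 2 0 .leaf) 20 96 1
  0 .leaf) 24 96 1 0 (.node (.node .leaf 32 64 1 1 .leaf) 48 66 0 1 .leaf))))

theorem tSB_all : tSB.all (stepB 7 lSB tSB) = true := by decide +kernel

theorem tSB_0 : tSB.mem 0 0 = true := by decide +kernel

/-- The minimal closed neighbourhoods (bit masks). -/
def lTA : List ℕ := [31, 41, 46, 81, 86, 99, 101]

/-- Alice, who begins, wins on `T`. -/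
def tTA : Tr :=
  (.node (.node (.node (.node (.node (.node (.node .leaf 0 0 3 1 .leaf) 0 9 5 0 .leaf) 0 10 2 0
  (.node (.node .leaf 0 12 1 0 .leaf) 0 24 6 0 .leaf)) 0 40 0 0 (.node (.node (.node .leaf 0 72
  0 0 .leaf) 1 8 6 1 .leaf) 1 42 2 0 (.node (.node .leaf 1 44 1 0 .leaf) 1 56 1 0 .leaf))) 1 74
  2 0 (.node (.node (.node (.node .leaf 1 76 1 0 .leaf) 1 88 2 0 .leaf) 1 104 2 0 (.node (.node
  .leaf 2 8 2 1 .leaf) 2 13 5 0 .leaf)) 2 28 6 0 (.node (.node (.node .leaf 2 44 0 0 .leaf) 2 76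
  0 0 .leaf) 3 12 6 1 (.node (.node .leaf 3 40 4 1 .leaf) 4 8 1 1 .leaf)))) 4 11 5 0 (.node
  (.node (.node (.node (.node .leaf 4 26 6 0 .leaf) 4 42 0 0 .leaf) 4 74 0 0 (.node (.node .leaf
  5 10 6 1 .leaf) 5 40 4 1 .leaf)) 8 16 5 1 (.node (.node (.node .leaf 8 32 0 0 .leaf) 8 49 6 0
  .leaf) 8 50 6 0 (.node (.node .leaf 8 52 6 0 .leaf) 8 64 4 0 .leaf))) 8 112 0 0 (.node (.node
  (.node (.node .leaf 9 34 2 0 .leaf) 9 36 1 0 .leaf) 9 48 6 0 (.node (.node .leaf 9 96 4 0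
  .leaf) 9 114 2 0 .leaf)) 9 116 1 0 (.node (.node (.node .leaf 10 20 6 0 .leaf) 10 36 0 0
  .leaf) 10 48 0 0 (.node .leaf 10 68 4 0 .leaf))))) 11 32 4 1 (.node (.node (.node (.node
  (.node (.node .leaf 12 18 6 0 .leaf) 12 34 0 0 .leaf) 12 48 6 0 (.node (.node .leaf 12 66 4 0
  .leaf) 13 32 4 1 .leaf)) 17 40 6 1 (.node (.node (.node .leaf 17 72 2 0 .leaf) 17 106 2 0
  .leaf) 17 108 1 0 (.node (.node .leaf 18 77 5 0 .leaf) 18 108 0 0 .leaf))) 19 44 6 1 (.node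
  (.node (.node (.node .leaf 20 75 5 0 .leaf) 20 106 0 0 .leaf) 21 42 6 1 (.node (.node .leaf 24
  65 5 0 .leaf) 24 66 2 0 .leaf)) 24 68 1 0 (.node (.node (.node .leaf 24 96 0 0 .leaf) 25 32 6
  1 .leaf) 25 64 5 1 (.node .leaf 26 64 2 1 .leaf)))) 26 69 5 0 (.node (.node (.node (.node
  (.node .leaf 26 100 0 0 .leaf) 27 36 6 1 .leaf) 27 68 5 1 (.node (.node .leaf 27 96 2 1 .leaf)
  28 64 1 1 .leaf)) 28 67 5 0 (.node (.node (.node .leaf 28 98 0 0 .leaf) 29 34 6 1 .leaf) 29 66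
  5 1 (.node (.node .leaf 29 96 1 1 .leaf) 32 73 4 0 .leaf))) 33 72 4 0 (.node (.node (.node
  (.node .leaf 34 77 4 0 .leaf) 36 75 4 0 .leaf) 40 65 4 0 (.node (.node .leaf 42 69 4 0 .leaf)
  44 67 4 0 .leaf)) 56 64 0 1 (.node (.node (.node .leaf 58 65 2 1 .leaf) 58 68 0 1 .leaf) 60 65
  1 1 (.node .leaf 60 66 0 1 .leaf))))))

theorem tTA_all : tTA.all (stepA 7 lTA tTA) = true := by decide +kernel

theorem tTA_0 : tTA.mem 0 0 = true := by decide +kernel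

/-- The minimal closed neighbourhoods (bit masks). -/
def lTB : List ℕ := [31, 41, 46, 81, 86, 99, 101]

/-- Bob, who begins, wins on `T`. -/
def tTB : Tr :=
  (.node (.node (.node (.node (.node .leaf 0 0 4 1 .leaf) 0 18 6 1 .leaf) 0 20 6 1 (.node (.node
  .leaf 0 24 0 1 .leaf) 0 48 0 1 .leaf)) 1 16 5 0 (.node (.node (.node .leaf 2 16 0 1 .leaf) 4
  16 0 1 .leaf) 8 16 5 0 (.node .leaf 16 32 6 0 .leaf))) 16 64 3 0 (.node (.node (.node (.node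
  .leaf 17 66 2 1 .leaf) 17 68 1 1 .leaf) 24 33 1 0 (.node .leaf 24 65 2 0 .leaf)) 24 66 2 0
  (.node (.node (.node .leaf 24 68 1 1 .leaf) 24 96 0 1 .leaf) 26 64 0 0 (.node .leaf 28 64 0 1
  .leaf))))

theorem tTB_all : tTB.all (stepB 7 lTB tTB) = true := by decide +kernel

theorem tTB_0 : tTB.mem 0 0 = true := by decide +kernel

end Pool.Agent.Lib.MP_2ce84e_co
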