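import Pool.Agent.Lib.MP_2ce84e_co.Deg.Cert

/-!
# The table for the union of `T` and a triangle
-/

set_option autoImplicit false
set_option maxRecDepth 20000

namespace Pool.Agent.Lib.MP_2ce84e_co

/-- The minimal closed neighbourhoods (bit masks). -/
def lTKA : List ℕ := [31, 41, 46, 81, 86, 99, 101, 896]

/-- Bob wins on the union of `T` and a triangle if Alice begins. -/
def tTKA : Tr :=
  (.node (.node (.node (.node (.node (.node (.node .leaf 0 1 6 1 .leaf) 0 2 2 1 (.node .leaf 0 4 1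
  1 .leaf)) 0 7 6 1 (.node (.node .leaf 0 8 9 1 .leaf) 0 16 5 0 .leaf)) 0 32 4 0 (.node (.node
  (.node .leaf 0 64 0 1 .leaf) 0 128 8 1 (.node .leaf 0 134 6 1 .leaf)) 0 256 7 1 (.node (.node
  .leaf 0 262 7 1 .leaf) 0 512 3 1 .leaf))) 0 518 3 1 (.node (.node (.node (.node .leaf 0 522 5
  1 .leaf) 0 524 5 1 (.node .leaf 0 536 0 1 .leaf)) 0 584 0 1 (.node (.node .leaf 1 6 3 0 .leaf)
  1 520 8 1 .leaf)) 2 520 0 1 (.node (.node (.node .leaf 4 520 7 1 .leaf) 6 8 0 1 (.node .leaf 6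
  16 5 0 .leaf)) 6 32 0 1 (.node (.node .leaf 6 64 0 1 .leaf) 6 128 4 0 .leaf)))) 6 256 4 0
  (.node (.node (.node (.node (.node .leaf 6 512 5 0 .leaf) 9 38 9 0 (.node .leaf 14 33 8 1
  .leaf)) 16 34 6 0 (.node (.node .leaf 16 36 0 1 .leaf) 16 65 5 1 .leaf)) 16 96 0 1 (.node
  (.node (.node .leaf 16 160 6 0 .leaf) 16 198 5 1 (.node .leaf 16 288 3 1 .leaf)) 16 520 6 0
  (.node (.node .leaf 16 544 6 0 .leaf) 18 32 3 1 .leaf))) 20 32 6 0 (.node (.node (.node (.node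
  .leaf 22 65 7 0 .leaf) 22 192 3 0 (.node .leaf 22 320 3 0 .leaf)) 24 32 2 1 (.node (.node
  .leaf 24 38 7 0 .leaf) 24 164 8 1 .leaf)) 24 292 7 1 (.node (.node (.node .leaf 24 548 7 1
  .leaf) 26 36 7 0 .leaf) 32 144 6 1 (.node (.node .leaf 32 272 6 1 .leaf) 32 520 7 1 .leaf)))))
  32 526 4 1 (.node (.node (.node (.node (.node (.node .leaf 32 528 3 0 .leaf) 34 521 2 0 (.node
  .leaf 36 152 9 1 .leaf)) 36 280 9 1 (.node (.node .leaf 36 536 7 1 .leaf) 38 520 6 0 .leaf))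
  64 520 4 0 (.node (.node (.node .leaf 128 520 8 0 .leaf) 129 776 6 0 (.node .leaf 142 289 9 0
  .leaf)) 150 321 9 1 (.node (.node .leaf 150 577 8 1 .leaf) 152 294 9 1 .leaf))) 152 550 8 1
  (.node (.node (.node (.node .leaf 154 292 9 1 .leaf) 154 548 8 0 (.node .leaf 164 792 1 1
  .leaf)) 166 521 8 1 (.node (.node .leaf 193 792 5 0 .leaf) 256 520 7 0 .leaf)) 260 648 0 1
  (.node (.node (.node .leaf 280 676 1 0 .leaf) 288 648 4 1 .leaf) 288 666 2 1 (.node (.node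
  .leaf 288 668 0 0 .leaf) 289 526 7 1 .leaf)))) 289 664 6 0 (.node (.node (.node (.node (.node
  .leaf 290 664 2 1 .leaf) 292 649 1 0 (.node .leaf 292 664 1 0 .leaf)) 294 521 7 0 (.node
  (.node .leaf 352 664 1 1 .leaf) 384 512 3 1 .leaf)) 384 522 5 1 (.node (.node (.node .leaf 384
  524 5 1 .leaf) 384 536 0 1 (.node .leaf 384 584 0 1 .leaf)) 385 520 6 0 (.node (.node .leaf
  386 520 0 1 .leaf) 388 520 0 1 .leaf))) 390 512 0 1 (.node (.node (.node (.node .leaf 400 520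
  6 0 .leaf) 416 520 4 1 (.node .leaf 416 538 0 0 .leaf)) 416 540 0 0 (.node (.node .leaf 417
  536 6 0 .leaf) 418 521 2 0 .leaf)) 418 536 2 0 (.node (.node (.node .leaf 420 521 1 0 .leaf)
  420 536 1 1 .leaf) 448 520 4 0 (.node (.node .leaf 449 536 5 0 .leaf) 480 536 1 1 .leaf))))))

theorem tTKA_all : tTKA.all (stepB 10 lTKA tTKA) = true := by decide +kernel

theorem tTKA_0 : respB 10 lTKA tTKA 0 0 = true := by decide +kernel

end Pool.Agent.Lib.MP_2ce84e_co
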