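import Pool.Agent.Lib.MP_2ce84e_co.Deg.Basic
import Pool.Agent.Lib.MP_2ce84e_co.Values

/-!
# A vertex of degree 2: Bob wins with three colours
-/

set_option autoImplicit false

namespace Pool.Agent.Lib.MP_2ce84e_co

section three

variable {V : Type} [Finite V] (G : SimpleGraph V) (x z₁ z₂ : V)
  (hN : ∀ y, (y = x ∨ G.Adj x y) ↔ (y = x ∨ y = z₁ ∨ y = z₂))

include hN

/-- Two equal colours in a closed neighbourhood with three vertices. -/
theorem not_win_rep : ∀ (m : ℕ) (t : Bool) (p : V → Option (Fin 3)), unc p = m →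
    ∀ (y z : V) (c : Fin 3), y ≠ z → (y = x ∨ G.Adj x y) → (z = x ∨ G.Adj x z) →
      p y = some c → p z = some c → ¬ Win G 3 m t p := by
  classical
  intro m
  induction m with
  | zero =>
    intro t p _ y z c hyz hy hz hpy hpz hw
    have h1 : ∀ (c : Fin 3), ∃ w, (w = x ∨ G.Adj x w) ∧ p w = some c := by
      intro c
      cases t <;> exact hw x c
    choose w hw1 hw2 using h1
    have h2 : ∀ v, (v = x ∨ G.Adj x v) → ∃ i : Fin 3, v = ![x, z₁, z₂] i := by
      intro v hv
      rcases (hN v).1 hv with h | h | h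
      · exact ⟨0, h⟩
      · exact ⟨1, h⟩
      · exact ⟨2, h⟩
    choose i hi using fun d => h2 (w d) (hw1 d)
    have hinj : Function.Injective i := by
      intro d d' hd
      have h3 : w d = w d' := by rw [hi d, hi d', hd]
      have h4 := hw2 d
      rw [h3, hw2 d'] at h4
      exact (Option.some_injective _ h4).symm
    have hsurj := Finite.injective_iff_surjective.1 hinj
    have key : ∀ v, (v = x ∨ G.Adj x v) → p v = some c → v = w c := by
      intro v hv hpv
      obtain ⟨j, hj⟩ := h2 v hv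
      obtain ⟨d, hd⟩ := hsurj j
      have h5 : v = w d := by rw [hj, ← hd, ← hi d]
      rw [h5, hw2 d] at hpv
      rw [h5, Option.some_injective _ hpv]
    exact hyz ((key y hy hpy).trans (key z hz hpz).symm)
  | succ m ih =>
    intro t p hu y z c hyz hy hz hpy hpz hw
    have h1 : ∃ p', Move p p' ∧ Win G 3 m (!t) p' := by
      cases t
      · obtain ⟨v, hv⟩ := exists_unc hu
        exact ⟨_, move_update p v hv 0, hw _ (move_update p v hv 0)⟩
      · exact hw
    obtain ⟨p', hm, hw'⟩ := h1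
    have hu' : unc p' = m := by have := unc_move hm; omega
    obtain ⟨v, hv, -, hvw⟩ := hm
    have h2 : ∀ y, p y = some c → p' y = some c := by
      intro y hy
      rw [hvw y, hy]
      rintro rfl
      rw [hv] at hy
      simp at hy
    exact ih (!t) p' hu' y z c hyz hy hz (h2 y hpy) (h2 z hpz) hw'

/-- Bob to move, the closed neighbourhood has a coloured and a free vertex. -/
theorem not_win_bob3 (m : ℕ) (p : V → Option (Fin 3)) (hu : unc p = m) (y z : V) (c : Fin 3)
    (hy : y = x ∨ G.Adj x y) (hz : z = x ∨ G.Adj x z) (hpy : p y = some c) (hpz : p z = none) :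
    ¬ Win G 3 m false p := by
  classical
  intro hw
  obtain ⟨m', rfl⟩ : ∃ m', m = m' + 1 := by
    have h1 : 0 < unc p := by
      rw [unc, Set.ncard_pos (Set.toFinite _)]
      exact ⟨z, hpz⟩
    exact ⟨m - 1, by omega⟩
  have hne : y ≠ z := by
    rintro rfl
    rw [hpy] at hpz
    simp at hpz
  have hm := move_update p z hpz c
  exact not_win_rep G x z₁ z₂ hN m' true _ (by have := unc_move hm; omega) y z c hne hy hz
    (by rw [Function.update_of_ne hne]; exact hpy) (by rw [Function.update_self]) (hw _ hm)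

variable (h1 : x ≠ z₁) (h2 : x ≠ z₂) (h3 : z₁ ≠ z₂)

include h1 h2 h3

omit h1 h2 in
/-- Alice to move, `x` is coloured, its neighbours are free. -/
theorem not_win_alice3 (m : ℕ) (p : V → Option (Fin 3)) (hu : unc p = m) (c : Fin 3)
    (hx : p x = some c) (hz₁ : p z₁ = none) (hz₂ : p z₂ = none) : ¬ Win G 3 m true p := by
  classical
  intro hw
  obtain ⟨m', rfl⟩ : ∃ m', m = m' + 1 := by
    have h4 : 0 < unc p := by
      rw [unc, Set.ncard_pos (Set.toFinite _)]
      exact ⟨z₁, hz₁⟩
    exact ⟨m - 1, by omega⟩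
  obtain ⟨p', hm, hw'⟩ := hw
  have hu' : unc p' = m' := by have := unc_move hm; omega
  obtain ⟨v, hv, -, hvw⟩ := hm
  have hx' : p' x = some c := by
    rw [hvw x, hx]
    rintro rfl
    rw [hv] at hx
    simp at hx
  by_cases hv1 : v = z₁
  · have h5 : p' z₂ = none := by
      rw [hvw z₂ (by rw [hv1]; exact h3.symm), hz₂]
    exact not_win_bob3 G x z₁ z₂ hN m' p' hu' x z₂ c (Or.inl rfl)
      ((hN z₂).2 (Or.inr (Or.inr rfl))) hx' h5 hw'
  · have h5 : p' z₁ = none := by
      rw [hvw z₁ (Ne.symm hv1), hz₁]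
    exact not_win_bob3 G x z₁ z₂ hN m' p' hu' x z₁ c (Or.inl rfl)
      ((hN z₁).2 (Or.inr (Or.inl rfl))) hx' h5 hw'

theorem three_bob : ¬ Win G 3 (Nat.card V) false fun _ => none := by
  classical
  intro hw
  obtain ⟨m, hm⟩ : ∃ m, Nat.card V = m + 1 := by
    have : 0 < Nat.card V := by
      have : Nonempty V := ⟨x⟩
      exact Nat.card_pos
    exact ⟨Nat.card V - 1, by omega⟩
  rw [hm] at hw
  have hmv := move_update (fun _ : V => (none : Option (Fin 3))) x rfl 0
  refine not_win_alice3 G x z₁ z₂ hN h3 m _ ?_ 0 (Function.update_self ..) ?_ ?_ (hw _ hmv)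
  · have h4 := unc_move hmv
    rw [unc_start, hm] at h4
    omega
  · rw [Function.update_of_ne h1.symm]
  · rw [Function.update_of_ne h2.symm]

theorem three_alice : ¬ Win G 3 (Nat.card V) true fun _ => none := by
  classical
  intro hw
  obtain ⟨m, hm⟩ : ∃ m, Nat.card V = m + 1 := by
    have : 0 < Nat.card V := by
      have : Nonempty V := ⟨x⟩
      exact Nat.card_pos
    exact ⟨Nat.card V - 1, by omega⟩
  rw [hm] at hw
  obtain ⟨p', hmv, hw'⟩ := hw
  have hu' : unc p' = m := by
    have h4 := unc_move hmv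
    rw [unc_start, hm] at h4
    omega
  obtain ⟨v, -, hv, hvw⟩ := hmv
  obtain ⟨c, hc⟩ := Option.ne_none_iff_exists'.1 hv
  by_cases hvx : v = x
  · subst hvx
    exact not_win_bob3 G v z₁ z₂ hN m p' hu' v z₁ c (Or.inl rfl)
      ((hN z₁).2 (Or.inr (Or.inl rfl))) hc (hvw z₁ h1.symm) hw'
  by_cases hv1 : v = z₁
  · subst hv1
    exact not_win_bob3 G x v z₂ hN m p' hu' v x c ((hN v).2 (Or.inr (Or.inl rfl))) (Or.inl rfl)
      hc (hvw x h1) hw'
  by_cases hv2 : v = z₂
  · subst hv2
    exact not_win_bob3 G x z₁ v hN m p' hu' v x c ((hN v).2 (Or.inr (Or.inr rfl))) (Or.inl rfl)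
      hc (hvw x h2) hw'
  have hx' : p' x = none := hvw x (Ne.symm hvx)
  obtain ⟨m', rfl⟩ : ∃ m', m = m' + 1 := by
    have h4 : 0 < unc p' := by
      rw [unc, Set.ncard_pos (Set.toFinite _)]
      exact ⟨x, hx'⟩
    exact ⟨m - 1, by omega⟩
  have hmv := move_update p' x hx' 0
  refine not_win_alice3 G x z₁ z₂ hN h3 m' _ ?_ 0 (Function.update_self ..) ?_ ?_ (hw' _ hmv)
  · have h4 := unc_move hmv
    omega
  · rw [Function.update_of_ne h1.symm]
    exact hvw z₁ (Ne.symm hv1)
  · rw [Function.update_of_ne h2.symm]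
    exact hvw z₂ (Ne.symm hv2)

omit h1 h2 h3 [Finite V] in
theorem card_nbhd : {y | y = x ∨ G.Adj x y}.ncard ≤ 3 := by
  classical
  have h4 : {y | y = x ∨ G.Adj x y} = (({x, z₁, z₂} : Finset V) : Set V) := by
    ext y
    simp only [Set.mem_ofPred_eq, hN y, Finset.coe_insert, Finset.coe_singleton,
      Set.mem_insert_iff, Set.mem_singleton_iff]
  rw [h4, Set.ncard_coe_finset]
  exact Finset.card_le_three

theorem gammaA_two (h : Win G 2 (Nat.card V) true fun _ => none) : gammaA G = 2 := by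
  refine gammaA_eq G x 2 3 (card_nbhd G x z₁ z₂ hN) h fun k hk hk' => ?_
  obtain rfl : k = 3 := by omega
  exact three_alice G x z₁ z₂ hN h1 h2 h3

theorem gammaB_two (h : Win G 2 (Nat.card V) false fun _ => none) : gammaB G = 2 := by
  refine gammaB_eq G x 2 3 (card_nbhd G x z₁ z₂ hN) h fun k hk hk' => ?_
  obtain rfl : k = 3 := by omega
  exact three_bob G x z₁ z₂ hN h1 h2 h3

theorem gammaA_one (h : ¬ Win G 2 (Nat.card V) true fun _ => none) : gammaA G = 1 := by
  refine gammaA_eq G x 1 3 (card_nbhd G x z₁ z₂ hN) (win_one _ _ _ _ unc_start) fun k hk hk' => ?_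
  obtain rfl | rfl : k = 2 ∨ k = 3 := by omega
  · exact h
  · exact three_alice G x z₁ z₂ hN h1 h2 h3

theorem gammaB_one (h : ¬ Win G 2 (Nat.card V) false fun _ => none) : gammaB G = 1 := by
  refine gammaB_eq G x 1 3 (card_nbhd G x z₁ z₂ hN) (win_one _ _ _ _ unc_start) fun k hk hk' => ?_
  obtain rfl | rfl : k = 2 ∨ k = 3 := by omega
  · exact h
  · exact three_bob G x z₁ z₂ hN h1 h2 h3

end three

end Pool.Agent.Lib.MP_2ce84e_co
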