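import Pool.Agent.Lib.MP_2ce84e_co.Deg.Basic

/-!
# Disjoint triples

If there are pairwise disjoint sets with at least three vertices such that every closed
neighbourhood contains one of them, Alice wins the game with two colours, whoever begins.
-/

set_option autoImplicit false

namespace Pool.Agent.Lib.MP_2ce84e_co

open Classical in
/-- The number of free vertices in `s`. -/
noncomputable def fr {V : Type} (p : V → Option (Fin 2)) (s : Finset V) : ℕ :=
  (s.filter fun y => p y = none).card

/-- Both colours occur in `s`. -/
def Both {V : Type} (p : V → Option (Fin 2)) (s : Finset V) : Prop := ∀ c, ∃ y ∈ s, p y = some c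

section triples

variable {V : Type}

theorem both_move {p p' : V → Option (Fin 2)} (h : Move p p') {s : Finset V} (hs : Both p s) :
    Both p' s := by
  obtain ⟨v, hv, -, hvw⟩ := h
  intro c
  obtain ⟨y, hy, hyc⟩ := hs c
  refine ⟨y, hy, ?_⟩
  rw [hvw y, hyc]
  rintro rfl
  rw [hv] at hyc
  simp at hyc

theorem fr_move {p p' : V → Option (Fin 2)} (h : Move p p') (s : Finset V) :
    fr p s ≤ fr p' s + 1 := by
  classical
  obtain ⟨v, hv, -, hvw⟩ := h
  unfold fr
  have h1 : (s.filter fun y => p y = none) ⊆ insert v (s.filter fun y => p' y = none) := by
    intro y hy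
    rw [Finset.mem_filter] at hy
    by_cases hyv : y = v
    · rw [hyv]
      exact Finset.mem_insert_self _ _
    · refine Finset.mem_insert_of_mem (Finset.mem_filter.2 ⟨hy.1, ?_⟩)
      rw [hvw y hyv]
      exact hy.2
  exact (Finset.card_le_card h1).trans (Finset.card_insert_le _ _)

theorem fr_other {p : V → Option (Fin 2)} {v : V} [DecidableEq V] (c : Fin 2) {s : Finset V}
    (hs : v ∉ s) : fr (Function.update p v (some c)) s = fr p s := by
  unfold fr
  congr 1
  refine Finset.filter_congr fun y hy => ?_
  rw [Function.update_of_ne]
  rintro rfl
  exact hs hy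

theorem both_other {p : V → Option (Fin 2)} {v : V} [DecidableEq V] (c : Fin 2) {s : Finset V}
    (hs : v ∉ s) (h : Both p s) : Both (Function.update p v (some c)) s := by
  intro d
  obtain ⟨y, hy, hyd⟩ := h d
  refine ⟨y, hy, ?_⟩
  rw [Function.update_of_ne, hyd]
  rintro rfl
  exact hs hy

/-- The other colour finishes the set. -/
theorem both_finish {p : V → Option (Fin 2)} {v y : V} [DecidableEq V] (c : Fin 2) {s : Finset V}
    (hv : p v = none) (hvs : v ∈ s) (hys : y ∈ s) (hy : p y = some c) :
    Both (Function.update p v (some (c + 1))) s := by
  intro d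
  by_cases hd : d = c
  · refine ⟨y, hys, ?_⟩
    rw [Function.update_of_ne, hy, hd]
    rintro rfl
    rw [hv] at hy
    simp at hy
  · refine ⟨v, hvs, ?_⟩
    rw [Function.update_self]
    congr 1
    omega

theorem exists_coloured {p : V → Option (Fin 2)} {s : Finset V} (h : fr p s < s.card) :
    ∃ y ∈ s, ∃ c, p y = some c := by
  classical
  by_contra hcon
  push Not at hcon
  have h1 : (s.filter fun y => p y = none) = s := by
    rw [Finset.filter_eq_self]
    intro y hy
    rcases hp : p y with _ | c
    · rfl
    · exact absurd hp (hcon y hy c)
  unfold fr at h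
  have h2 : (s.filter fun y => p y = none).card = s.card := by rw [h1]
  have h3 := h
  rw [show (Finset.filter (fun y => p y = none) s) = s.filter fun y => p y = none from rfl] at h3
  convert absurd h3 (by
    have : (Finset.filter (fun y => p y = none) s).card = s.card := by convert h2
    omega)

theorem exists_free {p : V → Option (Fin 2)} {s : Finset V} (h : 0 < fr p s) :
    ∃ v ∈ s, p v = none := by
  unfold fr at h
  obtain ⟨v, hv⟩ := Finset.card_pos.1 h
  rw [Finset.mem_filter] at hv
  exact ⟨v, hv.1, hv.2⟩

theorem fr_zero [Finite V] {p : V → Option (Fin 2)} (h : unc p = 0) (s : Finset V) :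
    fr p s = 0 := by
  have h1 : {v | p v = none} = ∅ := (Set.ncard_eq_zero (Set.toFinite _)).1 h
  unfold fr
  rw [Finset.card_eq_zero, Finset.filter_eq_empty_iff]
  intro v _ hv
  have h2 : v ∈ {v | p v = none} := hv
  rw [h1] at h2
  exact h2

variable [Finite V] (G : SimpleGraph V) {ι : Type} (A : ι → Finset V)
  (hA : ∀ i, 3 ≤ (A i).card) (hdis : ∀ i j, i ≠ j → ∀ v, v ∈ A i → v ∉ A j)
  (hN : ∀ x, ∃ i, ∀ y ∈ A i, y = x ∨ G.Adj x y)

include hA hdis hN

theorem triples_aux : ∀ (m : ℕ) (p : V → Option (Fin 2)), unc p = m →
    ((∀ i, Both p (A i) ∨ 2 ≤ fr p (A i)) → Win G 2 m false p) ∧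
    ((∃ o : Option ι, ∀ i, Both p (A i) ∨ 2 ≤ fr p (A i) ∨ (o = some i ∧ 1 ≤ fr p (A i))) →
      Win G 2 m true p) := by
  classical
  intro m
  induction m with
  | zero =>
    intro p hu
    have h0 := fun i => fr_zero hu (A i)
    constructor
    · intro h x c
      obtain ⟨i, hi⟩ := hN x
      have h1 : Both p (A i) := by
        rcases h i with h | h
        · exact h
        · rw [h0 i] at h
          omega
      obtain ⟨y, hy, hyc⟩ := h1 c
      exact ⟨y, hi y hy, hyc⟩
    · rintro ⟨o, h⟩ x c
      obtain ⟨i, hi⟩ := hN x
      have h1 : Both p (A i) := by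
        rcases h i with h | h | h
        · exact h
        · rw [h0 i] at h
          omega
        · rw [h0 i] at h
          omega
      obtain ⟨y, hy, hyc⟩ := h1 c
      exact ⟨y, hi y hy, hyc⟩
  | succ m ih =>
    intro p hu
    constructor
    · intro h p' hp'
      obtain ⟨v, c, hv, rfl⟩ := (move_iff p p').1 hp'
      refine (ih _ (by have := unc_move hp'; omega)).2 ?_
      by_cases hex : ∃ i, v ∈ A i
      · obtain ⟨i, hi⟩ := hex
        refine ⟨some i, fun j => ?_⟩
        by_cases hij : i = j
        · subst hij
          rcases h i with h | h
          · exact Or.inl (both_move hp' h)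
          · right
            right
            have := fr_move hp' (A i)
            exact ⟨rfl, by omega⟩
        · have h1 := hdis i j hij v hi
          rcases h j with h | h
          · exact Or.inl (both_other c h1 h)
          · right
            left
            rw [fr_other c h1]
            exact h
      · refine ⟨none, fun j => ?_⟩
        have h1 : v ∉ A j := fun h => hex ⟨j, h⟩
        rcases h j with h | h
        · exact Or.inl (both_other c h1 h)
        · right
          left
          rw [fr_other c h1]
          exact h
    · rintro ⟨o, h⟩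
      -- it is enough to find a good move
      have goal : (∃ (v : V) (c : Fin 2), p v = none ∧ ∀ i,
          Both (Function.update p v (some c)) (A i) ∨
            2 ≤ fr (Function.update p v (some c)) (A i)) → Win G 2 (m + 1) true p := by
        rintro ⟨v, c, hv, h1⟩
        have hmv := move_update p v hv c
        exact ⟨_, hmv, (ih _ (by have := unc_move hmv; omega)).1 h1⟩
      apply goal
      by_cases hcr : ∃ i, ¬ Both p (A i) ∧ ¬ 2 ≤ fr p (A i)
      · obtain ⟨i, hi1, hi2⟩ := hcr
        have h1 : o = some i ∧ 1 ≤ fr p (A i) := by
          rcases h i with h | h | h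
          · exact absurd h hi1
          · exact absurd h hi2
          · exact h
        obtain ⟨v, hvi, hv⟩ := exists_free (p := p) (s := A i) (by omega)
        obtain ⟨y, hyi, c, hy⟩ := exists_coloured (p := p) (s := A i) (by
          have := hA i
          omega)
        refine ⟨v, c + 1, hv, fun j => ?_⟩
        by_cases hij : i = j
        · subst hij
          exact Or.inl (both_finish c hv hvi hyi hy)
        · have h2 := hdis i j hij v hvi
          rcases h j with h | h | h
          · exact Or.inl (both_other _ h2 h)
          · right
            rw [fr_other _ h2]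
            exact h
          · rw [h1.1] at h
            exact absurd (Option.some_injective _ h.1) hij
      · push Not at hcr
        obtain ⟨v, hv⟩ := exists_unc hu
        by_cases hv1 : ∃ i, v ∈ A i ∧ ∃ y ∈ A i, ∃ c, p y = some c
        · obtain ⟨i, hvi, y, hyi, c, hy⟩ := hv1
          refine ⟨v, c + 1, hv, fun j => ?_⟩
          by_cases hij : i = j
          · subst hij
            exact Or.inl (both_finish c hv hvi hyi hy)
          · have h2 := hdis i j hij v hvi
            by_cases h3 : Both p (A j)
            · exact Or.inl (both_other _ h2 h3)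
            · right
              rw [fr_other _ h2]
              exact hcr j h3
        · refine ⟨v, 0, hv, fun j => ?_⟩
          by_cases h3 : Both p (A j)
          · exact Or.inl (both_move (move_update p v hv 0) h3)
          · right
            by_cases hvj : v ∈ A j
            · have h4 : ¬ fr p (A j) < (A j).card := fun h5 => hv1 ⟨j, hvj, exists_coloured h5⟩
              have h5 := fr_move (move_update p v hv 0) (A j)
              have h6 := hA j
              omega
            · rw [fr_other _ hvj]
              exact hcr j h3

theorem triples (t : Bool) : Win G 2 (Nat.card V) t fun _ => none := by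
  have h1 : ∀ i, 2 ≤ fr (fun _ : V => (none : Option (Fin 2))) (A i) := by
    intro i
    unfold fr
    have h2 : (Finset.filter (fun y => (fun _ : V => (none : Option (Fin 2))) y = none) (A i)) =
        A i := by
      simp
    rw [h2]
    exact le_trans (by norm_num) (hA i)
  cases t
  · exact (triples_aux G A hA hdis hN _ _ unc_start).1 fun i => Or.inr (h1 i)
  · exact (triples_aux G A hA hdis hN _ _ unc_start).2 ⟨none, fun i => Or.inr (Or.inl (h1 i))⟩

end triples

end Pool.Agent.Lib.MP_2ce84e_co
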