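import Pool.Agent.Lib.MP_2ce84e_co.Deg.Degree
import Pool.Agent.Lib.MP_2ce84e_co.Deg.Three
import Pool.Agent.Lib.MP_2ce84e_co.Deg.Tri
import Pool.Agent.Lib.MP_2ce84e_co.Deg.TabSmall
import Pool.Agent.Lib.MP_2ce84e_co.Deg.TabTK
import Pool.Agent.Lib.MP_2ce84e_co.Deg.TabGK
import Pool.Agent.Lib.MP_2ce84e_co.Deg.TabSKA
import Pool.Agent.Lib.MP_2ce84e_co.Deg.TabSKB

/-!
# The graphs and their game domatic numbers

`gS`, `gT` are connected graphs with 7 vertices, `gG`, `gH` are connected graphs with 10 vertices.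
-/

set_option autoImplicit false
set_option maxRecDepth 20000

namespace Pool.Agent.Lib.MP_2ce84e_co

/-- The graph on `Fin n` with the edges of the list. -/
def graphOf (n : ℕ) (E : List (ℕ × ℕ)) : SimpleGraph (Fin n) where
  Adj x y := x ≠ y ∧ (((x : ℕ), (y : ℕ)) ∈ E ∨ ((y : ℕ), (x : ℕ)) ∈ E)
  symm := ⟨fun _ _ h => ⟨h.1.symm, h.2.symm⟩⟩
  loopless := ⟨fun _ h => h.1 rfl⟩

instance (n : ℕ) (E : List (ℕ × ℕ)) : DecidableRel (graphOf n E).Adj := fun x y =>
  inferInstanceAs (Decidable (x ≠ y ∧ (((x : ℕ), (y : ℕ)) ∈ E ∨ ((y : ℕ), (x : ℕ)) ∈ E)))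

abbrev gS : SimpleGraph (Fin 7) :=
  graphOf 7 [(0, 1), (0, 2), (0, 3), (1, 4), (2, 5), (3, 5), (1, 6), (2, 6), (3, 6), (4, 6)]

abbrev gT : SimpleGraph (Fin 7) :=
  graphOf 7 [(0, 1), (0, 2), (0, 3), (0, 4), (1, 5), (2, 5), (3, 5), (1, 6), (2, 6), (4, 6)]

abbrev gG : SimpleGraph (Fin 10) :=
  graphOf 10 [(0, 1), (0, 2), (0, 3), (1, 4), (2, 5), (3, 5), (1, 6), (2, 6), (3, 6), (4, 6),
    (7, 8), (7, 9), (8, 9), (1, 7)]

abbrev gH : SimpleGraph (Fin 10) :=
  graphOf 10 [(0, 1), (0, 2), (1, 2), (3, 4), (3, 5), (4, 5), (6, 7), (6, 8), (6, 9), (7, 8), (7, 9),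
    (8, 9), (0, 6), (3, 7)]

/-! ### Degrees -/

theorem degreeMultiset_graphOf (n : ℕ) (E : List (ℕ × ℕ)) : degreeMultiset (graphOf n E) =
    Finset.univ.val.map fun v => (Finset.univ.filter fun w => (graphOf n E).Adj v w).card := by
  unfold degreeMultiset
  refine Multiset.map_congr rfl fun v _ => ?_
  have h : (graphOf n E).neighborSet v =
      ((Finset.univ.filter fun w => (graphOf n E).Adj v w : Finset (Fin n)) : Set (Fin n)) := by
    ext w
    simp
  rw [h, Set.ncard_coe_finset]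

theorem deg_ST : degreeMultiset gS = degreeMultiset gT := by
  rw [degreeMultiset_graphOf, degreeMultiset_graphOf]
  decide +kernel

theorem deg_GH : degreeMultiset gG = degreeMultiset gH := by
  rw [degreeMultiset_graphOf, degreeMultiset_graphOf]
  decide +kernel

/-! ### Connectedness -/

theorem connected_of_par {n : ℕ} (G : SimpleGraph (Fin (n + 1))) (par : Fin (n + 1) → Fin (n + 1))
    (h : ∀ x, x ≠ 0 → par x < x ∧ G.Adj x (par x)) : G.Connected := by
  have h1 : ∀ m : ℕ, ∀ x : Fin (n + 1), (x : ℕ) = m → G.Reachable 0 x := by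
    intro m
    induction m using Nat.strong_induction_on with
    | _ m ih =>
      intro x hx
      by_cases h0 : x = 0
      · rw [h0]
      · obtain ⟨h2, h3⟩ := h x h0
        exact (ih (par x : ℕ) (by rw [← hx]; exact h2) (par x) rfl).trans h3.symm.reachable
  rw [SimpleGraph.connected_iff_exists_forall_reachable]
  exact ⟨0, fun x => h1 x x rfl⟩

theorem conn_S : gS.Connected := connected_of_par gS ![0, 0, 0, 0, 1, 2, 1] (by decide)

theorem conn_T : gT.Connected := connected_of_par gT ![0, 0, 0, 0, 0, 1, 1] (by decide)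

theorem conn_G : gG.Connected := connected_of_par gG ![0, 0, 0, 0, 1, 2, 1, 1, 7, 7] (by decide)

theorem conn_K3 : K3.Connected := connected_of_par K3 ![0, 0, 0] (by decide)

/-- Relabelled parents: `gH` is connected. -/
theorem conn_H : gH.Connected := by
  have h01 : gH.Adj 0 1 := by decide
  have h02 : gH.Adj 0 2 := by decide
  have h06 : gH.Adj 0 6 := by decide
  have h67 : gH.Adj 6 7 := by decide
  have h68 : gH.Adj 6 8 := by decide
  have h69 : gH.Adj 6 9 := by decide
  have h73 : gH.Adj 7 3 := by decide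
  have h34 : gH.Adj 3 4 := by decide
  have h35 : gH.Adj 3 5 := by decide
  have r7 := h06.reachable.trans h67.reachable
  have r3 := r7.trans h73.reachable
  rw [SimpleGraph.connected_iff_exists_forall_reachable]
  refine ⟨0, fun x => ?_⟩
  fin_cases x
  · exact SimpleGraph.Reachable.refl _
  · exact h01.reachable
  · exact h02.reachable
  · exact r3
  · exact r3.trans h34.reachable
  · exact r3.trans h35.reachable
  · exact h06.reachable
  · exact r7
  · exact h06.reachable.trans h68.reachable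
  · exact h06.reachable.trans h69.reachable

/-! ### Bit masks -/

def nbS : Fin 7 → ℕ := ![15, 83, 101, 105, 82, 44, 94]
def nbT : Fin 7 → ℕ := ![31, 99, 101, 41, 81, 46, 86]
def nbG : Fin 10 → ℕ := ![15, 211, 101, 105, 82, 44, 94, 898, 896, 896]

theorem hnbS : ∀ x y : Fin 7, (y = x ∨ gS.Adj x y) ↔
    (nbS x).testBit (Equiv.refl (Fin 7) y) = true := by decide +kernel
theorem hnbT : ∀ x y : Fin 7, (y = x ∨ gT.Adj x y) ↔
    (nbT x).testBit (Equiv.refl (Fin 7) y) = true := by decide +kernel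
theorem hnbG : ∀ x y : Fin 10, (y = x ∨ gG.Adj x y) ↔
    (nbG x).testBit (Equiv.refl (Fin 10) y) = true := by decide +kernel

/-- The masks for the union with a triangle. -/
def nbK (n : ℕ) (nb : Fin n → ℕ) : Fin n ⊕ Fin 3 → ℕ
  | .inl x => nb x
  | .inr _ => 7 <<< n

theorem hnbK (n : ℕ) (G : SimpleGraph (Fin n)) (nb : Fin n → ℕ) (hlt : ∀ x, nb x < 2 ^ n)
    (h : ∀ x y, (y = x ∨ G.Adj x y) ↔ (nb x).testBit (Equiv.refl (Fin n) y) = true)
    (x y : Fin n ⊕ Fin 3) : (y = x ∨ (G ⊕g K3).Adj x y) ↔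
      (nbK n nb x).testBit (finSumFinEquiv y) = true := by
  rcases x with x | x <;> rcases y with y | y
  · rw [finSumFinEquiv_apply_left]
    show _ ↔ (nb x).testBit y = true
    rw [← Equiv.refl_apply y, ← h x y]
    simp
  · rw [finSumFinEquiv_apply_right]
    show _ ↔ (nb x).testBit (n + y) = true
    rw [Nat.testBit_lt_two_pow (lt_of_lt_of_le (hlt x)
      (Nat.pow_le_pow_right (by norm_num) (by omega)))]
    simp
  · rw [finSumFinEquiv_apply_left]
    show _ ↔ (7 <<< n).testBit y = true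
    rw [Nat.testBit_shiftLeft]
    have := y.isLt
    simp
  · rw [finSumFinEquiv_apply_right]
    show _ ↔ (7 <<< n).testBit (n + y) = true
    rw [Nat.testBit_shiftLeft]
    have h1 : n + (y : ℕ) - n = y := by omega
    rw [h1]
    have h2 : (7 : ℕ).testBit (y : ℕ) = true := by
      fin_cases y <;> rfl
    rw [h2]
    simp only [ge_iff_le, le_add_iff_nonneg_right, zero_le, decide_true, Bool.and_self, iff_true]
    by_cases hxy : y = x
    · left
      rw [hxy]
    · right
      show (⊤ : SimpleGraph (Fin 3)).Adj x y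
      rw [SimpleGraph.top_adj]
      exact Ne.symm hxy

/-! ### The values -/

theorem gammaA_S : gammaA gS = 2 :=
  gammaA_two gS 4 1 6 (by decide) (by decide) (by decide) (by decide)
    (alice_first (Equiv.refl _) gS nbS hnbS lSA (by decide) (by decide) tSA tSA_all tSA_0)

theorem gammaB_S : gammaB gS = 1 :=
  gammaB_one gS 4 1 6 (by decide) (by decide) (by decide) (by decide)
    (bob_first (Equiv.refl _) gS nbS hnbS lSB (by decide) tSB tSB_all tSB_0)

theorem gammaA_T : gammaA gT = 2 :=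
  gammaA_two gT 3 0 5 (by decide) (by decide) (by decide) (by decide)
    (alice_first (Equiv.refl _) gT nbT hnbT lTA (by decide) (by decide) tTA tTA_all tTA_0)

theorem gammaB_T : gammaB gT = 1 :=
  gammaB_one gT 3 0 5 (by decide) (by decide) (by decide) (by decide)
    (bob_first (Equiv.refl _) gT nbT hnbT lTB (by decide) tTB tTB_all tTB_0)

theorem hN_K3 {n : ℕ} (G : SimpleGraph (Fin n)) (y : Fin n ⊕ Fin 3) :
    (y = Sum.inr 0 ∨ (G ⊕g K3).Adj (Sum.inr 0) y) ↔
      (y = Sum.inr 0 ∨ y = Sum.inr 1 ∨ y = Sum.inr 2) := by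
  rcases y with y | y
  · simp
  · fin_cases y <;> simp

theorem gammaA_SK : gammaA (gS ⊕g K3) = 2 :=
  gammaA_two _ (Sum.inr 0) (Sum.inr 1) (Sum.inr 2) (hN_K3 gS) (by simp) (by simp) (by simp)
    (alice_first finSumFinEquiv (gS ⊕g K3) (nbK 7 nbS) (hnbK 7 gS nbS (by decide) hnbS) lSKA
      (by decide) (by decide) tSKA tSKA_all tSKA_0)

theorem gammaA_TK : gammaA (gT ⊕g K3) = 1 :=
  gammaA_one _ (Sum.inr 0) (Sum.inr 1) (Sum.inr 2) (hN_K3 gT) (by simp) (by simp) (by simp)
    (bob_second finSumFinEquiv (gT ⊕g K3) (nbK 7 nbT) (hnbK 7 gT nbT (by decide) hnbT) lTKA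
      (by decide) tTKA tTKA_all tTKA_0)

theorem gammaA_G : gammaA gG = 2 :=
  gammaA_two gG 4 1 6 (by decide) (by decide) (by decide) (by decide)
    (alice_first (Equiv.refl _) gG nbG hnbG lSKA (by decide) (by decide) tSKA tSKA_all tSKA_0)

theorem gammaB_G : gammaB gG = 2 :=
  gammaB_two gG 4 1 6 (by decide) (by decide) (by decide) (by decide)
    (alice_second (Equiv.refl _) gG nbG hnbG lSKB (by decide) (by decide) tSKB tSKB_all tSKB_0)

theorem gammaB_GK : gammaB (gG ⊕g K3) = 1 :=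
  gammaB_one _ (Sum.inr 0) (Sum.inr 1) (Sum.inr 2) (hN_K3 gG) (by simp) (by simp) (by simp)
    (bob_first finSumFinEquiv (gG ⊕g K3) (nbK 10 nbG) (hnbK 10 gG nbG (by decide) hnbG) lGKB
      (by decide) tGKB tGKB_all tGKB_0)

def triH : Fin 3 → Finset (Fin 10) := ![{0, 1, 2}, {3, 4, 5}, {6, 7, 8}]

theorem gammaA_H : gammaA gH = 2 :=
  gammaA_two gH 1 0 2 (by decide) (by decide) (by decide) (by decide)
    (triples gH triH (by decide) (by decide) (by decide) true)

theorem gammaB_H : gammaB gH = 2 :=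
  gammaB_two gH 1 0 2 (by decide) (by decide) (by decide) (by decide)
    (triples gH triH (by decide) (by decide) (by decide) false)

/-- Disjoint triples in the union with a triangle. -/
def triHK : Option (Fin 3) → Finset (Fin 10 ⊕ Fin 3)
  | some i => (triH i).map ⟨Sum.inl, Sum.inl_injective⟩
  | none => Finset.univ.map ⟨Sum.inr, Sum.inr_injective⟩

theorem gammaB_HK : gammaB (gH ⊕g K3) = 2 := by
  refine gammaB_two _ (Sum.inr 0) (Sum.inr 1) (Sum.inr 2) (hN_K3 gH) (by simp) (by simp) (by simp)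
    (triples (gH ⊕g K3) triHK ?_ ?_ ?_ false)
  · decide
  · have h : ∀ i j : Fin 3, i ≠ j → ∀ v, v ∈ triH i → v ∉ triH j := by decide
    rintro (_ | i) (_ | j) hij (v | v) hv <;> simp [triHK] at hv hij ⊢
    exact h i j hij v hv
  · rintro (x | x)
    · have h : ∀ x : Fin 10, ∃ i, ∀ y ∈ triH i, y = x ∨ gH.Adj x y := by decide
      obtain ⟨i, hi⟩ := h x
      refine ⟨some i, ?_⟩
      rintro (y | y) hy
      · have h1 : y ∈ triH i := by simpa [triHK] using hy
        rcases hi y h1 with h2 | h2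
        · exact Or.inl (by rw [h2])
        · exact Or.inr h2
      · simp [triHK] at hy
    · refine ⟨none, ?_⟩
      rintro (y | y) hy
      · simp [triHK] at hy
      · by_cases hxy : y = x
        · exact Or.inl (by rw [hxy])
        · right
          show (⊤ : SimpleGraph (Fin 3)).Adj x y
          rw [SimpleGraph.top_adj]
          exact Ne.symm hxy

end Pool.Agent.Lib.MP_2ce84e_co
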